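import Pool.Agent.WarM.TOPA
import Pool.Agent.War.Main

/-!
# Simultaneous Waring decompositions (MP_db021c_ag): at least `n + 1` forms, all degrees `≥ 4`   (helper27)
-/

set_option autoImplicit false

open Module MvPolynomial
open Pool.Agent.War Pool.Agent.WarS

namespace Pool.Agent.WarM

/-- there are `N` points such that the only polynomial of degree `≤ d` vanishing there is zero -/
theorem points {n d : ℕ} (hn : 1 ≤ n) : ∃ z : Fin (NN n d) → Fin n → ℂ,
    ∀ f : MvPolynomial (Fin n) ℂ, f.totalDegree ≤ d → (∀ i, eval (z i) f = 0) → f = 0 := by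
  obtain ⟨z, hz⟩ := (SG n d (Fin (NN n d)) ∅ hn (by
    rw [Finset.card_empty]
    exact GG.zero _ _)).exists
  refine ⟨z, fun f hf hv => ?_⟩
  have h0 : finrank ℂ (Dbl n d (∅ : Finset (Fin (NN n d))) z) = 0 := by
    simpa using hz
  have h1 : Dbl n d (∅ : Finset (Fin (NN n d))) z = ⊥ := Submodule.finrank_eq_zero.mp h0
  have h2 : (⟨f, mem_Pol.mpr hf⟩ : Pol n d) ∈ Dbl n d (∅ : Finset (Fin (NN n d))) z := by
    rw [mem_Dbl]
    exact ⟨hv, fun i hi => absurd hi (Finset.notMem_empty i)⟩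
  rw [h1, Submodule.mem_bot] at h2
  exact congrArg Subtype.val h2

theorem W_top {n d : ℕ} (s : ℕ) (hn : 1 ≤ n) : Waring.W d (NN n d) n s := by
  obtain ⟨z, hz⟩ := points (d := d) hn
  exact Waring.W_of_dual z (fun _ _ => 0) fun g hg h1 _ j => hz (g j) (hg j) fun i => h1 i j

/-- at least `n + 1` forms in degree at least `4`: no exceptions -/
theorem W_many (hAH : S_AH) (hSB : S_SB) (n d s h : ℕ) (hn : 3 ≤ n) (hd : 4 ≤ d)
    (hs : n + 1 ≤ s) :
    Waring.W d h n s ↔ min s ((n + d).choose n) ≤ h ∧ s * (n + d).choose n ≤ h * (n + s) := by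
  refine ⟨fun H => ⟨H.bound2, H.bound1 (by omega)⟩, fun H => ?_⟩
  by_cases hN : (n + d).choose n ≤ h
  · exact (W_top s (by omega : 1 ≤ n)).mono hN
  · have hsN : ¬ (n + d).choose n ≤ s := fun hle => hN (by
      rw [min_eq_right hle] at H; exact H.1)
    have hsh : s ≤ h := by
      rw [min_eq_left (by omega)] at H; exact H.1
    obtain ⟨z, a, y, hK⟩ := TOPA (BLKA hAH hSB) n d s h hn hd hs hsh (by unfold NN; omega) H.2
    exact Waring.W_of_dual z a fun g hg h1 h2 => hK g hg h1 h2 fun i => i.elim0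

end Pool.Agent.WarM
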