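import Pool.Agent.WarM.Num

/-!
# Independent double points at half capacity

If `(2n+1) p ≤ NN n d`, `d ≥ 3`, then `p` general double points are independent in degree `d`.
-/

set_option autoImplicit false

open Pool.Agent.War

namespace Pool.Agent.WarM

/-- one double point in degree two -/
theorem GG_two_one : ∀ n : ℕ, GG n 2 1
  | 0 => GG_zero_one 2
  | n + 1 => by
      have h := horace (n := n) (d := 0) (u := 1) (q := 0) (p₂ := 0) (GG_two_one n)
        (GG.zero _ _) (GG.zero _ _) le_rfl (by
          rw [NN_zero_right, NN_right_one]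
          omega)
      exact h

/-- **The theorem.** -/
theorem AH : ∀ n d p : ℕ, 1 ≤ n → 3 ≤ d → (2 * n + 1) * p ≤ NN n d → GG n d p := by
  intro n d p hn
  induction n, hn using Nat.le_induction generalizing d p with
  | base =>
    intro hd hp
    rw [NN_one] at hp
    exact GG_one d p (by omega)
  | succ m hm ihm =>
    induction d using Nat.strong_induction_on generalizing p with
    | _ d ihd =>
      intro hd hp
      rcases Nat.lt_or_ge d 4 with h4 | h4
      · -- cubics
        obtain rfl : d = 3 := by omega
        obtain ⟨k, e, hk, he⟩ : ∃ k e, (m + 1) + 1 = 3 * k + e ∧ e ≤ 2 :=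
          ⟨((m + 1) + 1) / 3, ((m + 1) + 1) % 3, by omega, by omega⟩
        rcases Nat.eq_zero_or_pos k with h0 | h0
        · -- `m + 2 = 2` is impossible here
          exfalso
          omega
        · exact cubic k e p (m + 1) hk (num3 (m + 1) k e p hk he h0 hp)
      · obtain ⟨e, rfl⟩ : ∃ e, d = e + 2 := ⟨d - 2, by omega⟩
        obtain ⟨q, hq⟩ : ∃ q, q = min p (NN (m + 1) (e + 1) / (2 * (m + 1) + 1)) := ⟨_, rfl⟩
        have hqp : q ≤ p := by rw [hq]; exact min_le_left _ _
        have hq1 : (2 * (m + 1) + 1) * q ≤ NN (m + 1) (e + 1) := by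
          have h1 : q ≤ NN (m + 1) (e + 1) / (2 * (m + 1) + 1) := by
            rw [hq]
            exact min_le_right _ _
          exact (Nat.mul_le_mul_left _ h1).trans (Nat.mul_div_le _ _)
        have hb : GG (m + 1) (e + 1) q := ihd (e + 1) (by omega) q (by omega) hq1
        obtain ⟨p₂, hc, hp₂, ha, hnum⟩ : ∃ p₂, GG (m + 1) e p₂ ∧ p₂ ≤ q ∧
            (2 * m + 1) * (p - q) ≤ NN m (e + 2) ∧
            NN (m + 1) e + (p - q) + (m + 2) * q ≤ NN (m + 1) (e + 1) + (m + 2) * p₂ := by
          rcases Nat.lt_or_ge e 3 with h3 | h3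
          · obtain rfl : e = 2 := by omega
            obtain ⟨h5, h6⟩ := numE m p q hm hp hq
            refine ⟨min q 1, ?_, min_le_left _ _, h5, h6⟩
            rcases Nat.eq_zero_or_pos q with h0 | h0
            · rw [h0]
              exact GG.zero _ _
            · rw [min_eq_right h0]
              exact GG_two_one _
          · obtain ⟨h5, h6⟩ := numD m e p q hm h3 hp hq
            refine ⟨_, ihd e (by omega) _ (by omega) ?_, min_le_left _ _, h5, h6⟩
            exact (Nat.mul_le_mul_left _ (min_le_right _ _)).trans (Nat.mul_div_le _ _)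
        have h := horace (ihm (e + 2) (p - q) (by omega) ha) hb hc hp₂ hnum
        rwa [Nat.sub_add_cancel hqp] at h

end Pool.Agent.WarM
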