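import Pool.Agent.WarM.Stmts
import Pool.Agent.WarS.SG
import Pool.Agent.War.C1

/-!
# Simultaneous Waring decompositions (MP_db021c_ag): the core of the block lemma   (helper27)
-/

set_option autoImplicit false

open Module MvPolynomial
open Pool.Agent.War Pool.Agent.WarS

namespace Pool.Agent.WarM

/-- trace: generically no nonzero tuple -/
theorem trace (ν d b u eH : ℕ) (hν : 1 ≤ ν) (h1 : GG ν d u)
    (h2 : NN ν d ≤ ν * u + (b * u + eH)) :
    Gen ℂ fun x : ((Fin b × Fin u) ⊕ Fin eH → Fin ν → ℂ) × (Fin b × Fin u → Fin b → ℂ) =>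
      TrC1 ν d x = ⊥ := by
  classical
  let P : Fin b → Finset ((Fin b × Fin u) ⊕ Fin eH) := fun j =>
    Finset.univ.map ⟨fun i : Fin u => Sum.inl (j, i), fun i i' h => by
      simpa using h⟩
  have hP : ∀ j, (P j).card = u := fun j => by simp [P]
  have hcard : Fintype.card ((Fin b × Fin u) ⊕ Fin eH) = b * u + eH := by simp
  obtain ⟨z0, hz0⟩ := (Gen.forall fun j : Fin b =>
    SG ν d ((Fin b × Fin u) ⊕ Fin eH) (P j) hν (by rw [hP]; exact h1)).exists
  have hD : ∀ j, Dbl ν d (P j) z0 = ⊥ := fun j =>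
    Dbl_eq_botC1 (hz0 j) (by rw [hP, hcard]; omega)
  refine (PK_TrC1 ν d).gen_bot
    (x₀ := (z0, fun q => (Pi.single q.1 1 : Fin b → ℂ))) ?_
  rw [eq_bot_iff]
  intro f hf
  obtain ⟨k1, k2⟩ := mem_TrC1.1 hf
  rw [Submodule.mem_bot]
  funext j
  have : f j ∈ Dbl ν d (P j) z0 := by
    refine mem_Dbl.2 ⟨fun i => k1 i j, fun i hi k => ?_⟩
    obtain ⟨i', -, rfl⟩ := Finset.mem_map.1 hi
    have := k2 (j, i') k
    change eval (z0 (Sum.inl (j, i'))) (pderiv k (f j : MvPolynomial (Fin ν) ℂ)) = 0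
    simpa [Pi.single_apply] using this
  rw [hD, Submodule.mem_bot] at this
  rw [this]
  rfl

theorem Dbl_anti {n d : ℕ} {I : Type} {P P' : Finset I} (h : P' ⊆ P) (z : I → Fin n → ℂ) :
    Dbl n d P z ≤ Dbl n d P' z := by
  intro f hf
  rw [mem_Dbl] at hf ⊢
  exact ⟨hf.1, fun i hi k => hf.2 i (h hi) k⟩

theorem CORE : S_CORE := by
  intro ν δ b u r c eH e w k hν hc h1 h2 h3 h3' hk hkr h4 hw h6 h5
  classical
  -- the off points
  let own : (Fin b × Fin r) ⊕ Fin c → Fin b := Sum.elim Prod.fst (Fin.castLE hc)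
  let Q : Fin b → Finset (((Fin b × Fin r) ⊕ Fin c) ⊕ Fin e) := fun j =>
    (Finset.univ.filter fun q => own q = j).map ⟨Sum.inl, Sum.inl_injective⟩
  have hQ : ∀ j : Fin b, (Q j).card = r + if (j : ℕ) < c then 1 else 0 := by
    intro j
    have e1 : (Q j).card = (Finset.univ.filter fun q => own q = j).card := by simp [Q]
    have e2 : ∀ i : Fin b, (∑ _x : Fin r, if i = j then 1 else 0) = if i = j then r else 0 := by
      intro i
      by_cases h : i = j <;> simp [h]
    rw [e1, Finset.card_filter, Fintype.sum_sum_type, Fintype.sum_prod_type]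
    congr 1
    · change (∑ i : Fin b, ∑ _x : Fin r, if i = j then 1 else 0) = r
      rw [Finset.sum_congr rfl fun i _ => e2 i]
      simp
    · change (∑ t : Fin c, if Fin.castLE hc t = j then 1 else 0) = _
      by_cases h : (j : ℕ) < c
      · rw [if_pos h, Finset.sum_eq_single (⟨j, h⟩ : Fin c)]
        · exact if_pos (Fin.ext rfl)
        · intro t _ ht
          rw [if_neg]
          intro h'
          apply ht
          rw [Fin.ext_iff] at h' ⊢
          simpa using h'
        · simp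
      · rw [if_neg h]
        refine Finset.sum_eq_zero fun t _ => if_neg fun h' => h ?_
        rw [Fin.ext_iff] at h'
        simp only [Fin.val_castLE] at h'
        omega
  have hQG : ∀ j, GG (ν + 1) (δ + 1) (Q j).card := fun j => by
    rw [hQ]
    split_ifs
    · exact h3
    · exact h3'
  have hcard : Fintype.card (((Fin b × Fin r) ⊕ Fin c) ⊕ Fin e) = b * r + c + e := by simp
  -- subsets with `k` elements
  have hR : ∀ j, ∃ R ⊆ Q j, R.card = k := fun j =>
    Finset.exists_subset_card_eq (by rw [hQ]; omega)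
  choose R hRQ hRk using hR
  obtain ⟨z', ⟨hA, hB⟩, hC⟩ := (((Gen.forall fun j : Fin b =>
    SG (ν + 1) (δ + 1) (((Fin b × Fin r) ⊕ Fin c) ⊕ Fin e) (Q j) (by omega) (hQG j)).and
    (Gen.forall fun j : Fin b =>
      SG (ν + 1) δ (((Fin b × Fin r) ⊕ Fin c) ⊕ Fin e) (R j) (by omega)
      (by rw [hRk]; exact hk))).and
    (Gen.forall fun i : ((Fin b × Fin r) ⊕ Fin c) ⊕ Fin e =>
      Gen.ne (K := ℂ) (F := fun z : ((Fin b × Fin r) ⊕ Fin c) ⊕ Fin e → Fin (ν + 1) → ℂ => z i 0)
        ((LP_coord (0 : Fin (ν + 1))).comp_linear (pt i)) (fun _ _ => 1) one_ne_zero)).exists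
  have hB' : ∀ j, Dbl (ν + 1) δ (Q j) z' = ⊥ := fun j => by
    rw [eq_bot_iff]
    refine (Dbl_anti (hRQ j) z').trans ?_
    rw [Dbl_eq_botC1 (hB j) ?_]
    rw [hcard, hRk]
    omega
  -- the residual space
  let V : Submodule ℂ (Fin b → Pol (ν + 1) (δ + 1)) :=
    Submodule.pi Set.univ fun j => Dbl (ν + 1) (δ + 1) (Q j) z'
  have hVmem : ∀ g, g ∈ V ↔ ∀ j, g j ∈ Dbl (ν + 1) (δ + 1) (Q j) z' := fun g => by
    simp [V, Submodule.mem_pi]
  have hV : finrank ℂ V ≤ b * u := by
    refine (finrank_pi_leC1 _).trans ?_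
    have e1 : ∀ j : Fin b, finrank ℂ (Dbl (ν + 1) (δ + 1) (Q j) z') ≤
        if (j : ℕ) < c then w - (ν + 1) else w := by
      intro j
      refine (hA j).trans ?_
      rw [hcard, hQ]
      split_ifs with h
      · have : (ν + 1) * (r + 1) = (ν + 1) * r + (ν + 1) := by ring
        omega
      · rw [add_zero]
        omega
    refine (Finset.sum_le_sum fun j _ => e1 j).trans ?_
    have e2 : (∑ j : Fin b, if (j : ℕ) < c then w - (ν + 1) else w) =
        c * (w - (ν + 1)) + (b - c) * w := by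
      rw [Fin.sum_univ_eq_sum_range (fun j => if j < c then w - (ν + 1) else w) b,
        Finset.sum_ite, Finset.sum_const, Finset.sum_const, smul_eq_mul, smul_eq_mul]
      have f1 : (Finset.range b).filter (fun x => x < c) = Finset.range c := by
        ext x
        simp only [Finset.mem_filter, Finset.mem_range]
        omega
      have f2 : (Finset.range b).filter (fun x => ¬ x < c) = Finset.Ico c b := by
        ext x
        simp only [Finset.mem_filter, Finset.mem_range, Finset.mem_Ico]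
        omega
      rw [f1, f2, Finset.card_range, Nat.card_Ico]
    rw [e2]
    obtain ⟨w', rfl⟩ : ∃ w', w = w' + (ν + 1) := ⟨w - (ν + 1), by omega⟩
    obtain ⟨b', rfl⟩ : ∃ b', b = c + b' := ⟨b - c, by omega⟩
    rw [Nat.add_sub_cancel, Nat.add_sub_cancel_left]
    have f3 : (c + b') * (w' + (ν + 1)) = c * w' + b' * (w' + (ν + 1)) + (ν + 1) * c := by ring
    rw [f3] at h6
    omega
  -- points with vectors on the hyperplane
  have hred : ∀ w ∈ V, w ∉ (⊥ : Submodule ℂ (Fin b → Pol (ν + 1) (δ + 1))) →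
      ∃ y : (Fin ν → ℂ) × (Fin b → ℂ), OmC1 ν (δ + 1) y w ≠ 0 := by
    intro w hw hw0
    by_contra hcon
    push Not at hcon
    apply hw0
    rw [Submodule.mem_bot]
    funext j
    have e1 : ∀ p : Fin ν → ℂ, eval p (res ν (w j : MvPolynomial (Fin (ν + 1)) ℂ)) = 0 := by
      intro p
      have := hcon (p, Pi.single j 1)
      rw [OmC1_apply] at this
      simpa [Pi.single_apply, eval_hp] using this
    have e2 : res ν (w j : MvPolynomial (Fin (ν + 1)) ℂ) = 0 :=
      MvPolynomial.funext fun p => by rw [e1, map_zero]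
    obtain ⟨g, hg⟩ := exists_mulXC1 e2
    have e3 : g ∈ Dbl (ν + 1) δ (Q j) z' :=
      Dbl_of_mulXC1 hC (by rw [← hg]; exact (hVmem w).1 hw j)
    rw [hB', Submodule.mem_bot] at e3
    rw [hg, e3, map_zero]
    rfl
  obtain ⟨yy, hyy⟩ := red (OmC1 ν (δ + 1)) V ⊥ hred (b * u)
  have hyy' : V ⊓ ⨅ i, LinearMap.ker (OmC1 ν (δ + 1) (yy i)) = ⊥ := by
    apply Submodule.finrank_eq_zero.1
    have : finrank ℂ (⊥ : Submodule ℂ (Fin b → Pol (ν + 1) (δ + 1))) = 0 := finrank_bot _ _
    rw [this] at hyy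
    omega
  have hres : Gen ℂ fun x : ((Fin b × Fin u) ⊕ Fin eH → Fin ν → ℂ) × (Fin b × Fin u → Fin b → ℂ) =>
      (⨅ i : Fin b × Fin u, LinearMap.ker (OmC1 ν (δ + 1) (x.1 (Sum.inl i), x.2 i))).comap
        V.subtype = ⊥ := by
    have hPK := PK_OmC1 ν (δ + 1) (α := Fin b × Fin u) (β := Fin eH) (γ := Fin b)
    refine (PK.comap (V' := V) hPK V.subtype).gen_bot
      (x₀ := (Sum.elim (fun q => (yy (finProdFinEquiv q)).1) (fun _ => 0),
        fun q => (yy (finProdFinEquiv q)).2)) ?_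
    rw [eq_bot_iff]
    intro v hv
    rw [Submodule.mem_comap, Submodule.mem_iInf] at hv
    have : (v : Fin b → Pol (ν + 1) (δ + 1)) ∈
        V ⊓ ⨅ i, LinearMap.ker (OmC1 ν (δ + 1) (yy i)) := by
      refine ⟨v.2, (Submodule.mem_iInf _).2 fun i => ?_⟩
      have := hv (finProdFinEquiv.symm i)
      simp only [Sum.elim_inl, Equiv.apply_symm_apply] at this
      exact this
    rw [hyy', Submodule.mem_bot] at this
    rw [Submodule.mem_bot]
    exact Subtype.ext this
  obtain ⟨x, hx1, hx2⟩ := ((trace ν (δ + 2) b u eH hν h1 h2).and hres).exists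
  refine ⟨Sum.elim (fun i => hp (x.1 (Sum.inl i))) (fun i => z' (Sum.inl i)),
    Sum.elim x.2 (fun i => Pi.single (own i) 1),
    Sum.elim (fun i => hp (x.1 (Sum.inr i))) (fun i => z' (Sum.inr i)), ?_⟩
  intro f hf k1 k2 k3
  -- trace
  have t1 : (fun j => resL ν (δ + 2) ⟨f j, mem_Pol.2 (hf j)⟩) ∈ TrC1 ν (δ + 2) x := by
    refine mem_TrC1.2 ⟨?_, fun i k => ?_⟩
    · rintro (i | i) j
      · have := k1 (Sum.inl i) j
        rw [Sum.elim_inl, eval_hp] at this
        exact this
      · have := k3 (Sum.inl i) j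
        rw [Sum.elim_inl, eval_hp] at this
        exact this
    · have := k2 (Sum.inl i) k.succ
      simp only [Sum.elim_inl, eval_hp_pderiv] at this
      exact this
  rw [hx1, Submodule.mem_bot] at t1
  have t2 : ∀ j, ∃ g : Pol (ν + 1) (δ + 1), (⟨f j, mem_Pol.2 (hf j)⟩ : Pol (ν + 1) (δ + 2)) =
      mulX ν (δ + 1) g := fun j => by
    refine exists_mulXC1 ?_
    have := congrArg Subtype.val (congrFun t1 j)
    simpa using this
  choose g hg using t2
  have hg' : ∀ j, f j = X 0 * (g j : MvPolynomial (Fin (ν + 1)) ℂ) := fun j =>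
    congrArg Subtype.val (hg j)
  have t3 : g ∈ V := by
    rw [hVmem]
    intro j
    refine Dbl_of_mulXC1 hC ?_
    rw [← hg j]
    refine mem_Dbl.2 ⟨?_, fun i hi k => ?_⟩
    · rintro (i | i)
      · exact k1 (Sum.inr i) j
      · exact k3 (Sum.inr i) j
    · obtain ⟨q, hq, rfl⟩ := Finset.mem_map.1 hi
      have hq' : own q = j := (Finset.mem_filter.1 hq).2
      have := k2 (Sum.inr q) k
      simp only [Sum.elim_inr, hq'] at this
      simpa [Pi.single_apply] using this
  have t4 : (⟨g, t3⟩ : V) ∈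
      (⨅ i : Fin b × Fin u, LinearMap.ker (OmC1 ν (δ + 1) (x.1 (Sum.inl i), x.2 i))).comap
        V.subtype := by
    rw [Submodule.mem_comap, Submodule.mem_iInf]
    intro i
    rw [LinearMap.mem_ker, Submodule.subtype_apply, OmC1_apply]
    have := k2 (Sum.inl i) 0
    simp only [Sum.elim_inl, hg', eval_pderiv_X_mulC1, hp_zero, zero_mul, zero_add,
      if_true, one_mul] at this
    exact this
  rw [hx2, Submodule.mem_bot] at t4
  intro j
  have : g j = 0 := congrFun (congrArg Subtype.val t4) j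
  rw [hg', this]
  simp

end Pool.Agent.WarM
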