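import Pool.Agent.WarM.Stmts

/-!
# Simultaneous Waring decompositions (MP_db021c_ag): one double point   (helper27)
-/

set_option autoImplicit false

open Module MvPolynomial
open Pool.Agent.War

namespace Pool.Agent.WarM

/-- value and derivatives at the origin -/
noncomputable def jet (n d : ℕ) : Pol n d →ₗ[ℂ] Option (Fin n) → ℂ :=
  LinearMap.pi fun o => match o with
    | none => ev n d 0
    | some k => dv n d k 0

theorem jet_surj (n d : ℕ) (hd : 1 ≤ d) : Function.Surjective (jet n d) := by
  intro c
  let f : MvPolynomial (Fin n) ℂ := C (c none) + ∑ k : Fin n, C (c (some k)) * X k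
  have hf : f.totalDegree ≤ d := by
    refine (totalDegree_add _ _).trans (max_le (by simp) ?_)
    refine totalDegree_finsetSum_le fun k _ => ?_
    refine (totalDegree_mul _ _).trans ?_
    rw [totalDegree_C, totalDegree_X]
    omega
  refine ⟨⟨f, mem_Pol.2 hf⟩, ?_⟩
  funext o
  rcases o with _ | k
  · change ev n d 0 _ = _
    rw [ev_apply]
    simp [f]
  · change dv n d k 0 _ = _
    rw [dv_apply]
    simp only [f, map_add, map_sum, pderiv_C, Derivation.leibniz, pderiv_X, zero_add, smul_zero,
      add_zero, smul_eq_mul, map_mul, eval_C, Pi.single_apply]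
    rw [Finset.sum_eq_single k]
    · simp
    · intro i _ hi
      rw [if_neg hi]
      simp
    · simp

theorem ONE : S_ONE := by
  intro n d hd
  refine ⟨fun _ => 0, ?_⟩
  have h1 : Dbl n d (Finset.univ : Finset (Fin 1)) (fun _ => 0) ≤ LinearMap.ker (jet n d) := by
    intro f hf
    rw [mem_Dbl] at hf
    rw [LinearMap.mem_ker]
    funext o
    rcases o with _ | k
    · change ev n d 0 f = 0
      rw [ev_apply]
      exact hf.1 0
    · change dv n d k 0 f = 0
      rw [dv_apply]
      exact hf.2 0 (Finset.mem_univ _) k
  have h2 := LinearMap.finrank_range_add_finrank_ker (jet n d)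
  rw [LinearMap.range_eq_top.2 (jet_surj n d hd), finrank_top, finrank_fintype_fun_eq_card,
    Fintype.card_option, Fintype.card_fin] at h2
  have h3 := finrank_Pol_le n d
  have h4 := Submodule.finrank_mono h1
  omega

end Pool.Agent.WarM
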