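import Pool.Agent.WarM.Stmts
import Pool.Agent.WarS.SG
import Pool.Agent.War.C0

/-!
# Simultaneous Waring decompositions (MP_db021c_ag): pure case of the block lemma   (helper27)
-/

set_option autoImplicit false

open Module MvPolynomial
open Pool.Agent.War Pool.Agent.WarS

namespace Pool.Agent.WarM

theorem PB : S_PB := by
  intro n d b q μ hn hb hG hμ hm
  unfold Block
  rw [← hm]
  set N := NN n d with hN
  set r := N - μ - b * q with hr
  have hGen : Gen ℂ fun z : (Fin (b * q) ⊕ Fin r) → Fin n → ℂ => ∀ j : Fin b,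
      finrank ℂ (Dbl n d (P0 q (b * q) b r le_rfl j) z) ≤
        NN n d - (n * (P0 q (b * q) b r le_rfl j).card + Fintype.card (Fin (b * q) ⊕ Fin r)) :=
    Gen.forall fun j => SG n d _ _ hn (by rw [card_P0]; exact hG)
  obtain ⟨z, hz⟩ := hGen.exists
  have hz0 : ∀ j : Fin b, Dbl n d (P0 q (b * q) b r le_rfl j) z = ⊥ := by
    intro j
    have := hz j
    rw [card_P0, Fintype.card_sum, Fintype.card_fin, Fintype.card_fin] at this
    rw [← Submodule.finrank_eq_zero (R := ℂ)]
    omega
  refine ⟨fun i => z (Sum.inl i), fun i j => if i.val / q = j.val then 1 else 0,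
    fun i => z (Sum.inr i), ?_⟩
  intro f hf hf1 hf2 hf3 j
  have hmem : (⟨f j, mem_Pol.2 (hf j)⟩ : Pol n d) ∈ Dbl n d (P0 q (b * q) b r le_rfl j) z := by
    rw [mem_Dbl]
    refine ⟨?_, ?_⟩
    · rintro (i | i)
      · exact hf1 i j
      · exact hf3 i j
    · intro i hi k
      unfold P0 at hi
      rw [Finset.mem_image] at hi
      obtain ⟨t, -, rfl⟩ := hi
      have hlt : j.val * q + t.val < b * q := by
        have h1 : (j.val + 1) * q ≤ b * q := Nat.mul_le_mul_right _ j.isLt
        have h2 := t.isLt
        rw [Nat.add_mul, one_mul] at h1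
        omega
      have h5 := hf2 ⟨j.val * q + t.val, hlt⟩ k
      have hdiv : (j.val * q + t.val) / q = j.val := by
        have hq0 : 0 < q := lt_of_le_of_lt (Nat.zero_le _) t.isLt
        rw [add_comm, Nat.add_mul_div_right _ _ hq0, Nat.div_eq_of_lt t.isLt, zero_add]
      rw [Finset.sum_eq_single j] at h5
      · simp only [hdiv, if_true, one_mul] at h5
        exact h5
      · intro j' _ hj'
        simp only [hdiv]
        rw [if_neg (fun h => hj' (Fin.ext h.symm)), zero_mul]
      · intro h
        exact absurd (Finset.mem_univ j) h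
  rw [hz0 j, Submodule.mem_bot] at hmem
  exact congrArg Subtype.val hmem

end Pool.Agent.WarM
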