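import Pool.Agent.WarM.CubG

/-!
# Independent double points in degree three: the system for two blocks, `e = 0`   (helper27)
-/

set_option autoImplicit false

namespace Pool.Agent.WarM.CubAH

theorem chk30 : Chk3 0 3 := by
  refine ⟨![![-1, 1, 0], ![0, -1, 1], ![1, 0, 1]],
    ![![1, 0, -1], ![0, 1, -1], ![1, -1, 0]],
    fun i => Sum.elim (![![1, 0, 0], ![0, 1, 0], ![0, 0, 1]] i) Fin.elim0,
    fun i => Sum.elim (![![1, 0, 0], ![0, 1, 0], ![0, 0, 1]] i) Fin.elim0, ?_⟩
  intro A B C D E h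
  obtain ⟨h1, h2, h3⟩ := h
  have f000 : -2 * A 0 0 + 2 * A 2 0 + B 0 0 + B 2 0 + D 0 0 = 0 := by
    refine Eq.trans ?_ (h1 0 0 0)
    simp [Fin.sum_univ_three]
    try ring
  have f001 : -2 * A 2 0 + B 0 1 + B 2 1 + D 0 1 = 0 := by
    refine Eq.trans ?_ (h1 0 0 1)
    simp [Fin.sum_univ_three]
    try ring
  have f002 : 2 * A 0 0 + B 0 2 + B 2 2 + D 0 2 = 0 := by
    refine Eq.trans ?_ (h1 0 0 2)
    simp [Fin.sum_univ_three]
    try ring
  have f010 : A 0 0 - A 0 1 + A 2 1 - B 0 0 = 0 := by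
    refine Eq.trans ?_ (h1 0 1 0)
    simp [Fin.sum_univ_three]
    try ring
  have f011 : -A 1 0 - A 2 1 - B 0 1 = 0 := by
    refine Eq.trans ?_ (h1 0 1 1)
    simp [Fin.sum_univ_three]
    try ring
  have f012 : -A 0 0 + A 0 1 + A 1 0 - B 0 2 = 0 := by
    refine Eq.trans ?_ (h1 0 1 2)
    simp [Fin.sum_univ_three]
    try ring
  have f020 : -A 0 2 + A 2 0 + A 2 2 + B 2 0 = 0 := by
    refine Eq.trans ?_ (h1 0 2 0)
    simp [Fin.sum_univ_three]
    try ring
  have f021 : A 1 0 - A 2 0 - A 2 2 + B 2 1 = 0 := by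
    refine Eq.trans ?_ (h1 0 2 1)
    simp [Fin.sum_univ_three]
    try ring
  have f022 : A 0 2 - A 1 0 + B 2 2 = 0 := by
    refine Eq.trans ?_ (h1 0 2 2)
    simp [Fin.sum_univ_three]
    try ring
  have f110 : 2 * A 0 1 + B 0 0 + B 1 0 + D 1 0 = 0 := by
    refine Eq.trans ?_ (h1 1 1 0)
    simp [Fin.sum_univ_three]
    try ring
  have f111 : -2 * A 1 1 + B 0 1 + B 1 1 + D 1 1 = 0 := by
    refine Eq.trans ?_ (h1 1 1 1)
    simp [Fin.sum_univ_three]
    try ring
  have f112 : -2 * A 0 1 + 2 * A 1 1 + B 0 2 + B 1 2 + D 1 2 = 0 := by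
    refine Eq.trans ?_ (h1 1 1 2)
    simp [Fin.sum_univ_three]
    try ring
  have f120 : A 0 2 + A 2 1 - B 1 0 = 0 := by
    refine Eq.trans ?_ (h1 1 2 0)
    simp [Fin.sum_univ_three]
    try ring
  have f121 : A 1 1 - A 1 2 - A 2 1 - B 1 1 = 0 := by
    refine Eq.trans ?_ (h1 1 2 1)
    simp [Fin.sum_univ_three]
    try ring
  have f122 : -A 0 2 - A 1 1 + A 1 2 - B 1 2 = 0 := by
    refine Eq.trans ?_ (h1 1 2 2)
    simp [Fin.sum_univ_three]
    try ring
  have f220 : 2 * A 2 2 + B 1 0 + B 2 0 + D 2 0 = 0 := by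
    refine Eq.trans ?_ (h1 2 2 0)
    simp [Fin.sum_univ_three]
    try ring
  have f221 : 2 * A 1 2 - 2 * A 2 2 + B 1 1 + B 2 1 + D 2 1 = 0 := by
    refine Eq.trans ?_ (h1 2 2 1)
    simp [Fin.sum_univ_three]
    try ring
  have f222 : -2 * A 1 2 + B 1 2 + B 2 2 + D 2 2 = 0 := by
    refine Eq.trans ?_ (h1 2 2 2)
    simp [Fin.sum_univ_three]
    try ring
  have g000 : A 0 0 + A 2 0 - 2 * B 0 0 + 2 * B 2 0 + E 0 0 = 0 := by
    refine Eq.trans ?_ (h2 0 0 0)
    simp [Fin.sum_univ_three]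
    try ring
  have g001 : -A 2 0 - B 0 1 - B 2 0 + B 2 1 = 0 := by
    refine Eq.trans ?_ (h2 0 0 1)
    simp [Fin.sum_univ_three]
    try ring
  have g002 : -A 0 0 + B 0 0 - B 0 2 + B 2 2 = 0 := by
    refine Eq.trans ?_ (h2 0 0 2)
    simp [Fin.sum_univ_three]
    try ring
  have g011 : A 1 0 + A 2 0 - 2 * B 2 1 + E 1 0 = 0 := by
    refine Eq.trans ?_ (h2 0 1 1)
    simp [Fin.sum_univ_three]
    try ring
  have g012 : -A 1 0 + B 0 1 - B 2 2 = 0 := by
    refine Eq.trans ?_ (h2 0 1 2)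
    simp [Fin.sum_univ_three]
    try ring
  have g022 : A 0 0 + A 1 0 + 2 * B 0 2 + E 2 0 = 0 := by
    refine Eq.trans ?_ (h2 0 2 2)
    simp [Fin.sum_univ_three]
    try ring
  have g100 : A 0 1 + A 2 1 + 2 * B 0 0 + E 0 1 = 0 := by
    refine Eq.trans ?_ (h2 1 0 0)
    simp [Fin.sum_univ_three]
    try ring
  have g101 : -A 2 1 + B 0 1 - B 1 0 = 0 := by
    refine Eq.trans ?_ (h2 1 0 1)
    simp [Fin.sum_univ_three]
    try ring
  have g102 : -A 0 1 - B 0 0 + B 0 2 + B 1 0 = 0 := by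
    refine Eq.trans ?_ (h2 1 0 2)
    simp [Fin.sum_univ_three]
    try ring
  have g111 : A 1 1 + A 2 1 - 2 * B 1 1 + E 1 1 = 0 := by
    refine Eq.trans ?_ (h2 1 1 1)
    simp [Fin.sum_univ_three]
    try ring
  have g112 : -A 1 1 - B 0 1 + B 1 1 - B 1 2 = 0 := by
    refine Eq.trans ?_ (h2 1 1 2)
    simp [Fin.sum_univ_three]
    try ring
  have g122 : A 0 1 + A 1 1 - 2 * B 0 2 + 2 * B 1 2 + E 2 1 = 0 := by
    refine Eq.trans ?_ (h2 1 2 2)
    simp [Fin.sum_univ_three]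
    try ring
  have g200 : A 0 2 + A 2 2 + 2 * B 2 0 + E 0 2 = 0 := by
    refine Eq.trans ?_ (h2 2 0 0)
    simp [Fin.sum_univ_three]
    try ring
  have g201 : -A 2 2 + B 1 0 - B 2 0 + B 2 1 = 0 := by
    refine Eq.trans ?_ (h2 2 0 1)
    simp [Fin.sum_univ_three]
    try ring
  have g202 : -A 0 2 - B 1 0 + B 2 2 = 0 := by
    refine Eq.trans ?_ (h2 2 0 2)
    simp [Fin.sum_univ_three]
    try ring
  have g211 : A 1 2 + A 2 2 + 2 * B 1 1 - 2 * B 2 1 + E 1 2 = 0 := by
    refine Eq.trans ?_ (h2 2 1 1)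
    simp [Fin.sum_univ_three]
    try ring
  have g212 : -A 1 2 - B 1 1 + B 1 2 - B 2 2 = 0 := by
    refine Eq.trans ?_ (h2 2 1 2)
    simp [Fin.sum_univ_three]
    try ring
  have g222 : A 0 2 + A 1 2 - 2 * B 1 2 + E 2 2 = 0 := by
    refine Eq.trans ?_ (h2 2 2 2)
    simp [Fin.sum_univ_three]
    try ring
  have zA00 : A 0 0 = 0 := by
    linear_combination (1 / 3) * f010 - (1 / 4) * f011 - (1 / 3) * f012 + (1 / 4) * f022 - (1 / 2) * f120 - (1 / 3) * g002 - (1 / 3) * g012 + (1 / 12) * g101 - (2 / 3) * g102 - (1 / 4) * g202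
  have zA01 : A 0 1 = 0 := by
    linear_combination -(1 / 3) * f010 - (1 / 4) * f011 + (1 / 3) * f012 + (1 / 2) * f022 - (1 / 4) * f120 - (2 / 3) * g002 + (1 / 12) * g012 - (1 / 3) * g101 - (1 / 3) * g102 + (1 / 4) * g202
  have zA02 : A 0 2 = 0 := by
    linear_combination (1 / 4) * f022 + (1 / 4) * f120 - (1 / 4) * g012 + (1 / 4) * g101 - (1 / 2) * g202
  have zA10 : A 1 0 = 0 := by
    linear_combination -(1 / 4) * f011 - (1 / 4) * f022 - (1 / 2) * g012 + (1 / 4) * g101 - (1 / 4) * g202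
  have zA11 : A 1 1 = 0 := by
    linear_combination (1 / 4) * f011 - (1 / 2) * f022 + (1 / 4) * f120 + (1 / 3) * f121 - (1 / 3) * f122 + (1 / 4) * g012 - (1 / 3) * g101 - (1 / 3) * g112 + (1 / 12) * g202 - (2 / 3) * g212
  have zA12 : A 1 2 = 0 := by
    linear_combination (1 / 2) * f011 - (1 / 4) * f022 + (1 / 4) * f120 - (1 / 3) * f121 + (1 / 3) * f122 - (1 / 4) * g012 + (1 / 12) * g101 - (2 / 3) * g112 - (1 / 3) * g202 - (1 / 3) * g212
  have zA20 : A 2 0 = 0 := by
    linear_combination (1 / 4) * f011 + (1 / 3) * f020 - (1 / 3) * f021 - (1 / 4) * f022 + (1 / 2) * f120 - (1 / 3) * g001 - (1 / 3) * g012 + (1 / 4) * g101 + (2 / 3) * g201 - (1 / 12) * g202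
  have zA21 : A 2 1 = 0 := by
    linear_combination -(1 / 4) * f011 + (1 / 4) * f120 + (1 / 4) * g012 - (1 / 2) * g101 + (1 / 4) * g202
  have zA22 : A 2 2 = 0 := by
    linear_combination -(1 / 2) * f011 + (1 / 3) * f020 - (1 / 3) * f021 + (1 / 4) * f022 - (1 / 4) * f120 + (2 / 3) * g001 - (1 / 12) * g012 + (1 / 4) * g101 - (1 / 3) * g201 - (1 / 3) * g202
  have zB00 : B 0 0 = 0 := by
    linear_combination -(1 / 3) * f010 - (1 / 4) * f011 - (2 / 3) * f012 - (1 / 4) * f022 + (1 / 3) * g002 - (1 / 6) * g012 - (1 / 12) * g101 - (1 / 3) * g102 - (1 / 4) * g202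
  have zB01 : B 0 1 = 0 := by
    linear_combination -(1 / 2) * f011 + (1 / 4) * f022 - (1 / 4) * f120 + (1 / 4) * g012 + (1 / 4) * g101
  have zB02 : B 0 2 = 0 := by
    linear_combination -(2 / 3) * f010 - (1 / 4) * f011 - (1 / 3) * f012 + (1 / 4) * f120 - (1 / 3) * g002 - (1 / 12) * g012 - (1 / 6) * g101 + (1 / 3) * g102 + (1 / 4) * g202
  have zB10 : B 1 0 = 0 := by
    linear_combination -(1 / 4) * f011 + (1 / 4) * f022 - (1 / 2) * f120 - (1 / 4) * g101 - (1 / 4) * g202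
  have zB11 : B 1 1 = 0 := by
    linear_combination -(1 / 4) * f022 - (1 / 4) * f120 - (1 / 3) * f121 - (2 / 3) * f122 + (1 / 4) * g012 + (1 / 12) * g101 + (1 / 3) * g112 + (1 / 6) * g202 - (1 / 3) * g212
  have zB12 : B 1 2 = 0 := by
    linear_combination (1 / 4) * f011 - (1 / 4) * f120 - (2 / 3) * f121 - (1 / 3) * f122 - (1 / 4) * g012 + (1 / 6) * g101 - (1 / 3) * g112 + (1 / 12) * g202 + (1 / 3) * g212
  have zB20 : B 2 0 = 0 := by
    linear_combination (1 / 4) * f011 + (1 / 3) * f020 + (2 / 3) * f021 + (1 / 4) * f022 - (1 / 3) * g001 + (1 / 6) * g012 - (1 / 4) * g101 - (1 / 3) * g201 - (1 / 12) * g202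
  have zB21 : B 2 1 = 0 := by
    linear_combination (2 / 3) * f020 + (1 / 3) * f021 + (1 / 4) * f022 + (1 / 4) * f120 + (1 / 3) * g001 + (1 / 12) * g012 + (1 / 4) * g101 + (1 / 3) * g201 - (1 / 6) * g202
  have zB22 : B 2 2 = 0 := by
    linear_combination -(1 / 4) * f011 + (1 / 2) * f022 - (1 / 4) * f120 - (1 / 4) * g012 + (1 / 4) * g202
  have zD00 : D 0 0 = 0 := by
    linear_combination f000 + f010 - f011 - f020 + f022 - 2 * f120 + g001 - g002 - g102 - g201
  have zD01 : D 0 1 = 0 := by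
    linear_combination f001 + f011 - f021 - f022 + f120 - g001 - g012 + g201
  have zD02 : D 0 2 = 0 := by
    linear_combination f002 + f011 + f012 - f022 + f120 + g002 + g012 + g102
  have zD10 : D 1 0 = 0 := by
    linear_combination f010 + f011 - f022 + f110 + f120 + g002 + g101 + g102
  have zD11 : D 1 1 = 0 := by
    linear_combination f011 - f022 + f111 + f120 + f121 - g101 - g112 - g212
  have zD12 : D 1 2 = 0 := by
    linear_combination -f011 + f012 + 2 * f022 + f112 - f120 + f122 - g002 - g102 + g112 + g212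
  have zD20 : D 2 0 = 0 := by
    linear_combination f011 - f020 - f022 + f120 + f220 - g001 + g201 + g202
  have zD21 : D 2 1 = 0 := by
    linear_combination -2 * f011 - f021 + f022 - f120 + f121 + f221 + g001 + g112 - g201 + g212
  have zD22 : D 2 2 = 0 := by
    linear_combination f011 - f022 + f120 + f122 + f222 - g112 - g202 - g212
  have zE00 : E 0 0 = 0 := by
    linear_combination -f010 - f011 - f012 - f020 - f021 - f022 + g000 + g001 + g002
  have zE01 : E 0 1 = 0 := by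
    linear_combination f010 + f011 + f012 + g100 + g101 + g102
  have zE02 : E 0 2 = 0 := by
    linear_combination -f020 - f021 - f022 + g200 + g201 + g202
  have zE10 : E 1 0 = 0 := by
    linear_combination f020 + f021 + f022 + g001 + g011 + g012
  have zE11 : E 1 1 = 0 := by
    linear_combination -f120 - f121 - f122 + g101 + g111 + g112
  have zE12 : E 1 2 = 0 := by
    linear_combination f020 + f021 + f022 + f120 + f121 + f122 + g201 + g211 + g212
  have zE20 : E 2 0 = 0 := by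
    linear_combination f010 + f011 + f012 + g002 + g012 + g022
  have zE21 : E 2 1 = 0 := by
    linear_combination -f010 - f011 - f012 + f120 + f121 + f122 + g102 + g112 + g122
  have zE22 : E 2 2 = 0 := by
    linear_combination -f120 - f121 - f122 + g202 + g212 + g222
  clear f000 f001 f002 f010 f011 f012 f020 f021 f022 f110 f111 f112 f120 f121 f122 f220 f221 f222 g000 g001 g002 g011 g012 g022 g100 g101 g102 g111 g112 g122 g200 g201 g202 g211 g212 g222
  refine ⟨fun t u => ?_, fun t u => ?_, fun t l => ?_, fun i u => ?_, fun i u => ?_⟩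
  · fin_cases t <;> fin_cases u <;> assumption
  · fin_cases t <;> fin_cases u <;> assumption
  · exact l.elim0
  · fin_cases i <;> fin_cases u <;> assumption
  · fin_cases i <;> fin_cases u <;> assumption

end Pool.Agent.WarM.CubAH
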