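import Pool.Agent.WarM.CubG

/-!
# Independent double points in degree three: the system for two blocks, `e = 1`   (helper27)
-/

set_option autoImplicit false

namespace Pool.Agent.WarM.CubAH

theorem chk31 : Chk3 1 4 := by
  refine ⟨![![0, 1, 1], ![1, 0, -1], ![0, 0, 1]],
    ![![0, 1, 1], ![0, 0, -1], ![-1, 1, 0]],
    fun i => Sum.elim (![![0, -1, 0], ![1, 0, 0], ![-1, 1, 1], ![1, 1, 1]] i) (![![0], ![-1], ![0], ![0]] i),
    fun i => Sum.elim (![![1, 0, 0], ![0, -1, 0], ![1, 0, 1], ![-1, 0, 0]] i) (![![-1], ![0], ![-1], ![0]] i), ?_⟩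
  intro A B C D E h
  obtain ⟨h1, h2, h3⟩ := h
  have f000 : B 1 0 + D 1 0 + D 2 0 + D 3 0 = 0 := by
    refine Eq.trans ?_ (h1 0 0 0)
    simp [Fin.sum_univ_three, Fin.sum_univ_four]
    try ring
  have f001 : B 1 1 + D 1 1 + D 2 1 + D 3 1 = 0 := by
    refine Eq.trans ?_ (h1 0 0 1)
    simp [Fin.sum_univ_three, Fin.sum_univ_four]
    try ring
  have f002 : -2 * A 1 0 + B 1 2 + D 1 2 + D 2 2 + D 3 2 = 0 := by
    refine Eq.trans ?_ (h1 0 0 2)
    simp [Fin.sum_univ_three, Fin.sum_univ_four]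
    try ring
  have f010 : -D 2 0 + D 3 0 = 0 := by
    refine Eq.trans ?_ (h1 0 1 0)
    simp [Fin.sum_univ_three, Fin.sum_univ_four]
    try ring
  have f011 : A 0 0 - D 2 1 + D 3 1 = 0 := by
    refine Eq.trans ?_ (h1 0 1 1)
    simp [Fin.sum_univ_three, Fin.sum_univ_four]
    try ring
  have f012 : A 0 0 - A 1 1 - D 2 2 + D 3 2 = 0 := by
    refine Eq.trans ?_ (h1 0 1 2)
    simp [Fin.sum_univ_three, Fin.sum_univ_four]
    try ring
  have f020 : -A 2 0 - B 1 0 - D 2 0 + D 3 0 = 0 := by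
    refine Eq.trans ?_ (h1 0 2 0)
    simp [Fin.sum_univ_three, Fin.sum_univ_four]
    try ring
  have f021 : A 0 0 + A 2 0 - B 1 1 - D 2 1 + D 3 1 = 0 := by
    refine Eq.trans ?_ (h1 0 2 1)
    simp [Fin.sum_univ_three, Fin.sum_univ_four]
    try ring
  have f022 : A 0 0 + A 1 0 - A 1 2 - B 1 2 - D 2 2 + D 3 2 = 0 := by
    refine Eq.trans ?_ (h1 0 2 2)
    simp [Fin.sum_univ_three, Fin.sum_univ_four]
    try ring
  have f110 : B 0 0 + D 0 0 + D 2 0 + D 3 0 = 0 := by
    refine Eq.trans ?_ (h1 1 1 0)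
    simp [Fin.sum_univ_three, Fin.sum_univ_four]
    try ring
  have f111 : 2 * A 0 1 + B 0 1 + D 0 1 + D 2 1 + D 3 1 = 0 := by
    refine Eq.trans ?_ (h1 1 1 1)
    simp [Fin.sum_univ_three, Fin.sum_univ_four]
    try ring
  have f112 : 2 * A 0 1 + B 0 2 + D 0 2 + D 2 2 + D 3 2 = 0 := by
    refine Eq.trans ?_ (h1 1 1 2)
    simp [Fin.sum_univ_three, Fin.sum_univ_four]
    try ring
  have f120 : -A 2 1 + B 0 0 + D 2 0 + D 3 0 = 0 := by
    refine Eq.trans ?_ (h1 1 2 0)
    simp [Fin.sum_univ_three, Fin.sum_univ_four]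
    try ring
  have f121 : A 0 1 + A 0 2 + A 2 1 + B 0 1 + D 2 1 + D 3 1 = 0 := by
    refine Eq.trans ?_ (h1 1 2 1)
    simp [Fin.sum_univ_three, Fin.sum_univ_four]
    try ring
  have f122 : A 0 1 + A 0 2 + A 1 1 + B 0 2 + D 2 2 + D 3 2 = 0 := by
    refine Eq.trans ?_ (h1 1 2 2)
    simp [Fin.sum_univ_three, Fin.sum_univ_four]
    try ring
  have f220 : -2 * A 2 2 + B 0 0 + B 1 0 + B 2 0 + D 2 0 + D 3 0 = 0 := by
    refine Eq.trans ?_ (h1 2 2 0)
    simp [Fin.sum_univ_three, Fin.sum_univ_four]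
    try ring
  have f221 : 2 * A 0 2 + 2 * A 2 2 + B 0 1 + B 1 1 + B 2 1 + D 2 1 + D 3 1 = 0 := by
    refine Eq.trans ?_ (h1 2 2 1)
    simp [Fin.sum_univ_three, Fin.sum_univ_four]
    try ring
  have f222 : 2 * A 0 2 + 2 * A 1 2 + B 0 2 + B 1 2 + B 2 2 + D 2 2 + D 3 2 = 0 := by
    refine Eq.trans ?_ (h1 2 2 2)
    simp [Fin.sum_univ_three, Fin.sum_univ_four]
    try ring
  have g000 : A 2 0 + E 0 0 + E 2 0 + E 3 0 = 0 := by
    refine Eq.trans ?_ (h2 0 0 0)
    simp [Fin.sum_univ_three, Fin.sum_univ_four]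
    try ring
  have g001 : -A 2 0 = 0 := by
    refine Eq.trans ?_ (h2 0 0 1)
    simp [Fin.sum_univ_three, Fin.sum_univ_four]
    try ring
  have g002 : -B 1 0 + E 2 0 = 0 := by
    refine Eq.trans ?_ (h2 0 0 2)
    simp [Fin.sum_univ_three, Fin.sum_univ_four]
    try ring
  have g011 : A 0 0 + A 2 0 + E 1 0 = 0 := by
    refine Eq.trans ?_ (h2 0 1 1)
    simp [Fin.sum_univ_three, Fin.sum_univ_four]
    try ring
  have g012 : A 0 0 - B 1 1 = 0 := by
    refine Eq.trans ?_ (h2 0 1 2)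
    simp [Fin.sum_univ_three, Fin.sum_univ_four]
    try ring
  have g022 : A 0 0 + A 1 0 - 2 * B 1 2 + E 2 0 = 0 := by
    refine Eq.trans ?_ (h2 0 2 2)
    simp [Fin.sum_univ_three, Fin.sum_univ_four]
    try ring
  have g100 : A 2 1 + E 0 1 + E 2 1 + E 3 1 = 0 := by
    refine Eq.trans ?_ (h2 1 0 0)
    simp [Fin.sum_univ_three, Fin.sum_univ_four]
    try ring
  have g101 : -A 2 1 + B 0 0 = 0 := by
    refine Eq.trans ?_ (h2 1 0 1)
    simp [Fin.sum_univ_three, Fin.sum_univ_four]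
    try ring
  have g102 : B 0 0 + E 2 1 = 0 := by
    refine Eq.trans ?_ (h2 1 0 2)
    simp [Fin.sum_univ_three, Fin.sum_univ_four]
    try ring
  have g111 : A 0 1 + A 2 1 + 2 * B 0 1 + E 1 1 = 0 := by
    refine Eq.trans ?_ (h2 1 1 1)
    simp [Fin.sum_univ_three, Fin.sum_univ_four]
    try ring
  have g112 : A 0 1 + B 0 1 + B 0 2 = 0 := by
    refine Eq.trans ?_ (h2 1 1 2)
    simp [Fin.sum_univ_three, Fin.sum_univ_four]
    try ring
  have g122 : A 0 1 + A 1 1 + 2 * B 0 2 + E 2 1 = 0 := by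
    refine Eq.trans ?_ (h2 1 2 2)
    simp [Fin.sum_univ_three, Fin.sum_univ_four]
    try ring
  have g200 : A 2 2 - 2 * B 2 0 + E 0 2 + E 2 2 + E 3 2 = 0 := by
    refine Eq.trans ?_ (h2 2 0 0)
    simp [Fin.sum_univ_three, Fin.sum_univ_four]
    try ring
  have g201 : -A 2 2 + B 0 0 + B 2 0 - B 2 1 = 0 := by
    refine Eq.trans ?_ (h2 2 0 1)
    simp [Fin.sum_univ_three, Fin.sum_univ_four]
    try ring
  have g202 : B 0 0 + B 1 0 - B 2 2 + E 2 2 = 0 := by
    refine Eq.trans ?_ (h2 2 0 2)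
    simp [Fin.sum_univ_three, Fin.sum_univ_four]
    try ring
  have g211 : A 0 2 + A 2 2 + 2 * B 0 1 + 2 * B 2 1 + E 1 2 = 0 := by
    refine Eq.trans ?_ (h2 2 1 1)
    simp [Fin.sum_univ_three, Fin.sum_univ_four]
    try ring
  have g212 : A 0 2 + B 0 1 + B 0 2 + B 1 1 + B 2 2 = 0 := by
    refine Eq.trans ?_ (h2 2 1 2)
    simp [Fin.sum_univ_three, Fin.sum_univ_four]
    try ring
  have g222 : A 0 2 + A 1 2 + 2 * B 0 2 + 2 * B 1 2 + E 2 2 = 0 := by
    refine Eq.trans ?_ (h2 2 2 2)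
    simp [Fin.sum_univ_three, Fin.sum_univ_four]
    try ring
  have k000 : -D 1 0 - E 0 0 - E 2 0 = 0 := by
    refine Eq.trans ?_ (h3 0 0 0)
    simp [Fin.sum_univ_three, Fin.sum_univ_four]
    try ring
  have k010 : -D 1 1 = 0 := by
    refine Eq.trans ?_ (h3 0 1 0)
    simp [Fin.sum_univ_three, Fin.sum_univ_four]
    try ring
  have k020 : -C 1 0 - D 1 2 - E 2 0 = 0 := by
    refine Eq.trans ?_ (h3 0 2 0)
    simp [Fin.sum_univ_three, Fin.sum_univ_four]
    try ring
  have k100 : -E 0 1 - E 2 1 = 0 := by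
    refine Eq.trans ?_ (h3 1 0 0)
    simp [Fin.sum_univ_three, Fin.sum_univ_four]
    try ring
  have k110 : C 0 0 = 0 := by
    refine Eq.trans ?_ (h3 1 1 0)
    simp [Fin.sum_univ_three, Fin.sum_univ_four]
    try ring
  have k120 : C 0 0 - E 2 1 = 0 := by
    refine Eq.trans ?_ (h3 1 2 0)
    simp [Fin.sum_univ_three, Fin.sum_univ_four]
    try ring
  have k200 : -C 2 0 - E 0 2 - E 2 2 = 0 := by
    refine Eq.trans ?_ (h3 2 0 0)
    simp [Fin.sum_univ_three, Fin.sum_univ_four]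
    try ring
  have k210 : C 0 0 + C 2 0 = 0 := by
    refine Eq.trans ?_ (h3 2 1 0)
    simp [Fin.sum_univ_three, Fin.sum_univ_four]
    try ring
  have k220 : C 0 0 + C 1 0 - E 2 2 = 0 := by
    refine Eq.trans ?_ (h3 2 2 0)
    simp [Fin.sum_univ_three, Fin.sum_univ_four]
    try ring
  have zA00 : A 0 0 = 0 := by
    linear_combination f011 - f021 - g001 + g012
  have zA01 : A 0 1 = 0 := by
    linear_combination -(2 / 3) * f002 + (1 / 3) * f011 + f012 - (1 / 3) * f021 - f022 + f122 - (1 / 3) * f222 - (1 / 3) * g001 - (1 / 3) * g002 + (1 / 3) * g012 - (1 / 3) * g022 + (1 / 3) * g102 - (1 / 3) * g202 - (1 / 3) * g222 - (2 / 3) * k020 + (1 / 3) * k110 + (1 / 3) * k120 - (2 / 3) * k220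
  have zA02 : A 0 2 = 0 := by
    linear_combination -f001 + (1 / 3) * f002 + (1 / 3) * f011 - (1 / 3) * f021 + f121 - (1 / 3) * f222 - (1 / 3) * g001 - (1 / 3) * g002 - (2 / 3) * g012 + (2 / 3) * g022 + g101 - (2 / 3) * g102 - g112 - (1 / 3) * g202 + (2 / 3) * g222 - k010 + (1 / 3) * k020 + (1 / 3) * k110 - (2 / 3) * k120 + (1 / 3) * k220
  have zA10 : A 1 0 = 0 := by
    linear_combination (1 / 3) * f010 + (1 / 3) * f011 - (2 / 3) * f012 - (1 / 3) * f020 - (1 / 3) * f021 + (2 / 3) * f022 - (1 / 3) * g002 - (1 / 3) * g012 + (1 / 3) * g022 + (2 / 3) * g102 + (2 / 3) * g112 - (2 / 3) * g122 - (2 / 3) * g202 - (2 / 3) * g212 + (2 / 3) * g222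
  have zA11 : A 1 1 = 0 := by
    linear_combination f011 - f012 - f021 + f022 - f122 + f222 - g001 + g002 + g012 - g022 - g102 + g122 + g202 - g222
  have zA12 : A 1 2 = 0 := by
    linear_combination -(1 / 3) * f010 + (2 / 3) * f011 - (1 / 3) * f012 + (1 / 3) * f020 - (2 / 3) * f021 + (1 / 3) * f022 - f122 + f222 - g001 + (1 / 3) * g002 + (1 / 3) * g012 - (1 / 3) * g022 - (2 / 3) * g102 + (1 / 3) * g112 + (2 / 3) * g122 + (2 / 3) * g202 - (1 / 3) * g212 - (2 / 3) * g222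
  have zA20 : A 2 0 = 0 := by
    linear_combination -g001
  have zA21 : A 2 1 = 0 := by
    linear_combination -g101 + g102 - k110 + k120
  have zA22 : A 2 2 = 0 := by
    linear_combination (1 / 3) * f001 - (1 / 3) * f002 + (1 / 3) * f010 - (1 / 3) * f011 + (1 / 3) * f012 - (1 / 3) * f020 + (1 / 3) * f021 - (1 / 3) * f022 + (1 / 3) * f120 - (2 / 3) * f121 + (1 / 3) * f122 - (1 / 3) * f220 + (1 / 3) * f221 + (2 / 3) * g001 + (1 / 3) * g012 - (1 / 3) * g022 - g101 + (2 / 3) * g102 + (1 / 3) * g112 + (1 / 3) * g201 - (1 / 3) * g222 + (1 / 3) * k010 - (1 / 3) * k020 - (1 / 3) * k110 + (2 / 3) * k120 - (1 / 3) * k220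
  have zB00 : B 0 0 = 0 := by
    linear_combination g102 - k110 + k120
  have zB01 : B 0 1 = 0 := by
    linear_combination (1 / 3) * f002 + (1 / 3) * f011 - f012 - (1 / 3) * f021 + f022 - f122 + (2 / 3) * f222 - (1 / 3) * g001 + (2 / 3) * g002 + (1 / 3) * g012 - (1 / 3) * g022 - (2 / 3) * g102 + g112 + (2 / 3) * g202 - (1 / 3) * g222 + (1 / 3) * k020 + (1 / 3) * k110 - (2 / 3) * k120 + (1 / 3) * k220
  have zB02 : B 0 2 = 0 := by
    linear_combination (1 / 3) * f002 - (2 / 3) * f011 + (2 / 3) * f021 - (1 / 3) * f222 + (2 / 3) * g001 - (1 / 3) * g002 - (2 / 3) * g012 + (2 / 3) * g022 + (1 / 3) * g102 - (1 / 3) * g202 + (2 / 3) * g222 + (1 / 3) * k020 - (2 / 3) * k110 + (1 / 3) * k120 + (1 / 3) * k220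
  have zB10 : B 1 0 = 0 := by
    linear_combination f010 - f020 + g001
  have zB11 : B 1 1 = 0 := by
    linear_combination f011 - f021 - g001
  have zB12 : B 1 2 = 0 := by
    linear_combination (2 / 3) * f010 + (2 / 3) * f011 - (1 / 3) * f012 - (2 / 3) * f020 - (2 / 3) * f021 + (1 / 3) * f022 + (1 / 3) * g002 + (1 / 3) * g012 - (1 / 3) * g022 + (1 / 3) * g102 + (1 / 3) * g112 - (1 / 3) * g122 - (1 / 3) * g202 - (1 / 3) * g212 + (1 / 3) * g222
  have zB20 : B 2 0 = 0 := by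
    linear_combination (2 / 3) * f001 - (2 / 3) * f002 - (1 / 3) * f010 - (2 / 3) * f011 + (2 / 3) * f012 + (1 / 3) * f020 + (2 / 3) * f021 - (2 / 3) * f022 - (1 / 3) * f120 - (4 / 3) * f121 + (2 / 3) * f122 + (1 / 3) * f220 + (2 / 3) * f221 + (1 / 3) * g001 + (2 / 3) * g012 - (2 / 3) * g022 - g101 + (1 / 3) * g102 + (2 / 3) * g112 + (2 / 3) * g201 - (2 / 3) * g222 + (2 / 3) * k010 - (2 / 3) * k020 + (1 / 3) * k110 + (1 / 3) * k120 - (2 / 3) * k220
  have zB21 : B 2 1 = 0 := by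
    linear_combination (1 / 3) * f001 - (1 / 3) * f002 - (2 / 3) * f010 - (1 / 3) * f011 + (1 / 3) * f012 + (2 / 3) * f020 + (1 / 3) * f021 - (1 / 3) * f022 - (2 / 3) * f120 - (2 / 3) * f121 + (1 / 3) * f122 + (2 / 3) * f220 + (1 / 3) * f221 - (1 / 3) * g001 + (1 / 3) * g012 - (1 / 3) * g022 + (2 / 3) * g102 + (1 / 3) * g112 - (2 / 3) * g201 - (1 / 3) * g222 + (1 / 3) * k010 - (1 / 3) * k020 - (1 / 3) * k110 + (2 / 3) * k120 - (1 / 3) * k220
  have zB22 : B 2 2 = 0 := by
    linear_combination f001 - f002 - f011 + f012 + f021 - f022 - f121 + f122 + g001 + g012 - g022 - g101 + g102 + g212 - g222 + k010 - k020 + k120 - k220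
  have zC00 : C 0 0 = 0 := by
    linear_combination k110
  have zC10 : C 1 0 = 0 := by
    linear_combination f001 - f002 - f010 - f011 + f012 + f020 + f021 - f022 - f121 + f122 + g012 - g022 - g101 + g202 + g212 - g222 + k010 - k020
  have zC20 : C 2 0 = 0 := by
    linear_combination -k110 + k210
  have zD00 : D 0 0 = 0 := by
    linear_combination f110 - f120 + g101 - g102 + k110 - k120
  have zD01 : D 0 1 = 0 := by
    linear_combination -f001 + f002 - f012 + f022 + f111 - f122 - g012 + g022 - g112 + g222 - k010 + k020 - k110 + k220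
  have zD02 : D 0 2 = 0 := by
    linear_combination -f001 + f002 + f011 - 2 * f012 - f021 + 2 * f022 + f112 + f121 - 3 * f122 + f222 - g001 + g002 + g101 - 2 * g102 - g112 + g122 + g202 - k010 + k020 - k120 + k220
  have zD10 : D 1 0 = 0 := by
    linear_combination f000 - f010 + f020 - f120 - g001 + g101
  have zD11 : D 1 1 = 0 := by
    linear_combination -k010
  have zD12 : D 1 2 = 0 := by
    linear_combination -f001 + f002 + f011 - f012 - f021 + f022 + f121 - f122 - g001 - g002 - g012 + g022 + g101 - g202 - g212 + g222 - k010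
  have zD20 : D 2 0 = 0 := by
    linear_combination -(1 / 2) * f010 + (1 / 2) * f120 - (1 / 2) * g101
  have zD21 : D 2 1 = 0 := by
    linear_combination (1 / 2) * f001 - (1 / 2) * f011 + (1 / 2) * g012 + (1 / 2) * k010
  have zD22 : D 2 2 = 0 := by
    linear_combination (1 / 2) * f001 - (1 / 2) * f011 + (1 / 2) * f021 - (1 / 2) * f022 - (1 / 2) * f121 + f122 - (1 / 2) * f222 + (1 / 2) * g001 - (1 / 2) * g002 + (1 / 2) * g022 - (1 / 2) * g101 + g102 + (1 / 2) * g112 - g122 - (1 / 2) * g202 + (1 / 2) * g222 + (1 / 2) * k010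
  have zD30 : D 3 0 = 0 := by
    linear_combination (1 / 2) * f010 + (1 / 2) * f120 - (1 / 2) * g101
  have zD31 : D 3 1 = 0 := by
    linear_combination (1 / 2) * f001 - (1 / 2) * f011 + f021 + g001 - (1 / 2) * g012 + (1 / 2) * k010
  have zD32 : D 3 2 = 0 := by
    linear_combination (1 / 2) * f001 - (1 / 2) * f011 + (1 / 2) * f021 + (1 / 2) * f022 - (1 / 2) * f121 + (1 / 2) * f222 + (1 / 2) * g001 + (1 / 2) * g002 - (1 / 2) * g022 - (1 / 2) * g101 + (1 / 2) * g112 + (1 / 2) * g202 - (1 / 2) * g222 + (1 / 2) * k010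
  have zE00 : E 0 0 = 0 := by
    linear_combination -f000 + f120 - g002 - g101 - k000
  have zE01 : E 0 1 = 0 := by
    linear_combination -k100 - k110 + k120
  have zE02 : E 0 2 = 0 := by
    linear_combination -f001 + f002 + f010 + f011 - f012 - f020 - f021 + f022 + f121 - f122 - g012 + g022 + g101 - g202 - g212 + g222 - k010 + k020 - k200 - k210 + k220
  have zE10 : E 1 0 = 0 := by
    linear_combination -f011 + f021 + 2 * g001 + g011 - g012
  have zE11 : E 1 1 = 0 := by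
    linear_combination -f011 + f012 + f021 - f022 + f122 - f222 + g001 - g002 - g012 + g022 + g101 + g111 - 2 * g112 - g202 + g222
  have zE12 : E 1 2 = 0 := by
    linear_combination f010 + f012 - f020 - f022 + f120 + f121 + f122 - f220 - f221 - f222 + g001 - g002 - g012 + g022 - 2 * g112 + g201 - g202 + g211 + g222
  have zE20 : E 2 0 = 0 := by
    linear_combination f010 - f020 + g001 + g002
  have zE21 : E 2 1 = 0 := by
    linear_combination k110 - k120
  have zE22 : E 2 2 = 0 := by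
    linear_combination f001 - f002 - f010 - f011 + f012 + f020 + f021 - f022 - f121 + f122 + g012 - g022 - g101 + g202 + g212 - g222 + k010 - k020 + k110 - k220
  have zE30 : E 3 0 = 0 := by
    linear_combination f000 - f010 + f020 - f120 + g000 + g101 + k000
  have zE31 : E 3 1 = 0 := by
    linear_combination g100 + g101 - g102 + k100 + k110 - k120
  have zE32 : E 3 2 = 0 := by
    linear_combination f001 - f002 - f010 - f011 + f012 + f020 + f021 - f022 - f120 - 2 * f121 + f122 + f220 + f221 + g012 - g022 - g101 + g112 + g200 + g201 - g222 + k010 - k020 + k200 + k210 - k220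
  clear f000 f001 f002 f010 f011 f012 f020 f021 f022 f110 f111 f112 f120 f121 f122 f220 f221 f222 g000 g001 g002 g011 g012 g022 g100 g101 g102 g111 g112 g122 g200 g201 g202 g211 g212 g222 k000 k010 k020 k100 k110 k120 k200 k210 k220
  refine ⟨fun t u => ?_, fun t u => ?_, fun t l => ?_, fun i u => ?_, fun i u => ?_⟩
  · fin_cases t <;> fin_cases u <;> assumption
  · fin_cases t <;> fin_cases u <;> assumption
  · fin_cases t <;> fin_cases l <;> assumption
  · fin_cases i <;> fin_cases u <;> assumption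
  · fin_cases i <;> fin_cases u <;> assumption

end Pool.Agent.WarM.CubAH
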