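import Pool.Agent.WarM.CubG

/-!
# Independent double points in degree three: the system for two blocks, `e = 2`   (helper27)
-/

set_option autoImplicit false

namespace Pool.Agent.WarM.CubAH

theorem chk32 : Chk3 2 5 := by
  refine ⟨![![0, 1, 0], ![0, 1, -1], ![-1, -1, 0]],
    ![![0, -1, -1], ![-1, -1, -1], ![0, 1, -1]],
    fun i => Sum.elim (![![0, 0, 1], ![0, 0, 1], ![-1, 0, 0], ![1, 0, 1], ![1, 0, 0]] i) (![![-1, 1], ![1, 1], ![-1, -1], ![1, 1], ![1, 0]] i),
    fun i => Sum.elim (![![-1, 0, 0], ![0, 1, 0], ![0, 0, -1], ![1, 1, 0], ![1, 0, 1]] i) (![![0, 0], ![0, 0], ![0, 0], ![0, 0], ![0, 0]] i), ?_⟩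
  intro A B C D E h
  obtain ⟨h1, h2, h3⟩ := h
  have f000 : B 2 0 + D 2 0 + D 3 0 + D 4 0 = 0 := by
    refine Eq.trans ?_ (h1 0 0 0)
    simp [Fin.sum_univ_three, Fin.sum_univ_five]
    try ring
  have f001 : -2 * A 2 0 + B 2 1 + D 2 1 + D 3 1 + D 4 1 = 0 := by
    refine Eq.trans ?_ (h1 0 0 1)
    simp [Fin.sum_univ_three, Fin.sum_univ_five]
    try ring
  have f002 : 2 * A 2 0 + B 2 2 + D 2 2 + D 3 2 + D 4 2 = 0 := by
    refine Eq.trans ?_ (h1 0 0 2)
    simp [Fin.sum_univ_three, Fin.sum_univ_five]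
    try ring
  have f010 : -A 1 0 + B 2 0 = 0 := by
    refine Eq.trans ?_ (h1 0 1 0)
    simp [Fin.sum_univ_three, Fin.sum_univ_five]
    try ring
  have f011 : -A 0 0 - A 1 0 - A 2 0 - A 2 1 + B 2 1 = 0 := by
    refine Eq.trans ?_ (h1 0 1 1)
    simp [Fin.sum_univ_three, Fin.sum_univ_five]
    try ring
  have f012 : -A 0 0 - A 1 0 + A 2 0 + A 2 1 + B 2 2 = 0 := by
    refine Eq.trans ?_ (h1 0 1 2)
    simp [Fin.sum_univ_three, Fin.sum_univ_five]
    try ring
  have f020 : A 1 0 + D 3 0 = 0 := by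
    refine Eq.trans ?_ (h1 0 2 0)
    simp [Fin.sum_univ_three, Fin.sum_univ_five]
    try ring
  have f021 : A 1 0 - A 2 2 + D 3 1 = 0 := by
    refine Eq.trans ?_ (h1 0 2 1)
    simp [Fin.sum_univ_three, Fin.sum_univ_five]
    try ring
  have f022 : A 1 0 + A 2 2 + D 3 2 = 0 := by
    refine Eq.trans ?_ (h1 0 2 2)
    simp [Fin.sum_univ_three, Fin.sum_univ_five]
    try ring
  have f110 : -2 * A 1 1 + B 0 0 + B 1 0 + B 2 0 = 0 := by
    refine Eq.trans ?_ (h1 1 1 0)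
    simp [Fin.sum_univ_three, Fin.sum_univ_five]
    try ring
  have f111 : -2 * A 0 1 - 2 * A 1 1 - 2 * A 2 1 + B 0 1 + B 1 1 + B 2 1 = 0 := by
    refine Eq.trans ?_ (h1 1 1 1)
    simp [Fin.sum_univ_three, Fin.sum_univ_five]
    try ring
  have f112 : -2 * A 0 1 - 2 * A 1 1 + 2 * A 2 1 + B 0 2 + B 1 2 + B 2 2 = 0 := by
    refine Eq.trans ?_ (h1 1 1 2)
    simp [Fin.sum_univ_three, Fin.sum_univ_five]
    try ring
  have f120 : A 1 1 - A 1 2 - B 1 0 = 0 := by
    refine Eq.trans ?_ (h1 1 2 0)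
    simp [Fin.sum_univ_three, Fin.sum_univ_five]
    try ring
  have f121 : -A 0 2 + A 1 1 - A 1 2 - A 2 2 - B 1 1 = 0 := by
    refine Eq.trans ?_ (h1 1 2 1)
    simp [Fin.sum_univ_three, Fin.sum_univ_five]
    try ring
  have f122 : -A 0 2 + A 1 1 - A 1 2 + A 2 2 - B 1 2 = 0 := by
    refine Eq.trans ?_ (h1 1 2 2)
    simp [Fin.sum_univ_three, Fin.sum_univ_five]
    try ring
  have f220 : 2 * A 1 2 + B 1 0 + D 0 0 + D 1 0 + D 3 0 = 0 := by
    refine Eq.trans ?_ (h1 2 2 0)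
    simp [Fin.sum_univ_three, Fin.sum_univ_five]
    try ring
  have f221 : 2 * A 1 2 + B 1 1 + D 0 1 + D 1 1 + D 3 1 = 0 := by
    refine Eq.trans ?_ (h1 2 2 1)
    simp [Fin.sum_univ_three, Fin.sum_univ_five]
    try ring
  have f222 : 2 * A 1 2 + B 1 2 + D 0 2 + D 1 2 + D 3 2 = 0 := by
    refine Eq.trans ?_ (h1 2 2 2)
    simp [Fin.sum_univ_three, Fin.sum_univ_five]
    try ring
  have g000 : A 1 0 + E 0 0 + E 3 0 + E 4 0 = 0 := by
    refine Eq.trans ?_ (h2 0 0 0)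
    simp [Fin.sum_univ_three, Fin.sum_univ_five]
    try ring
  have g001 : A 1 0 - B 2 0 + E 3 0 = 0 := by
    refine Eq.trans ?_ (h2 0 0 1)
    simp [Fin.sum_univ_three, Fin.sum_univ_five]
    try ring
  have g002 : A 1 0 + B 2 0 + E 4 0 = 0 := by
    refine Eq.trans ?_ (h2 0 0 2)
    simp [Fin.sum_univ_three, Fin.sum_univ_five]
    try ring
  have g011 : A 0 0 + A 1 0 + A 2 0 - 2 * B 2 1 + E 1 0 + E 3 0 = 0 := by
    refine Eq.trans ?_ (h2 0 1 1)
    simp [Fin.sum_univ_three, Fin.sum_univ_five]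
    try ring
  have g012 : A 0 0 + A 1 0 - A 2 0 + B 2 1 - B 2 2 = 0 := by
    refine Eq.trans ?_ (h2 0 1 2)
    simp [Fin.sum_univ_three, Fin.sum_univ_five]
    try ring
  have g022 : A 0 0 + A 1 0 + A 2 0 + 2 * B 2 2 + E 2 0 + E 4 0 = 0 := by
    refine Eq.trans ?_ (h2 0 2 2)
    simp [Fin.sum_univ_three, Fin.sum_univ_five]
    try ring
  have g100 : A 1 1 - 2 * B 1 0 + E 0 1 + E 3 1 + E 4 1 = 0 := by
    refine Eq.trans ?_ (h2 1 0 0)
    simp [Fin.sum_univ_three, Fin.sum_univ_five]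
    try ring
  have g101 : A 1 1 - B 0 0 - B 1 0 - B 1 1 - B 2 0 + E 3 1 = 0 := by
    refine Eq.trans ?_ (h2 1 0 1)
    simp [Fin.sum_univ_three, Fin.sum_univ_five]
    try ring
  have g102 : A 1 1 - B 0 0 - B 1 0 - B 1 2 + B 2 0 + E 4 1 = 0 := by
    refine Eq.trans ?_ (h2 1 0 2)
    simp [Fin.sum_univ_three, Fin.sum_univ_five]
    try ring
  have g111 : A 0 1 + A 1 1 + A 2 1 - 2 * B 0 1 - 2 * B 1 1 - 2 * B 2 1 + E 1 1 + E 3 1 = 0 := by
    refine Eq.trans ?_ (h2 1 1 1)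
    simp [Fin.sum_univ_three, Fin.sum_univ_five]
    try ring
  have g112 : A 0 1 + A 1 1 - A 2 1 - B 0 1 - B 0 2 - B 1 1 - B 1 2 + B 2 1 - B 2 2 = 0 := by
    refine Eq.trans ?_ (h2 1 1 2)
    simp [Fin.sum_univ_three, Fin.sum_univ_five]
    try ring
  have g122 : A 0 1 + A 1 1 + A 2 1 - 2 * B 0 2 - 2 * B 1 2 + 2 * B 2 2 + E 2 1 + E 4 1 = 0 := by
    refine Eq.trans ?_ (h2 1 2 2)
    simp [Fin.sum_univ_three, Fin.sum_univ_five]
    try ring
  have g200 : A 1 2 + 2 * B 1 0 + E 0 2 + E 3 2 + E 4 2 = 0 := by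
    refine Eq.trans ?_ (h2 2 0 0)
    simp [Fin.sum_univ_three, Fin.sum_univ_five]
    try ring
  have g201 : A 1 2 + B 1 0 + B 1 1 + E 3 2 = 0 := by
    refine Eq.trans ?_ (h2 2 0 1)
    simp [Fin.sum_univ_three, Fin.sum_univ_five]
    try ring
  have g202 : A 1 2 + B 1 0 + B 1 2 + E 4 2 = 0 := by
    refine Eq.trans ?_ (h2 2 0 2)
    simp [Fin.sum_univ_three, Fin.sum_univ_five]
    try ring
  have g211 : A 0 2 + A 1 2 + A 2 2 + 2 * B 1 1 + E 1 2 + E 3 2 = 0 := by
    refine Eq.trans ?_ (h2 2 1 1)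
    simp [Fin.sum_univ_three, Fin.sum_univ_five]
    try ring
  have g212 : A 0 2 + A 1 2 - A 2 2 + B 1 1 + B 1 2 = 0 := by
    refine Eq.trans ?_ (h2 2 1 2)
    simp [Fin.sum_univ_three, Fin.sum_univ_five]
    try ring
  have g222 : A 0 2 + A 1 2 + A 2 2 + 2 * B 1 2 + E 2 2 + E 4 2 = 0 := by
    refine Eq.trans ?_ (h2 2 2 2)
    simp [Fin.sum_univ_three, Fin.sum_univ_five]
    try ring
  have k000 : D 2 0 + D 3 0 + D 4 0 = 0 := by
    refine Eq.trans ?_ (h3 0 0 0)
    simp [Fin.sum_univ_three, Fin.sum_univ_five]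
    try ring
  have k001 : D 2 0 + D 3 0 = 0 := by
    refine Eq.trans ?_ (h3 0 0 1)
    simp [Fin.sum_univ_three, Fin.sum_univ_five]
    try ring
  have k010 : -C 2 0 + D 2 1 + D 3 1 + D 4 1 = 0 := by
    refine Eq.trans ?_ (h3 0 1 0)
    simp [Fin.sum_univ_three, Fin.sum_univ_five]
    try ring
  have k011 : -C 2 1 + D 2 1 + D 3 1 = 0 := by
    refine Eq.trans ?_ (h3 0 1 1)
    simp [Fin.sum_univ_three, Fin.sum_univ_five]
    try ring
  have k020 : C 2 0 + D 2 2 + D 3 2 + D 4 2 = 0 := by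
    refine Eq.trans ?_ (h3 0 2 0)
    simp [Fin.sum_univ_three, Fin.sum_univ_five]
    try ring
  have k021 : C 2 1 + D 2 2 + D 3 2 = 0 := by
    refine Eq.trans ?_ (h3 0 2 1)
    simp [Fin.sum_univ_three, Fin.sum_univ_five]
    try ring
  have k100 : -C 1 0 = 0 := by
    refine Eq.trans ?_ (h3 1 0 0)
    simp [Fin.sum_univ_three, Fin.sum_univ_five]
    try ring
  have k101 : -C 1 1 = 0 := by
    refine Eq.trans ?_ (h3 1 0 1)
    simp [Fin.sum_univ_three, Fin.sum_univ_five]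
    try ring
  have k110 : -C 0 0 - C 1 0 - C 2 0 = 0 := by
    refine Eq.trans ?_ (h3 1 1 0)
    simp [Fin.sum_univ_three, Fin.sum_univ_five]
    try ring
  have k111 : -C 0 1 - C 1 1 - C 2 1 = 0 := by
    refine Eq.trans ?_ (h3 1 1 1)
    simp [Fin.sum_univ_three, Fin.sum_univ_five]
    try ring
  have k120 : -C 0 0 - C 1 0 + C 2 0 = 0 := by
    refine Eq.trans ?_ (h3 1 2 0)
    simp [Fin.sum_univ_three, Fin.sum_univ_five]
    try ring
  have k121 : -C 0 1 - C 1 1 + C 2 1 = 0 := by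
    refine Eq.trans ?_ (h3 1 2 1)
    simp [Fin.sum_univ_three, Fin.sum_univ_five]
    try ring
  have k200 : C 1 0 - D 0 0 + D 1 0 + D 3 0 = 0 := by
    refine Eq.trans ?_ (h3 2 0 0)
    simp [Fin.sum_univ_three, Fin.sum_univ_five]
    try ring
  have k201 : C 1 1 + D 0 0 + D 1 0 + D 3 0 = 0 := by
    refine Eq.trans ?_ (h3 2 0 1)
    simp [Fin.sum_univ_three, Fin.sum_univ_five]
    try ring
  have k210 : C 1 0 - D 0 1 + D 1 1 + D 3 1 = 0 := by
    refine Eq.trans ?_ (h3 2 1 0)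
    simp [Fin.sum_univ_three, Fin.sum_univ_five]
    try ring
  have k211 : C 1 1 + D 0 1 + D 1 1 + D 3 1 = 0 := by
    refine Eq.trans ?_ (h3 2 1 1)
    simp [Fin.sum_univ_three, Fin.sum_univ_five]
    try ring
  have k220 : C 1 0 - D 0 2 + D 1 2 + D 3 2 = 0 := by
    refine Eq.trans ?_ (h3 2 2 0)
    simp [Fin.sum_univ_three, Fin.sum_univ_five]
    try ring
  have k221 : C 1 1 + D 0 2 + D 1 2 + D 3 2 = 0 := by
    refine Eq.trans ?_ (h3 2 2 1)
    simp [Fin.sum_univ_three, Fin.sum_univ_five]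
    try ring
  have zA00 : A 0 0 = 0 := by
    linear_combination -f000 + (1 / 2) * f001 + (1 / 2) * f002 + f010 - (1 / 2) * f011 - (1 / 2) * f012 + k000 - (1 / 2) * k010 - (1 / 2) * k020
  have zA01 : A 0 1 = 0 := by
    linear_combination (1 / 3) * f002 + (1 / 3) * f011 - (1 / 3) * f111 - (1 / 3) * f112 - (2 / 3) * f120 - (1 / 3) * f122 - (2 / 3) * f220 + (1 / 3) * f221 + (1 / 3) * g012 - (1 / 3) * g112 - (1 / 3) * g212 - (1 / 3) * k020 + (1 / 3) * k101 - (1 / 6) * k110 + (1 / 6) * k120 + (2 / 3) * k201 - (1 / 3) * k211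
  have zA02 : A 0 2 = 0 := by
    linear_combination f120 - (1 / 2) * f121 - (1 / 2) * f122 + f220 - (1 / 2) * f221 - (1 / 2) * f222 - k201 + (1 / 2) * k211 + (1 / 2) * k221
  have zA10 : A 1 0 = 0 := by
    linear_combination f000 - f010 - k000
  have zA11 : A 1 1 = 0 := by
    linear_combination (2 / 3) * f120 + (1 / 3) * f122 + (2 / 3) * f220 - (1 / 3) * f221 + (1 / 3) * g212 - (1 / 3) * k101 - (2 / 3) * k201 + (1 / 3) * k211
  have zA12 : A 1 2 = 0 := by
    linear_combination (1 / 3) * f120 - (1 / 3) * f122 + (1 / 3) * f220 + (1 / 3) * f221 - (1 / 3) * g212 - (2 / 3) * k101 - (1 / 3) * k201 - (1 / 3) * k211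
  have zA20 : A 2 0 = 0 := by
    linear_combination -(1 / 2) * f001 + (1 / 6) * f002 + (1 / 6) * f011 + (1 / 6) * f012 + (1 / 3) * g012 + (1 / 2) * k010 - (1 / 6) * k020 - (1 / 3) * k110 + (1 / 3) * k120
  have zA21 : A 2 1 = 0 := by
    linear_combination -(1 / 3) * f002 - (1 / 3) * f011 + (2 / 3) * f012 + (1 / 3) * g012 + (1 / 3) * k020 + (1 / 6) * k110 - (1 / 6) * k120
  have zA22 : A 2 2 = 0 := by
    linear_combination -(1 / 2) * f121 + (1 / 2) * f122 - (1 / 2) * f221 + (1 / 2) * f222 + (1 / 2) * k211 - (1 / 2) * k221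
  have zB00 : B 0 0 = 0 := by
    linear_combination -f000 + f110 + 2 * f120 + f220 + k000 - k101 - k201
  have zB01 : B 0 1 = 0 := by
    linear_combination -(1 / 3) * f002 - (1 / 3) * f011 + f012 + (1 / 3) * f111 - (2 / 3) * f112 + (2 / 3) * f120 - (2 / 3) * f122 + (2 / 3) * f220 - (1 / 3) * f221 + (2 / 3) * g012 - (2 / 3) * g112 - (2 / 3) * g212 + (1 / 3) * k020 - (1 / 3) * k101 + (1 / 6) * k110 - (1 / 6) * k120 - (2 / 3) * k201 + (1 / 3) * k211
  have zB02 : B 0 2 = 0 := by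
    linear_combination -f001 + (2 / 3) * f002 + (5 / 3) * f011 - f012 - (2 / 3) * f111 + (1 / 3) * f112 + (2 / 3) * f120 - (2 / 3) * f122 + (2 / 3) * f220 + (2 / 3) * f221 - f222 + (2 / 3) * g012 - (2 / 3) * g112 - (2 / 3) * g212 + k010 - (2 / 3) * k020 - (1 / 3) * k101 - (5 / 6) * k110 + (5 / 6) * k120 - (2 / 3) * k201 - (2 / 3) * k211 + k221
  have zB10 : B 1 0 = 0 := by
    linear_combination -(2 / 3) * f120 + (2 / 3) * f122 + (1 / 3) * f220 - (2 / 3) * f221 + (2 / 3) * g212 + (1 / 3) * k101 - (1 / 3) * k201 + (2 / 3) * k211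
  have zB11 : B 1 1 = 0 := by
    linear_combination -(2 / 3) * f120 + (2 / 3) * f122 - (2 / 3) * f220 + (1 / 3) * f221 + (2 / 3) * g212 + (1 / 3) * k101 + (2 / 3) * k201 - (1 / 3) * k211
  have zB12 : B 1 2 = 0 := by
    linear_combination -(2 / 3) * f120 + (2 / 3) * f122 - (2 / 3) * f220 - (2 / 3) * f221 + f222 + (2 / 3) * g212 + (1 / 3) * k101 + (2 / 3) * k201 + (2 / 3) * k211 - k221
  have zB20 : B 2 0 = 0 := by
    linear_combination f000 - k000
  have zB21 : B 2 1 = 0 := by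
    linear_combination (1 / 3) * f002 + (1 / 3) * f011 + (1 / 3) * f012 + (2 / 3) * g012 - (1 / 3) * k020 - (1 / 6) * k110 + (1 / 6) * k120
  have zB22 : B 2 2 = 0 := by
    linear_combination f001 + (2 / 3) * f002 - (1 / 3) * f011 - (1 / 3) * f012 - (2 / 3) * g012 - k010 - (2 / 3) * k020 + (1 / 6) * k110 - (1 / 6) * k120
  have zC00 : C 0 0 = 0 := by
    linear_combination k100 - (1 / 2) * k110 - (1 / 2) * k120
  have zC01 : C 0 1 = 0 := by
    linear_combination k101 - (1 / 2) * k111 - (1 / 2) * k121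
  have zC10 : C 1 0 = 0 := by
    linear_combination -k100
  have zC11 : C 1 1 = 0 := by
    linear_combination -k101
  have zC20 : C 2 0 = 0 := by
    linear_combination -(1 / 2) * k110 + (1 / 2) * k120
  have zC21 : C 2 1 = 0 := by
    linear_combination -(1 / 2) * k111 + (1 / 2) * k121
  have zD00 : D 0 0 = 0 := by
    linear_combination -(1 / 2) * k100 + (1 / 2) * k101 - (1 / 2) * k200 + (1 / 2) * k201
  have zD01 : D 0 1 = 0 := by
    linear_combination -(1 / 2) * k100 + (1 / 2) * k101 - (1 / 2) * k210 + (1 / 2) * k211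
  have zD02 : D 0 2 = 0 := by
    linear_combination -(1 / 2) * k100 + (1 / 2) * k101 - (1 / 2) * k220 + (1 / 2) * k221
  have zD10 : D 1 0 = 0 := by
    linear_combination f000 - f010 - f020 - k000 + (1 / 2) * k100 + (1 / 2) * k101 + (1 / 2) * k200 + (1 / 2) * k201
  have zD11 : D 1 1 = 0 := by
    linear_combination f000 - f010 - f021 + (1 / 2) * f121 - (1 / 2) * f122 + (1 / 2) * f221 - (1 / 2) * f222 - k000 + (1 / 2) * k100 + (1 / 2) * k101 + (1 / 2) * k210 + (1 / 2) * k221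
  have zD12 : D 1 2 = 0 := by
    linear_combination f000 - f010 - f022 - (1 / 2) * f121 + (1 / 2) * f122 - (1 / 2) * f221 + (1 / 2) * f222 - k000 + (1 / 2) * k100 + (1 / 2) * k101 + (1 / 2) * k211 + (1 / 2) * k220
  have zD20 : D 2 0 = 0 := by
    linear_combination f000 - f010 - f020 - k000 + k001
  have zD21 : D 2 1 = 0 := by
    linear_combination f000 - f010 - f021 + (1 / 2) * f121 - (1 / 2) * f122 + (1 / 2) * f221 - (1 / 2) * f222 - k000 + k011 - (1 / 2) * k111 + (1 / 2) * k121 - (1 / 2) * k211 + (1 / 2) * k221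
  have zD22 : D 2 2 = 0 := by
    linear_combination f000 - f010 - f022 - (1 / 2) * f121 + (1 / 2) * f122 - (1 / 2) * f221 + (1 / 2) * f222 - k000 + k021 + (1 / 2) * k111 - (1 / 2) * k121 + (1 / 2) * k211 - (1 / 2) * k221
  have zD30 : D 3 0 = 0 := by
    linear_combination -f000 + f010 + f020 + k000
  have zD31 : D 3 1 = 0 := by
    linear_combination -f000 + f010 + f021 - (1 / 2) * f121 + (1 / 2) * f122 - (1 / 2) * f221 + (1 / 2) * f222 + k000 + (1 / 2) * k211 - (1 / 2) * k221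
  have zD32 : D 3 2 = 0 := by
    linear_combination -f000 + f010 + f022 + (1 / 2) * f121 - (1 / 2) * f122 + (1 / 2) * f221 - (1 / 2) * f222 + k000 - (1 / 2) * k211 + (1 / 2) * k221
  have zD40 : D 4 0 = 0 := by
    linear_combination k000 - k001
  have zD41 : D 4 1 = 0 := by
    linear_combination k010 - k011 - (1 / 2) * k110 + (1 / 2) * k111 + (1 / 2) * k120 - (1 / 2) * k121
  have zD42 : D 4 2 = 0 := by
    linear_combination k020 - k021 + (1 / 2) * k110 - (1 / 2) * k111 - (1 / 2) * k120 + (1 / 2) * k121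
  have zE00 : E 0 0 = 0 := by
    linear_combination f000 - f010 + g000 - g001 - g002 - k000
  have zE01 : E 0 1 = 0 := by
    linear_combination 2 * f000 - 2 * f110 - 2 * f120 - f122 - f222 + g100 - g101 - g102 - g212 - 2 * k000 + k101 + k221
  have zE02 : E 0 2 = 0 := by
    linear_combination -f120 + f122 - f220 + f222 + g200 - g201 - g202 + g212 + k201 - k221
  have zE10 : E 1 0 = 0 := by
    linear_combination -f010 + f011 + f012 - g001 + g011 + g012
  have zE11 : E 1 1 = 0 := by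
    linear_combination 2 * f012 - f110 + f111 - f112 - f122 + 2 * g012 - g101 + g111 - g112 - g212
  have zE12 : E 1 2 = 0 := by
    linear_combination -f120 + f121 - g201 + g211
  have zE20 : E 2 0 = 0 := by
    linear_combination 2 * f000 - 2 * f001 - 2 * f002 - f010 + f011 + f012 - g002 + g012 + g022 - 2 * k000 + 2 * k010 + 2 * k020
  have zE21 : E 2 1 = 0 := by
    linear_combination 2 * f000 - 4 * f001 + 4 * f011 - 2 * f012 - f110 - f111 + f112 - f122 + f221 - f222 + 2 * g012 - g102 - g112 + g122 - g212 - 2 * k000 + 4 * k010 - 2 * k110 + 2 * k120 - k211 + k221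
  have zE22 : E 2 2 = 0 := by
    linear_combination -f120 + f121 + f221 - f222 - g202 + g222 - k211 + k221
  have zE30 : E 3 0 = 0 := by
    linear_combination f010 + g001
  have zE31 : E 3 1 = 0 := by
    linear_combination f110 + f122 + g101 + g212
  have zE32 : E 3 2 = 0 := by
    linear_combination f120 - f122 + g201 - g212
  have zE40 : E 4 0 = 0 := by
    linear_combination -2 * f000 + f010 + g002 + 2 * k000
  have zE41 : E 4 1 = 0 := by
    linear_combination -2 * f000 + f110 + f122 - f221 + f222 + g102 + g212 + 2 * k000 + k211 - k221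
  have zE42 : E 4 2 = 0 := by
    linear_combination f120 - f122 + f221 - f222 + g202 - g212 - k211 + k221
  clear f000 f001 f002 f010 f011 f012 f020 f021 f022 f110 f111 f112 f120 f121 f122 f220 f221 f222 g000 g001 g002 g011 g012 g022 g100 g101 g102 g111 g112 g122 g200 g201 g202 g211 g212 g222 k000 k001 k010 k011 k020 k021 k100 k101 k110 k111 k120 k121 k200 k201 k210 k211 k220 k221
  refine ⟨fun t u => ?_, fun t u => ?_, fun t l => ?_, fun i u => ?_, fun i u => ?_⟩
  · fin_cases t <;> fin_cases u <;> assumption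
  · fin_cases t <;> fin_cases u <;> assumption
  · fin_cases t <;> fin_cases l <;> assumption
  · fin_cases i <;> fin_cases u <;> assumption
  · fin_cases i <;> fin_cases u <;> assumption

end Pool.Agent.WarM.CubAH
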