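import Pool.Agent.WarM.CubG

/-!
# Independent double points in degree three: the system for three blocks   (helper27)
-/

set_option autoImplicit false

namespace Pool.Agent.WarM.CubAH

theorem chk4 : Chk4 := by
  refine ⟨![![0, 1, 0], ![1, 1, -1], ![1, 0, 1]],
    ![![0, 0, 1], ![0, 1, 1], ![0, 1, -1]],
    ![![1, 0, 0], ![0, 0, 1], ![0, 1, -1]],
    ![![0, 1, 1], ![0, 1, 0], ![0, 1, -1]],
    ![![1, 0, 1], ![0, 1, 0], ![1, -1, 0]],
    ![![1, 0, 0], ![1, 0, 0], ![1, 0, -1]], ?_⟩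
  intro X Y Z h
  have e000 : Z 0 0 + Z 2 0 = 0 := by
    refine Eq.trans ?_ (h 0 0 0)
    simp [Fin.sum_univ_three]
    try ring
  have e001 : Y 0 0 = 0 := by
    refine Eq.trans ?_ (h 0 0 1)
    simp [Fin.sum_univ_three]
    try ring
  have e002 : Y 0 0 - Z 2 0 = 0 := by
    refine Eq.trans ?_ (h 0 0 2)
    simp [Fin.sum_univ_three]
    try ring
  have e010 : X 1 0 + X 2 0 + Z 1 0 - Z 2 0 = 0 := by
    refine Eq.trans ?_ (h 0 1 0)
    simp [Fin.sum_univ_three]
    try ring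
  have e011 : X 1 1 + X 2 1 + Y 0 1 = 0 := by
    refine Eq.trans ?_ (h 0 1 1)
    simp [Fin.sum_univ_three]
    try ring
  have e012 : X 1 2 + X 2 2 + Y 0 1 + Z 2 0 = 0 := by
    refine Eq.trans ?_ (h 0 1 2)
    simp [Fin.sum_univ_three]
    try ring
  have e020 : X 1 0 - X 2 0 + Z 0 0 = 0 := by
    refine Eq.trans ?_ (h 0 2 0)
    simp [Fin.sum_univ_three]
    try ring
  have e021 : X 1 1 - X 2 1 + Y 0 2 = 0 := by
    refine Eq.trans ?_ (h 0 2 1)
    simp [Fin.sum_univ_three]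
    try ring
  have e022 : X 1 2 - X 2 2 + Y 0 2 = 0 := by
    refine Eq.trans ?_ (h 0 2 2)
    simp [Fin.sum_univ_three]
    try ring
  have e100 : Z 0 1 + Z 2 1 = 0 := by
    refine Eq.trans ?_ (h 1 0 0)
    simp [Fin.sum_univ_three]
    try ring
  have e101 : Y 2 0 = 0 := by
    refine Eq.trans ?_ (h 1 0 1)
    simp [Fin.sum_univ_three]
    try ring
  have e102 : -Y 2 0 - Z 2 1 = 0 := by
    refine Eq.trans ?_ (h 1 0 2)
    simp [Fin.sum_univ_three]
    try ring
  have e110 : X 1 0 + Z 1 1 - Z 2 1 = 0 := by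
    refine Eq.trans ?_ (h 1 1 0)
    simp [Fin.sum_univ_three]
    try ring
  have e111 : X 1 1 + Y 2 1 = 0 := by
    refine Eq.trans ?_ (h 1 1 1)
    simp [Fin.sum_univ_three]
    try ring
  have e112 : X 1 2 - Y 2 1 + Z 2 1 = 0 := by
    refine Eq.trans ?_ (h 1 1 2)
    simp [Fin.sum_univ_three]
    try ring
  have e120 : X 0 0 + X 1 0 + Z 0 1 = 0 := by
    refine Eq.trans ?_ (h 1 2 0)
    simp [Fin.sum_univ_three]
    try ring
  have e121 : X 0 1 + X 1 1 + Y 2 2 = 0 := by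
    refine Eq.trans ?_ (h 1 2 1)
    simp [Fin.sum_univ_three]
    try ring
  have e122 : X 0 2 + X 1 2 - Y 2 2 = 0 := by
    refine Eq.trans ?_ (h 1 2 2)
    simp [Fin.sum_univ_three]
    try ring
  have e200 : Z 0 2 + Z 2 2 = 0 := by
    refine Eq.trans ?_ (h 2 0 0)
    simp [Fin.sum_univ_three]
    try ring
  have e201 : Y 1 0 - Y 2 0 = 0 := by
    refine Eq.trans ?_ (h 2 0 1)
    simp [Fin.sum_univ_three]
    try ring
  have e202 : Y 2 0 - Z 2 2 = 0 := by
    refine Eq.trans ?_ (h 2 0 2)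
    simp [Fin.sum_univ_three]
    try ring
  have e210 : -X 1 0 + X 2 0 + Z 1 2 - Z 2 2 = 0 := by
    refine Eq.trans ?_ (h 2 1 0)
    simp [Fin.sum_univ_three]
    try ring
  have e211 : -X 1 1 + X 2 1 + Y 1 1 - Y 2 1 = 0 := by
    refine Eq.trans ?_ (h 2 1 1)
    simp [Fin.sum_univ_three]
    try ring
  have e212 : -X 1 2 + X 2 2 + Y 2 1 + Z 2 2 = 0 := by
    refine Eq.trans ?_ (h 2 1 2)
    simp [Fin.sum_univ_three]
    try ring
  have e220 : -X 1 0 - X 2 0 + Z 0 2 = 0 := by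
    refine Eq.trans ?_ (h 2 2 0)
    simp [Fin.sum_univ_three]
    try ring
  have e221 : -X 1 1 - X 2 1 + Y 1 2 - Y 2 2 = 0 := by
    refine Eq.trans ?_ (h 2 2 1)
    simp [Fin.sum_univ_three]
    try ring
  have e222 : -X 1 2 - X 2 2 + Y 2 2 = 0 := by
    refine Eq.trans ?_ (h 2 2 2)
    simp [Fin.sum_univ_three]
    try ring
  have zX00 : X 0 0 = 0 := by
    linear_combination (1 / 2) * e000 - (1 / 2) * e001 + (1 / 2) * e002 - (1 / 2) * e020 - e100 - (1 / 2) * e101 - e102 + e120 - (1 / 2) * e200 - (1 / 2) * e202 + (1 / 2) * e220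
  have zX01 : X 0 1 = 0 := by
    linear_combination -e101 - 2 * e102 - e111 - 2 * e112 + e121 - e202 - e212 - e222
  have zX02 : X 0 2 = 0 := by
    linear_combination e102 + e112 + e122 + e202 + e212 + e222
  have zX10 : X 1 0 = 0 := by
    linear_combination -(1 / 2) * e000 + (1 / 2) * e001 - (1 / 2) * e002 + (1 / 2) * e020 - (1 / 2) * e101 + (1 / 2) * e200 + (1 / 2) * e202 - (1 / 2) * e220
  have zX11 : X 1 1 = 0 := by
    linear_combination (1 / 4) * e001 - (1 / 4) * e002 + (1 / 4) * e011 - (1 / 4) * e012 + (1 / 4) * e021 - (1 / 4) * e022 + (1 / 2) * e101 + (1 / 2) * e102 + (1 / 2) * e111 + (1 / 2) * e112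
  have zX12 : X 1 2 = 0 := by
    linear_combination -(1 / 4) * e001 + (1 / 4) * e002 - (1 / 4) * e011 + (1 / 4) * e012 - (1 / 4) * e021 + (1 / 4) * e022 + (1 / 2) * e101 + (1 / 2) * e102 + (1 / 2) * e111 + (1 / 2) * e112
  have zX20 : X 2 0 = 0 := by
    linear_combination (1 / 2) * e000 - (1 / 2) * e001 + (1 / 2) * e002 - (1 / 2) * e020 - (1 / 2) * e101 + (1 / 2) * e200 + (1 / 2) * e202 - (1 / 2) * e220
  have zX21 : X 2 1 = 0 := by
    linear_combination (1 / 2) * e001 - (1 / 2) * e002 + (1 / 2) * e011 - (1 / 2) * e012 - (1 / 2) * e021 + (1 / 2) * e022 + e102 + e112 + e202 + e212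
  have zX22 : X 2 2 = 0 := by
    linear_combination e102 + e112 + e202 + e212
  have zY00 : Y 0 0 = 0 := by
    linear_combination e001
  have zY01 : Y 0 1 = 0 := by
    linear_combination -(3 / 4) * e001 + (3 / 4) * e002 + (1 / 4) * e011 + (3 / 4) * e012 + (1 / 4) * e021 - (1 / 4) * e022 - (1 / 2) * e101 - (3 / 2) * e102 - (1 / 2) * e111 - (3 / 2) * e112 - e202 - e212
  have zY02 : Y 0 2 = 0 := by
    linear_combination (1 / 4) * e001 - (1 / 4) * e002 + (1 / 4) * e011 - (1 / 4) * e012 + (1 / 4) * e021 + (3 / 4) * e022 - (1 / 2) * e101 + (1 / 2) * e102 - (1 / 2) * e111 + (1 / 2) * e112 + e202 + e212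
  have zY10 : Y 1 0 = 0 := by
    linear_combination e101 + e201
  have zY11 : Y 1 1 = 0 := by
    linear_combination -(1 / 2) * e001 + (1 / 2) * e002 - (1 / 2) * e011 + (1 / 2) * e012 + (1 / 2) * e021 - (1 / 2) * e022 - e102 + e111 - e112 - e202 + e211 - e212
  have zY12 : Y 1 2 = 0 := by
    linear_combination (1 / 2) * e001 - (1 / 2) * e002 + (1 / 2) * e011 - (1 / 2) * e012 - (1 / 2) * e021 + (1 / 2) * e022 + e101 + 3 * e102 + e111 + 3 * e112 + 2 * e202 + 2 * e212 + e221 + e222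
  have zY20 : Y 2 0 = 0 := by
    linear_combination e101
  have zY21 : Y 2 1 = 0 := by
    linear_combination -(1 / 4) * e001 + (1 / 4) * e002 - (1 / 4) * e011 + (1 / 4) * e012 - (1 / 4) * e021 + (1 / 4) * e022 - (1 / 2) * e101 - (1 / 2) * e102 + (1 / 2) * e111 - (1 / 2) * e112
  have zY22 : Y 2 2 = 0 := by
    linear_combination -(1 / 4) * e001 + (1 / 4) * e002 - (1 / 4) * e011 + (1 / 4) * e012 - (1 / 4) * e021 + (1 / 4) * e022 + (1 / 2) * e101 + (3 / 2) * e102 + (1 / 2) * e111 + (3 / 2) * e112 + e202 + e212 + e222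
  have zZ00 : Z 0 0 = 0 := by
    linear_combination e000 - e001 + e002
  have zZ01 : Z 0 1 = 0 := by
    linear_combination e100 + e101 + e102
  have zZ02 : Z 0 2 = 0 := by
    linear_combination -e101 + e200 + e202
  have zZ10 : Z 1 0 = 0 := by
    linear_combination e001 - e002 + e010 + e101 - e200 - e202 + e220
  have zZ11 : Z 1 1 = 0 := by
    linear_combination (1 / 2) * e000 - (1 / 2) * e001 + (1 / 2) * e002 - (1 / 2) * e020 - (1 / 2) * e101 - e102 + e110 - (1 / 2) * e200 - (1 / 2) * e202 + (1 / 2) * e220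
  have zZ12 : Z 1 2 = 0 := by
    linear_combination -e000 + e001 - e002 + e020 + e101 - e202 + e210
  have zZ20 : Z 2 0 = 0 := by
    linear_combination e001 - e002
  have zZ21 : Z 2 1 = 0 := by
    linear_combination -e101 - e102
  have zZ22 : Z 2 2 = 0 := by
    linear_combination e101 - e202
  refine ⟨fun t u => ?_, fun t u => ?_, fun t u => ?_⟩
  · fin_cases t <;> fin_cases u <;> assumption
  · fin_cases t <;> fin_cases u <;> assumption
  · fin_cases t <;> fin_cases u <;> assumption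

end Pool.Agent.WarM.CubAH
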