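import Pool.Agent.WarM.Chk2
import Pool.Agent.WarM.Chk30
import Pool.Agent.WarM.Chk31
import Pool.Agent.WarM.Chk32
import Pool.Agent.WarM.Chk4
import Pool.Agent.War.AR

/-!
# The Alexander-Hirschowitz theorem for cubics   (helper27)

`p` general double points of `P^n` impose independent conditions on cubics if `(n + 1) p ≤ binom (n + 3) 3`,
except possibly for the largest such `p` when `n = 1` modulo `3` (for `n = 4`, `p = 7` this is false).
-/

set_option autoImplicit false

open Pool.Agent.War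

namespace Pool.Agent.WarM

open CubAH

theorem six_NN (n : ℕ) : 6 * NN n 3 = (n + 3) * (n + 2) * (n + 1) := by
  have h1 := AR_rec 2 n
  have h2 := AR_rec 1 n
  have h3 : NN 1 n = n + 1 := by
    unfold NN
    rw [Nat.choose_one_right, add_comm]
  have h4 : NN n 3 = NN 3 n := by
    unfold NN
    rw [add_comm 3 n, Nat.choose_symm_add]
  have h5 : 2 * NN 2 n = (n + 2) * (n + 1) := by
    rw [h3] at h2
    norm_num at h2
    linarith
  have h6 : 3 * NN 3 n = (n + 3) * NN 2 n := by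
    norm_num at h1
    linarith
  rw [h4]
  calc 6 * NN 3 n = 2 * (3 * NN 3 n) := by ring
    _ = (n + 3) * (2 * NN 2 n) := by rw [h6]; ring
    _ = _ := by rw [h5]; ring

theorem CUBIC (n p : ℕ) (h : (n + 1) * (p + 1) ≤ NN n 3 ∨
    ((n + 1) % 3 ≠ 2 ∧ (n + 1) * p ≤ NN n 3)) : GG n 3 p := by
  have h6 := six_NN n
  have hp : 6 * (p + 1) ≤ (n + 3) * (n + 2) ∨ ((n + 1) % 3 ≠ 2 ∧ 6 * p ≤ (n + 3) * (n + 2)) := by
    rcases h with h | ⟨h, h'⟩
    · left
      refine Nat.le_of_mul_le_mul_left (c := n + 1) ?_ (by omega)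
      calc (n + 1) * (6 * (p + 1)) = 6 * ((n + 1) * (p + 1)) := by ring
        _ ≤ 6 * NN n 3 := Nat.mul_le_mul_left _ h
        _ = _ := by rw [h6]; ring
    · right
      refine ⟨h, Nat.le_of_mul_le_mul_left (c := n + 1) ?_ (by omega)⟩
      calc (n + 1) * (6 * p) = 6 * ((n + 1) * p) := by ring
        _ ≤ 6 * NN n 3 := Nat.mul_le_mul_left _ h'
        _ = _ := by rw [h6]; ring
  clear h h6
  obtain ⟨k, hk⟩ : ∃ k, k = (n + 1) / 3 := ⟨_, rfl⟩
  have hr : (n + 1) % 3 = 0 ∨ (n + 1) % 3 = 1 ∨ (n + 1) % 3 = 2 := by omega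
  rcases hr with hr | hr | hr
  · have hn : n + 1 = 3 * k + 0 := by omega
    refine design (k := k) (m := 3) (m₀ := 0) chk4 chk30 chk20 chk10 (Or.inl rfl) hn ?_
    obtain ⟨l, rfl⟩ : ∃ l, k = l + 1 := ⟨k - 1, by omega⟩
    have e1 : (n + 3) * (n + 2) = 9 * (l * (l + 1)) + 18 * l + 20 := by
      rw [show n = 3 * l + 2 by omega]
      ring
    have e2 : (l + 1) * (l + 1) = l * (l + 1) + (l + 1) := by ring
    obtain ⟨y, hy⟩ := Nat.even_mul_succ_self l
    omega
  · have hn : n + 1 = 3 * k + 1 := by omega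
    refine design (k := k) (m := 4) (m₀ := 1) chk4 chk31 chk21 chk11 (Or.inr le_rfl) hn ?_
    have e1 : (n + 3) * (n + 2) = 9 * (k * k) + 15 * k + 6 := by
      rw [show n = 3 * k by omega]
      ring
    have e3 : k ≤ k * k := by nlinarith [Nat.zero_le k]
    omega
  · have hn : n + 1 = 3 * k + 2 := by omega
    refine design (k := k) (m := 5) (m₀ := 1) chk4 chk32 chk22 chk12 (Or.inr (by omega)) hn ?_
    have e1 : (n + 3) * (n + 2) = 9 * (k * k) + 21 * k + 12 := by
      rw [show n = 3 * k + 1 by omega]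
      ring
    have e3 : k ≤ k * k := by nlinarith [Nat.zero_le k]
    omega

end Pool.Agent.WarM
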