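import Pool.Agent.WarS.Stmts

/-!
# Simultaneous Waring decompositions (MP_db021c_ag), all degrees: statements   (helper27)

At least `n + 1` forms, all degrees `d ≥ 4`. The block lemma `Block n d b μ` of `War/Stmts.lean` for all `μ`
with `(2 n + 1) μ ≤ n N`. `GG n d p` (File `War/Hor.lean`): `p` double points can be independent in
degree `d`.
-/

set_option autoImplicit false

open Module MvPolynomial
open Pool.Agent.War

namespace Pool.Agent.WarM

/-- Half of the Alexander-Hirschowitz range. Cubics: an explicit configuration; `d ≥ 4`: Horace. -/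
def S_AH : Prop := ∀ n d p : ℕ, 1 ≤ n → 3 ≤ d → (2 * n + 1) * p ≤ NN n d → GG n d p

/-- One double point. `f ↦ (f(0), ∇ f(0))` is surjective on the polynomials of degree `≤ 1`. -/
def S_ONE : Prop := ∀ n d : ℕ, 1 ≤ d → GG n d 1

/-- The core of the block lemma: Horace with a flexible number of points on the hyperplane.
As `C1_core` in `War/C1.lean`. On `x₀ = 0`: `b u` full points with general vectors and `eH` simple points.
Off the hyperplane: `b r + c` full points with pure vectors (`r` for each form, one more for the first `c` forms) and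
`e` simple points. Trace: pure vectors. Residual: `V = ∏ V_j`, `dim V_j ≤ w - (ν + 1)` for `j < c`,
`≤ w` otherwise; so `dim V ≤ b u`. No element of `V` vanishes on the hyperplane: use only `k` of the double
points of each form in degree `δ`. So `b u` general points with vectors kill `V`. -/
def S_CORE : Prop := ∀ ν δ b u r c eH e w k : ℕ, 1 ≤ ν → c ≤ b →
  GG ν (δ + 2) u → NN ν (δ + 2) ≤ ν * u + (b * u + eH) →
  GG (ν + 1) (δ + 1) (r + 1) → GG (ν + 1) (δ + 1) r → GG (ν + 1) δ k → k ≤ r →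
  NN (ν + 1) (δ + 1) ≤ (b * r + c + e) + (ν + 1) * r + w → ν + 1 ≤ w →
  b * w ≤ b * u + (ν + 1) * c →
  NN (ν + 1) δ ≤ (ν + 1) * k + (b * r + c + e) →
  ∃ (z : (Fin b × Fin u) ⊕ ((Fin b × Fin r) ⊕ Fin c) → Fin (ν + 1) → ℂ)
    (a : (Fin b × Fin u) ⊕ ((Fin b × Fin r) ⊕ Fin c) → Fin b → ℂ)
    (y : Fin eH ⊕ Fin e → Fin (ν + 1) → ℂ), Kill (ν + 1) (δ + 2) z a y

/-- The choice of the numbers, `n ≥ 3`, `d ≥ 4`: `u = min q (NN (n-1) d / (2n-1))`, `r = q - u`,
`k = min r (NN n (d-2) / (2n+1))` (`min r 1` for `d = 4`), `w = u + D`. -/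
def S_NUM : Prop := ∀ n d q D : ℕ, 3 ≤ n → 4 ≤ d → 1 ≤ D → D < n → n ≤ q + D →
  (2 * n + 1) * (n * q + D) ≤ n * NN n d →
  ∃ u r k : ℕ, u + r = q ∧ n ≤ u + D ∧ (2 * n - 1) * u ≤ NN (n - 1) d ∧
    (2 * n + 1) * (r + 1) ≤ NN n (d - 1) ∧ k ≤ r ∧
    (k ≤ 1 ∨ (5 ≤ d ∧ (2 * n + 1) * k ≤ NN n (d - 2))) ∧
    2 * n * r + u + 2 * D ≤ NN n (d - 1) ∧
    n * r + u + D ≤ NN (n - 1) (d - 1) + n * k

/-- Main case of the block lemma. From `S_CORE`, `S_NUM`, `S_AH`, `S_ONE`, with `c = ⌈b D / n⌉`,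
`eH = NN (n-1) d - (n - 1 + b) u`, `e` = the remaining simple points. -/
def S_MB : Prop := ∀ n d b μ : ℕ, 3 ≤ n → 4 ≤ d → 1 ≤ b → b ≤ n →
  (2 * n + 1) * μ ≤ n * NN n d → μ % n ≠ 0 → n ≤ μ / n + μ % n → Block n d b μ

/-- Pure case: `c = 0` or `c = b`: every form has `q` double points. As `War/C0.lean`, with `S_SG`. -/
def S_PB : Prop := ∀ n d b q μ : ℕ, 1 ≤ n → 1 ≤ b → GG n d q → μ ≤ n * q →
  b * q = (b * μ + n - 1) / n → Block n d b μ

/-- Small case (helper34). -/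
def S_SB : Prop := ∀ n d b c q D : ℕ, 3 ≤ n → 4 ≤ d → b ≤ n → 1 ≤ c → c < b → 1 ≤ q →
  D = n * c / b → q + D < n → Block n d b (n * q + D)

/-- The block lemma in all degrees. Let `q = μ / n`, `D = μ % n`, `c = ⌈b D / n⌉`. `D = 0`: `S_PB`. `n ≤ q + D`: `S_MB`.
`q + D < n` and `c = b`: `S_PB` with `q + 1 ≤ n - 1` double points. `c < b`: let `D' = n c / b ≥ D`, `μ' = n q + D'`; then
`⌈b μ' / n⌉ = b q + c = ⌈b μ / n⌉` and `Block n d b μ'` (`S_MB` or `S_SB`) implies `Block n d b μ` (more simple points). -/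
def S_BLKA : Prop := ∀ n d b μ : ℕ, 3 ≤ n → 4 ≤ d → 1 ≤ b → b ≤ n → n ≤ μ →
  (2 * n + 1) * μ ≤ n * NN n d → Block n d b μ

/-- From the block lemma to the theorem; as `War/TOP.lean`. -/
def S_TOPA : Prop := ∀ n d s h : ℕ, 3 ≤ n → 4 ≤ d → n + 1 ≤ s → s ≤ h → h < NN n d →
  s * NN n d ≤ h * (n + s) →
  ∃ (z : Fin h → Fin n → ℂ) (a : Fin h → Fin s → ℂ) (y : Fin 0 → Fin n → ℂ), Kill n d z a y

end Pool.Agent.WarM
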