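import Pool.Agent.WarM.Cub

/-!
# Numbers for the Horace induction
-/

set_option autoImplicit false

open Pool.Agent.War

namespace Pool.Agent.WarM

theorem NN_two (n : ℕ) : 2 * NN n 2 = (n + 1) * (n + 2) := by
  induction n with
  | zero => rfl
  | succ n ih =>
    rw [NN_succ, NN_right_one]
    nlinarith

theorem NN_three (n : ℕ) : 6 * NN n 3 = (n + 1) * (n + 2) * (n + 3) := by
  induction n with
  | zero => rfl
  | succ n ih =>
    rw [NN_succ]
    have h := NN_two (n + 1)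
    nlinarith

theorem NN_four (n : ℕ) : 24 * NN n 4 = (n + 1) * (n + 2) * (n + 3) * (n + 4) := by
  induction n with
  | zero => rfl
  | succ n ih =>
    rw [NN_succ]
    have h := NN_three (n + 1)
    nlinarith

/-- ratio of consecutive values -/
theorem NN_ratio (m d : ℕ) : (d + 1) * NN m (d + 1) = (m + d + 1) * NN m d := by
  have h := Nat.add_one_mul_choose_eq (m + d) d
  have e1 : (m + d).choose d = NN m d := by
    unfold NN
    rw [Nat.choose_symm_add]
  have e2 : (m + d + 1).choose (d + 1) = NN m (d + 1) := by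
    unfold NN
    rw [add_assoc, Nat.choose_symm_add]
  rw [e1, e2] at h
  linarith

theorem NN_two_left (d : ℕ) : 2 * NN 2 d = (d + 1) * (d + 2) := by
  have h := NN_two d
  have e : NN 2 d = NN d 2 := by
    unfold NN
    rw [add_comm 2 d, Nat.choose_symm_add]
  rw [e, h]

theorem NN_three_left (d : ℕ) : 6 * NN 3 d = (d + 1) * (d + 2) * (d + 3) := by
  have h := NN_three d
  have e : NN 3 d = NN d 3 := by
    unfold NN
    rw [add_comm 3 d, Nat.choose_symm_add]
  rw [e, h]

/-- cubics -/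
theorem num3 (n k e p : ℕ) (hn : n + 1 = 3 * k + e) (he : e ≤ 2) (hk : 1 ≤ k)
    (hp : (2 * n + 1) * p ≤ NN n 3) : p ≤ k * k + k + e := by
  by_contra hc
  push Not at hc
  have h1 : (2 * n + 1) * (k * k + k + e + 1) ≤ NN n 3 :=
    (Nat.mul_le_mul_left _ hc).trans hp
  have h2 := NN_three n
  have h3 : 6 * ((2 * n + 1) * (k * k + k + e + 1)) ≤ (n + 1) * (n + 2) * (n + 3) := by
    rw [← h2]
    exact Nat.mul_le_mul_left _ h1
  obtain ⟨k, rfl⟩ : ∃ k', k = k' + 1 := ⟨k - 1, by omega⟩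
  obtain rfl : n = 3 * k + 2 + e := by omega
  interval_cases e <;> ring_nf at h3 <;> nlinarith [Nat.zero_le (k ^ 2), Nat.zero_le (k ^ 3)]

/-- first inequality, abstract -/
theorem numA (m u Q p N' N1 N : ℕ) (hN : N = N' + N1) (hp : (2 * (m + 1) + 1) * p ≤ N)
    (hQ : Q = N1 / (2 * (m + 1) + 1)) (hu : u = p - min p Q) :
    (2 * m + 3) * u ≤ N' + (2 * m + 2) := by
  rcases le_total p Q with h | h
  · rw [min_eq_left h, Nat.sub_self] at hu
    rw [hu]
    omega
  · rw [min_eq_right h] at hu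
    have h1 := Nat.lt_mul_div_succ N1 (show 0 < 2 * (m + 1) + 1 by omega)
    rw [← hQ] at h1
    obtain rfl : p = u + Q := by omega
    have e1 : (2 * (m + 1) + 1) * (u + Q) = (2 * m + 3) * u + (2 * (m + 1) + 1) * Q := by ring
    have e2 : (2 * (m + 1) + 1) * (Q + 1) = (2 * (m + 1) + 1) * Q + (2 * m + 3) := by ring
    rw [e1] at hp
    rw [e2] at h1
    omega

/-- from the weak to the sharp bound for `u` -/
theorem numA2 (m u N' : ℕ) (h : (2 * m + 3) * u ≤ N' + (2 * m + 2))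
    (hN : (m + 1) * (2 * m + 1) ≤ N') : (2 * m + 1) * u ≤ N' := by
  by_contra hc
  push Not at hc
  have h1 : (2 * m + 3) * (N' + 1) ≤ (2 * m + 3) * ((2 * m + 1) * u) :=
    Nat.mul_le_mul_left _ hc
  have h2 : (2 * m + 1) * ((2 * m + 3) * u) ≤ (2 * m + 1) * (N' + (2 * m + 2)) :=
    Nat.mul_le_mul_left _ h
  nlinarith

theorem big4 (m d : ℕ) (hm : 2 ≤ m) (hd : 4 ≤ d) : (m + 1) * (2 * m + 1) ≤ NN m d := by
  have h1 : NN m 4 ≤ NN m d := NN_mono_right hd
  have h2 := NN_four m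
  refine le_trans ?_ h1
  have h3 : 24 * ((m + 1) * (2 * m + 1)) ≤ 24 * NN m 4 := by
    rw [h2]
    obtain ⟨k, rfl⟩ : ∃ k, m = k + 2 := ⟨m - 2, by omega⟩
    nlinarith [Nat.zero_le (k ^ 2), Nat.zero_le (k ^ 3), Nat.zero_le (k ^ 4)]
  omega

/-- the inequality behind the second condition -/
theorem numC (m e : ℕ) (he : 3 ≤ e)
    (h : (e + 2) * ((2 * m + 2) * (m + 3)) ≤ m * (e + 1) * NN m (e + 1)) :
    NN m (e + 2) + (2 * m + 2) * (m + 3) ≤ (m + 1) * NN m (e + 1) := by
  have h1 := NN_ratio m (e + 1)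
  have h2 : (e + 2) * (NN m (e + 2) + (2 * m + 2) * (m + 3)) ≤
      (e + 2) * ((m + 1) * NN m (e + 1)) := by
    have e1 : (e + 2) * NN m (e + 2) = (m + e + 2) * NN m (e + 1) := by
      have e0 : e + 1 + 1 = e + 2 := rfl
      rw [e0] at h1
      rw [h1]
      ring
    rw [mul_add, e1]
    nlinarith
  exact Nat.le_of_mul_le_mul_left h2 (by omega)

theorem numC3 (m e : ℕ) (hm : 3 ≤ m) (he : 3 ≤ e) :
    NN m (e + 2) + (2 * m + 2) * (m + 3) ≤ (m + 1) * NN m (e + 1) := by
  apply numC m e he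
  have h1 : NN m 3 ≤ NN m (e + 1) := NN_mono_right (by omega)
  have h2 := NN_three m
  have h3 : 12 * (m + 1) * (m + 3) * 5 ≤ 4 * (m * (6 * NN m 3)) := by
    rw [h2]
    obtain ⟨k, rfl⟩ : ∃ k, m = k + 3 := ⟨m - 3, by omega⟩
    nlinarith [Nat.zero_le (k ^ 2), Nat.zero_le (k ^ 3), Nat.zero_le (k ^ 4)]
  have h4 : 12 * (m + 1) * (m + 3) * 5 ≤ 4 * (m * (6 * NN m (e + 1))) :=
    h3.trans (Nat.mul_le_mul_left _ (Nat.mul_le_mul_left _ (Nat.mul_le_mul_left _ h1)))
  have h5 : 4 * (e + 2) ≤ 5 * (e + 1) := by omega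
  have h6 : 4 * (e + 2) * (12 * (m + 1) * (m + 3) * 5) ≤
      5 * (e + 1) * (4 * (m * (6 * NN m (e + 1)))) := Nat.mul_le_mul h5 h4
  nlinarith

theorem numC2 (e : ℕ) (he : 4 ≤ e) :
    NN 2 (e + 2) + (2 * 2 + 2) * (2 + 3) ≤ (2 + 1) * NN 2 (e + 1) := by
  apply numC 2 e (by omega)
  have h := NN_two_left (e + 1)
  nlinarith

theorem numC1 (e : ℕ) (he : 15 ≤ e) :
    NN 1 (e + 2) + (2 * 1 + 2) * (1 + 3) ≤ (1 + 1) * NN 1 (e + 1) := by
  rw [NN_one, NN_one]
  omega

/-- conclusion of the second condition -/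
theorem numB (m u q p₂ N1 N2 M M' : ℕ) (hN1 : N1 = M + N2)
    (hC : M' + (2 * m + 2) * (m + 3) ≤ (m + 1) * M)
    (hu : (2 * m + 3) * u ≤ M' + (2 * m + 2)) (hp₂ : p₂ ≤ q)
    (hq : (2 * m + 3) * (q - p₂) ≤ M + (2 * m + 2)) :
    N2 + u + (m + 2) * q ≤ N1 + (m + 2) * p₂ := by
  obtain ⟨v, rfl⟩ : ∃ v, q = p₂ + v := ⟨q - p₂, by omega⟩
  rw [Nat.add_sub_cancel_left] at hq
  have h1 : (2 * m + 3) * (u + (m + 2) * v) ≤ (2 * m + 3) * M := by nlinarith
  have h2 := Nat.le_of_mul_le_mul_left h1 (by omega)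
  rw [hN1, mul_add]
  omega

theorem numD (m e p q : ℕ) (hm : 1 ≤ m) (he : 3 ≤ e)
    (hp : (2 * (m + 1) + 1) * p ≤ NN (m + 1) (e + 2))
    (hq : q = min p (NN (m + 1) (e + 1) / (2 * (m + 1) + 1))) :
    (2 * m + 1) * (p - q) ≤ NN m (e + 2) ∧
    NN (m + 1) e + (p - q) + (m + 2) * q ≤ NN (m + 1) (e + 1) +
      (m + 2) * min q (NN (m + 1) e / (2 * (m + 1) + 1)) := by
  have hN0 : NN (m + 1) (e + 2) = NN m (e + 2) + NN (m + 1) (e + 1) := NN_succ m (e + 1)
  have hN1 : NN (m + 1) (e + 1) = NN m (e + 1) + NN (m + 1) e := NN_succ m e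
  have hu := numA m (p - q) _ p _ _ _ hN0 hp rfl (by rw [hq])
  have hq1 : (2 * (m + 1) + 1) * q ≤ NN (m + 1) (e + 1) := by
    have h1 : q ≤ NN (m + 1) (e + 1) / (2 * (m + 1) + 1) := by
      rw [hq]
      exact min_le_right _ _
    exact (Nat.mul_le_mul_left _ h1).trans (Nat.mul_div_le _ _)
  have hu2 := numA m (q - min q (NN (m + 1) e / (2 * (m + 1) + 1))) _ q _ _ _ hN1 hq1 rfl rfl
  constructor
  · -- first condition
    rcases Nat.lt_or_ge m 2 with h | h
    · obtain rfl : m = 1 := by omega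
      apply numA2 1 _ _ hu
      rw [NN_one]
      omega
    · exact numA2 m _ _ hu (big4 m (e + 2) h (by omega))
  · rcases Nat.lt_or_ge m 3 with h | h
    · rcases Nat.lt_or_ge m 2 with h' | h'
      · obtain rfl : m = 1 := by omega
        rcases Nat.lt_or_ge e 15 with he' | he'
        · -- finitely many cases
          have e0 := NN_two_left e
          have e1 := NN_two_left (e + 1)
          have e2 := NN_two_left (e + 2)
          have eq2 : (1 + 1 : ℕ) = 2 := rfl
          rw [eq2] at hp hq ⊢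
          interval_cases e <;> omega
        · exact numB 1 _ _ _ _ _ _ _ hN1 (numC1 e he') hu (min_le_left _ _) hu2
      · obtain rfl : m = 2 := by omega
        rcases Nat.lt_or_ge e 4 with he' | he'
        · obtain rfl : e = 3 := by omega
          have e0 := NN_three_left 3
          have e1 := NN_three_left (3 + 1)
          have e2 := NN_three_left (3 + 2)
          have eq2 : (2 + 1 : ℕ) = 3 := rfl
          rw [eq2] at hp hq ⊢
          omega
        · exact numB 2 _ _ _ _ _ _ _ hN1 (numC2 e he') hu (min_le_left _ _) hu2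
    · exact numB m _ _ _ _ _ _ _ hN1 (numC3 m e h he) hu (min_le_left _ _) hu2

/-- degree four -/
theorem numE (m p q : ℕ) (hm : 1 ≤ m)
    (hp : (2 * (m + 1) + 1) * p ≤ NN (m + 1) 4)
    (hq : q = min p (NN (m + 1) 3 / (2 * (m + 1) + 1))) :
    (2 * m + 1) * (p - q) ≤ NN m 4 ∧
    NN (m + 1) 2 + (p - q) + (m + 2) * q ≤ NN (m + 1) 3 + (m + 2) * min q 1 := by
  have hN0 : NN (m + 1) 4 = NN m 4 + NN (m + 1) 3 := NN_succ m 3
  have hN1 : NN (m + 1) 3 = NN m 3 + NN (m + 1) 2 := NN_succ m 2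
  have hu := numA m (p - q) _ p _ _ _ hN0 hp rfl (by rw [hq])
  have hq1 : (2 * (m + 1) + 1) * q ≤ NN (m + 1) 3 := by
    have h1 : q ≤ NN (m + 1) 3 / (2 * (m + 1) + 1) := by
      rw [hq]
      exact min_le_right _ _
    exact (Nat.mul_le_mul_left _ h1).trans (Nat.mul_div_le _ _)
  have a2 := NN_two (m + 1)
  have a3 := NN_three (m + 1)
  have a4 := NN_four (m + 1)
  have b3 := NN_three m
  have b4 := NN_four m
  constructor
  · rcases Nat.lt_or_ge m 2 with h | h
    · obtain rfl : m = 1 := by omega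
      omega
    · exact numA2 m _ _ hu (big4 m 4 h (by omega))
  · rcases Nat.lt_or_ge m 3 with h | h
    · interval_cases m <;> omega
    · rcases Nat.eq_zero_or_pos q with h0 | h0
      · -- `q = 0` implies `p = 0`
        have h1 : 1 ≤ NN (m + 1) 3 / (2 * (m + 1) + 1) := by
          rw [Nat.one_le_div_iff (by omega)]
          nlinarith
        have h2 : p = 0 := by
          rw [h0] at hq
          rcases min_choice p (NN (m + 1) 3 / (2 * (m + 1) + 1)) with h3 | h3
          · rw [h3] at hq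
            exact hq.symm
          · rw [h3] at hq
            omega
        rw [h2, h0]
        have : NN (m + 1) 2 ≤ NN (m + 1) 3 := NN_mono_right (by omega)
        omega
      · have h1 : min q 1 = 1 := min_eq_right h0
        rw [h1, mul_one, hN1]
        have h2 : (2 * m + 3) * ((p - q) + (m + 2) * q) ≤ (2 * m + 3) * (NN m 3 + (m + 2)) := by
          have h3 : (2 * m + 3) * ((p - q) + (m + 2) * q) ≤
              NN m 4 + (2 * m + 2) + (m + 2) * NN (m + 1) 3 := by
            have e1 : (2 * m + 3) * ((p - q) + (m + 2) * q) =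
              (2 * m + 3) * (p - q) + (m + 2) * ((2 * (m + 1) + 1) * q) := by ring
            rw [e1]
            exact Nat.add_le_add hu (Nat.mul_le_mul_left _ hq1)
          refine h3.trans ?_
          have h4 : 24 * (NN m 4 + (2 * m + 2) + (m + 2) * NN (m + 1) 3) ≤
              24 * ((2 * m + 3) * (NN m 3 + (m + 2))) := by
            have e1 : 24 * (NN m 4 + (2 * m + 2) + (m + 2) * NN (m + 1) 3) =
              24 * NN m 4 + 24 * (2 * m + 2) + 4 * (m + 2) * (6 * NN (m + 1) 3) := by ring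
            have e2 : 24 * ((2 * m + 3) * (NN m 3 + (m + 2))) =
              4 * (2 * m + 3) * (6 * NN m 3) + 24 * ((2 * m + 3) * (m + 2)) := by ring
            rw [e1, e2, a3, b3, b4]
            obtain ⟨k, rfl⟩ : ∃ k, m = k + 3 := ⟨m - 3, by omega⟩
            nlinarith [Nat.zero_le (k ^ 2), Nat.zero_le (k ^ 3), Nat.zero_le (k ^ 4)]
          omega
        have h5 := Nat.le_of_mul_le_mul_left h2 (by omega)
        omega

end Pool.Agent.WarM
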