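import Pool.Agent.WarM.BLKA
import Pool.Agent.War.TOP

/-!
# Simultaneous Waring decompositions (MP_db021c_ag): from the block lemma to the theorem   (helper27)
-/

set_option autoImplicit false

open Module MvPolynomial
open Pool.Agent.War Pool.Agent.WarS

namespace Pool.Agent.WarM

/-- fewer than `n` derivative conditions for each form: one double point for each form -/
theorem top_small {n d s h μ : ℕ} (hn : 1 ≤ n) (hd : 1 ≤ d) (hsh : s ≤ h) (h1 : 1 ≤ h)
    (hμ : NN n d = h + μ) (hlt : μ ≤ n) :
    ∃ (z : Fin h → Fin n → ℂ) (a : Fin h → Fin s → ℂ) (y : Fin 0 → Fin n → ℂ), Kill n d z a y := by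
  obtain ⟨z, a, y, hK⟩ := asm (n := n) (d := d) (h := h) (T := Fin s) (fun _ => 1) (fun _ => 1)
    (fun _ => h - 1) (fun _ => by omega) (by simpa using hsh) (fun _ => by
      obtain ⟨z, hz⟩ := (SG n d (Fin 1 ⊕ Fin (h - 1)) {Sum.inl 0} hn (by
        rw [Finset.card_singleton]
        exact ONE n d hd)).exists
      have hz0 : Dbl n d {Sum.inl 0} z = ⊥ := by
        rw [← Submodule.finrank_eq_zero]
        have : NN n d - (n * ({Sum.inl 0} : Finset (Fin 1 ⊕ Fin (h - 1))).card +
            Fintype.card (Fin 1 ⊕ Fin (h - 1))) = 0 := by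
          rw [Finset.card_singleton, Fintype.card_sum, Fintype.card_fin, Fintype.card_fin]
          omega
        omega
      refine ⟨fun i => z (Sum.inl i), fun _ _ => 1, fun i => z (Sum.inr i), ?_⟩
      intro f hdf k1 k2 k3 j
      have hj : j = 0 := Subsingleton.elim _ _
      subst hj
      have hm : (⟨f 0, mem_Pol.2 (hdf 0)⟩ : Pol n d) ∈ Dbl n d {Sum.inl 0} z := by
        rw [mem_Dbl]
        refine ⟨?_, ?_⟩
        · rintro (i | i)
          · exact k1 i 0
          · exact k3 i 0
        · intro i hi k
          rw [Finset.mem_singleton] at hi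
          subst hi
          simpa using k2 0 k
      rw [hz0, Submodule.mem_bot] at hm
      exact congrArg Subtype.val hm)
  have hcard : Fintype.card ((t : Fin s) × Fin 1) = s := by simp
  exact ⟨z, _, y, Kill_equiv (Fintype.equivFinOfCardEq hcard).symm hK⟩

theorem TOPA (hB : S_BLKA) : S_TOPA := by
  intro n d s h hn hd hs hsh hN hmain
  obtain ⟨μ, hμ⟩ : ∃ μ, NN n d = h + μ := ⟨NN n d - h, by omega⟩
  have hμ0 : 0 < μ := by omega
  have h1 : s * μ ≤ n * h := by
    rw [hμ] at hmain
    nlinarith
  rcases Nat.lt_or_ge μ n with hlt | hge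
  · exact top_small (by omega) (by omega) hsh (by omega) hμ hlt.le
  · -- blocks
    have hsn := Nat.div_add_mod s n
    set k := s / n with hk
    set b' := s % n with hb'
    have hb'n : b' < n := Nat.mod_lt _ (by omega)
    let b : Option (Fin k) → ℕ := fun t => t.elim b' fun _ => n
    let m : Option (Fin k) → ℕ := fun t => (b t * μ + n - 1) / n
    have hmn : ∀ i : Fin k, m (some i) = μ := by
      intro i
      show (n * μ + n - 1) / n = μ
      have : n * μ + n - 1 = (n - 1) + n * μ := by omega
      rw [this, Nat.add_mul_div_left _ _ (by omega), Nat.div_eq_of_lt (by omega), zero_add]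
    have hkμ : n * (k * μ) + b' * μ ≤ n * h := by
      have : n * (k * μ) + b' * μ = (n * k + b') * μ := by ring
      rw [this, hsn]
      exact h1
    have hkh : k * μ ≤ h := by
      have : n * (k * μ) ≤ n * h := by omega
      exact Nat.le_of_mul_le_mul_left this (by omega)
    have hm0 : m none ≤ h - k * μ := by
      show (b' * μ + n - 1) / n ≤ h - k * μ
      have h2 : n * (h - k * μ) = n * h - n * (k * μ) := Nat.mul_sub _ _ _
      have h3 : b' * μ + n - 1 < n * ((h - k * μ) + 1) := by
        rw [mul_add, h2]
        omega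
      rw [mul_comm n] at h3
      exact Nat.lt_succ_iff.1 ((Nat.div_lt_iff_lt_mul (by omega)).2 h3)
    have hsum : ∑ t, m t ≤ h := by
      rw [Fintype.sum_option]
      simp only [hmn, Finset.sum_const, Finset.card_univ, Fintype.card_fin, smul_eq_mul]
      omega
    have hmle : ∀ t, m t ≤ h := fun t =>
      (Finset.single_le_sum (f := m) (fun _ _ => Nat.zero_le _) (Finset.mem_univ t)).trans hsum
    have hBn : (2 * n + 1) * μ ≤ n * NN n d := by
      rw [hμ]
      nlinarith
    obtain ⟨z, a, y, hK⟩ := asm (n := n) (d := d) (h := h) b m (fun t => NN n d - μ - m t)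
      (fun t => by
        have := hmle t
        omega) hsum (fun t => by
        cases t with
        | none =>
          rcases Nat.eq_zero_or_pos b' with h0 | h0
          · refine ⟨fun _ _ => 0, fun _ _ => 0, fun _ _ => 0, ?_⟩
            intro f _ _ _ _ j
            exact absurd j.2 (by simp [b, h0])
          · exact hB n d b' μ hn hd h0 hb'n.le hge hBn
        | some i => exact hB n d n μ hn hd (by omega) le_rfl hge hBn)
    have hcard : Fintype.card ((t : Option (Fin k)) × Fin (b t)) = s := by
      simp only [Fintype.card_sigma, Fintype.card_fin]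
      rw [Fintype.sum_option]
      simp only [b, Option.elim, Finset.sum_const, Finset.card_univ, Fintype.card_fin,
        smul_eq_mul]
      rw [← hsn]
      ring
    exact ⟨z, _, y, Kill_equiv (Fintype.equivFinOfCardEq hcard).symm hK⟩

end Pool.Agent.WarM
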