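import Pool.Agent.WarM.Stmts
import Pool.Agent.War.AR

/-!
# Simultaneous Waring decompositions (MP_db021c_ag): the choice of the numbers   (helper27)
-/

set_option autoImplicit false

open Pool.Agent.War

namespace Pool.Agent.WarM

theorem NN_recd (m d : ℕ) : (d + 1) * NN m (d + 1) = (m + d + 1) * NN m d := by
  have h := Nat.choose_mul_succ_eq (m + d) m
  rw [show m + d + 1 - m = d + 1 by omega] at h
  unfold NN
  rw [show m + (d + 1) = m + d + 1 by ring]
  linarith

theorem NNb_two (m : ℕ) : 2 * NN m 2 = (m + 2) * (m + 1) := by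
  have h := NN_recd m 1
  rw [NN_right_one] at h
  linarith

theorem NNb_three (m : ℕ) : 6 * NN m 3 = (m + 3) * (m + 2) * (m + 1) := by
  have h := NN_recd m 2
  have h2 := NNb_two m
  norm_num at h
  have : 6 * NN m 3 = (m + 3) * (2 * NN m 2) := by linarith
  rw [this, h2]
  ring

theorem NNb_four (m : ℕ) : 24 * NN m 4 = (m + 4) * (m + 3) * (m + 2) * (m + 1) := by
  have h := NN_recd m 3
  have h2 := NNb_three m
  norm_num at h
  have : 24 * NN m 4 = (m + 4) * (6 * NN m 3) := by linarith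
  rw [this, h2]
  ring

theorem NN_five (m : ℕ) : 120 * NN m 5 = (m + 5) * (m + 4) * (m + 3) * (m + 2) * (m + 1) := by
  have h := NN_recd m 4
  have h2 := NNb_four m
  norm_num at h
  have : 120 * NN m 5 = (m + 5) * (24 * NN m 4) := by linarith
  rw [this, h2]
  ring

/-- `2 u ≤ NN m (e + 1)` -/
theorem num_u {m e u : ℕ} (hm : 2 ≤ m) (he : 2 ≤ e) (hu : (2 * m + 1) * u ≤ NN m (e + 2)) :
    2 * u ≤ NN m (e + 1) := by
  have h1 := NN_recd m (e + 1)
  have h2 : (e + 1 + 1) * ((2 * m + 1) * u) ≤ (m + (e + 1) + 1) * NN m (e + 1) :=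
    (Nat.mul_le_mul_left _ hu).trans h1.le
  have h3 : 2 * (m + (e + 1) + 1) ≤ (e + 1 + 1) * (2 * m + 1) := by nlinarith
  have h4 : (m + (e + 1) + 1) * (2 * u) ≤ (m + (e + 1) + 1) * NN m (e + 1) := by
    calc (m + (e + 1) + 1) * (2 * u) = 2 * (m + (e + 1) + 1) * u := by ring
      _ ≤ (e + 1 + 1) * (2 * m + 1) * u := Nat.mul_le_mul_right _ h3
      _ = (e + 1 + 1) * ((2 * m + 1) * u) := by ring
      _ ≤ _ := h2
  exact Nat.le_of_mul_le_mul_left h4 (by omega)

theorem num_m {m e : ℕ} (hm : 2 ≤ m) (he : 2 ≤ e) : 2 * m ≤ NN m (e + 1) := by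
  have h1 : NN m 2 ≤ NN m (e + 1) := NN_mono_right (by omega)
  have h2 := NNb_two m
  nlinarith

theorem num_big {m e : ℕ} (hm : 2 ≤ m) (he : 2 ≤ e) (h : e ≠ 2 ∨ 5 ≤ m) :
    (2 * m + 1) * (2 * m) ≤ NN m (e + 2) := by
  rcases Nat.lt_or_ge 2 e with he' | he'
  · have h1 : NN m 5 ≤ NN m (e + 2) := NN_mono_right (by omega)
    have h2 := NN_five m
    obtain ⟨t, rfl⟩ : ∃ t, m = t + 2 := ⟨m - 2, by omega⟩
    have h3 : 120 * ((2 * (t + 2) + 1) * (2 * (t + 2))) ≤
        (t + 2 + 5) * (t + 2 + 4) * (t + 2 + 3) * (t + 2 + 2) * (t + 2 + 1) := by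
      have e1 : (t + 2 + 5) * (t + 2 + 4) * (t + 2 + 3) * (t + 2 + 2) * (t + 2 + 1) =
          t ^ 5 + 25 * t ^ 4 + 245 * t ^ 3 + 1175 * t ^ 2 + 2754 * t + 2520 := by ring
      have e2 : 120 * ((2 * (t + 2) + 1) * (2 * (t + 2))) = 480 * t ^ 2 + 2160 * t + 2400 := by
        ring
      rw [e1, e2]
      have : 0 ≤ t ^ 5 + 25 * t ^ 4 + 245 * t ^ 3 + 695 * t ^ 2 := Nat.zero_le _
      omega
    omega
  · have he2 : e = 2 := by omega
    subst he2
    have hm5 : 5 ≤ m := by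
      rcases h with h | h
      · exact absurd rfl h
      · exact h
    have h2 := NNb_four m
    obtain ⟨t, rfl⟩ : ∃ t, m = t + 5 := ⟨m - 5, by omega⟩
    have h3 : 24 * ((2 * (t + 5) + 1) * (2 * (t + 5))) ≤
        (t + 5 + 4) * (t + 5 + 3) * (t + 5 + 2) * (t + 5 + 1) := by
      have e1 : (t + 5 + 4) * (t + 5 + 3) * (t + 5 + 2) * (t + 5 + 1) =
          t ^ 4 + 30 * t ^ 3 + 335 * t ^ 2 + 1650 * t + 3024 := by ring
      have e2 : 24 * ((2 * (t + 5) + 1) * (2 * (t + 5))) = 96 * t ^ 2 + 1008 * t + 2640 := by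
        ring
      rw [e1, e2]
      have : 0 ≤ t ^ 4 + 30 * t ^ 3 + 239 * t ^ 2 := Nat.zero_le _
      omega
    norm_num
    omega

/-- the last condition -/
theorem num_k {m e u r D : ℕ} (hm : 2 ≤ m) (he : 2 ≤ e) (hD : D ≤ m) (hr : 1 ≤ r)
    (hu : (2 * m + 1) * u ≤ NN m (e + 2))
    (h : (2 * m + 3) * r + 2 * u + 2 * D ≤ NN (m + 1) (e + 1) + (2 * m - 1)) :
    ∃ k ≤ r, (k ≤ 1 ∨ (5 ≤ e + 2 ∧ (2 * (m + 1) + 1) * k ≤ NN (m + 1) e)) ∧
      (m + 1) * r + u + D ≤ NN m (e + 1) + (m + 1) * k := by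
  have k1 := num_u hm he hu
  have k2 := num_m hm he
  have hN := NN_succ m e
  rcases Nat.lt_or_ge 2 e with he' | he'
  · -- `d ≥ 5`
    obtain ⟨κ, hκ⟩ : ∃ κ, κ = NN (m + 1) e / (2 * m + 3) := ⟨_, rfl⟩
    have hκ1 : (2 * m + 3) * κ ≤ NN (m + 1) e := by rw [hκ]; exact Nat.mul_div_le _ _
    have hκ2 : NN (m + 1) e < (2 * m + 3) * (κ + 1) := by
      rw [hκ]; exact Nat.lt_mul_div_succ _ (by omega)
    rcases Nat.lt_or_ge r κ with hrk | hrk
    · refine ⟨r, le_rfl, Or.inr ⟨by omega, ?_⟩, by omega⟩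
      refine le_trans ?_ hκ1
      rw [show 2 * (m + 1) + 1 = 2 * m + 3 by ring]
      exact Nat.mul_le_mul_left _ hrk.le
    · refine ⟨κ, hrk, Or.inr ⟨by omega, ?_⟩, ?_⟩
      · rw [show 2 * (m + 1) + 1 = 2 * m + 3 by ring]
        exact hκ1
      · obtain ⟨t, rfl⟩ : ∃ t, r = κ + t := ⟨r - κ, by omega⟩
        have h4 : NN m 4 ≤ NN m (e + 1) := NN_mono_right (by omega)
        have h5 := NNb_four m
        have h6 : 4 * m + 2 ≤ NN m (e + 1) := by
          obtain ⟨s, rfl⟩ : ∃ s, m = s + 2 := ⟨m - 2, by omega⟩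
          have e1 : (s + 2 + 4) * (s + 2 + 3) * (s + 2 + 2) * (s + 2 + 1) =
              s ^ 4 + 18 * s ^ 3 + 119 * s ^ 2 + 342 * s + 360 := by ring
          rw [e1] at h5
          have : 0 ≤ s ^ 4 + 18 * s ^ 3 + 119 * s ^ 2 := Nat.zero_le _
          omega
        have e1 : (2 * m + 3) * (κ + t) = (2 * m + 3) * κ + (2 * m + 3) * t := by ring
        have e2 : (2 * m + 3) * (κ + 1) = (2 * m + 3) * κ + (2 * m + 3) := by ring
        have e3 : (m + 1) * (κ + t) = (m + 1) * κ + (m + 1) * t := by ring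
        rw [e1] at h
        rw [e2] at hκ2
        rw [e3]
        have h7 : (2 * m + 3) * t + 2 * u + 2 * D ≤ NN m (e + 1) + (4 * m + 1) := by omega
        have h8 : (2 * m + 3) * ((m + 1) * t + u + D) ≤ (2 * m + 3) * NN m (e + 1) := by
          have e4 : (2 * m + 3) * ((m + 1) * t + u + D) =
              (m + 1) * ((2 * m + 3) * t + 2 * u + 2 * D) + (u + D) := by ring
          have e5 : (m + 1) * (NN m (e + 1) + (4 * m + 1)) + (u + D) ≤
              (2 * m + 3) * NN m (e + 1) := by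
            have e6 : (m + 1) * (4 * m + 1) ≤ (m + 1) * NN m (e + 1) :=
              Nat.mul_le_mul_left _ (by omega)
            have e7 : (m + 1) * (NN m (e + 1) + (4 * m + 1)) =
              (m + 1) * NN m (e + 1) + (m + 1) * (4 * m + 1) := by ring
            have e8 : (2 * m + 3) * NN m (e + 1) =
              (m + 1) * NN m (e + 1) + (m + 1) * NN m (e + 1) + NN m (e + 1) := by ring
            omega
          rw [e4]
          exact (Nat.add_le_add_right (Nat.mul_le_mul_left _ h7) _).trans e5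
        have h9 := Nat.le_of_mul_le_mul_left h8 (by omega)
        omega
  · have he2 : e = 2 := by omega
    subst he2
    refine ⟨1, hr, Or.inl le_rfl, ?_⟩
    norm_num at *
    -- `n N2 = 3 NH1`
    have h5 := NNb_two (m + 1)
    have h6 := NNb_three m
    have h7 : (m + 1) * NN (m + 1) 2 = 3 * NN m 3 := by
      have : 2 * ((m + 1) * NN (m + 1) 2) = 2 * (3 * NN m 3) := by
        calc 2 * ((m + 1) * NN (m + 1) 2) = (m + 1) * (2 * NN (m + 1) 2) := by ring
          _ = 2 * (3 * NN m 3) := by rw [h5]; linarith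
      omega
    rw [hN] at h
    obtain ⟨l, hl⟩ : ∃ l, l = m - 2 := ⟨_, rfl⟩
    have hml : m = l + 2 := by omega
    have h8 : (2 * m + 3) * ((m + 1) * r + u + D) ≤ (2 * m + 3) * (NN m 3 + (m + 1)) := by
      have e4 : (2 * m + 3) * ((m + 1) * r + u + D) =
          (m + 1) * ((2 * m + 3) * r + 2 * u + 2 * D) + (u + D) := by ring
      have e5 : (m + 1) * (NN m 3 + NN (m + 1) 2 + (2 * m - 1)) + (u + D) ≤
          (2 * m + 3) * (NN m 3 + (m + 1)) := by
        obtain ⟨a, ha⟩ : ∃ a, 2 * m - 1 = a := ⟨_, rfl⟩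
        have ha' : a + 1 = 2 * m := by omega
        rw [ha]
        have e6 : (m + 1) * (NN m 3 + NN (m + 1) 2 + a) =
            (m + 1) * NN m 3 + (m + 1) * NN (m + 1) 2 + (m + 1) * a := by ring
        rw [e6, h7]
        have e7 : (2 * m + 3) * (NN m 3 + (m + 1)) =
          (m + 1) * NN m 3 + 4 * NN m 3 + (m - 2) * NN m 3 + (2 * m + 3) * (m + 1) := by
          rw [← hl, hml]
          ring
        rw [e7]
        have e8 : (m + 1) * a ≤ (2 * m + 3) * (m + 1) := by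
          rw [mul_comm (2 * m + 3)]
          exact Nat.mul_le_mul_left _ (by omega)
        omega
      rw [e4]
      exact (Nat.add_le_add_right (Nat.mul_le_mul_left _ h) _).trans e5
    have h9 := Nat.le_of_mul_le_mul_left h8 (by omega)
    exact h9

theorem NUM : S_NUM := by
  intro n d q D hn hd hD1 hDn hq hμ
  obtain ⟨m, rfl⟩ : ∃ m, n = m + 1 := ⟨n - 1, by omega⟩
  obtain ⟨e, rfl⟩ : ∃ e, d = e + 2 := ⟨d - 2, by omega⟩
  have hm : 2 ≤ m := by omega
  have he : 2 ≤ e := by omega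
  rw [show m + 1 - 1 = m by omega, show e + 2 - 1 = e + 1 by omega, show e + 2 - 2 = e by omega,
    show 2 * (m + 1) - 1 = 2 * m + 1 by omega]
  have hN : NN (m + 1) (e + 2) = NN m (e + 2) + NN (m + 1) (e + 1) := NN_succ m (e + 1)
  have hN1 := NN_succ m e
  -- `(2n+1) q + 2 D + 1 ≤ N`
  have hq1 : (2 * m + 3) * q + 2 * D + 1 ≤ NN (m + 1) (e + 2) := by
    have h1 : (m + 1) * ((2 * m + 3) * q + 2 * D) < (m + 1) * NN (m + 1) (e + 2) := by
      refine lt_of_lt_of_le ?_ hμ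
      have : (2 * (m + 1) + 1) * ((m + 1) * q + D) =
        (m + 1) * ((2 * m + 3) * q + 2 * D) + D := by ring
      omega
    have := Nat.lt_of_mul_lt_mul_left h1
    omega
  obtain ⟨U, hU⟩ : ∃ U, U = NN m (e + 2) / (2 * m + 1) := ⟨_, rfl⟩
  have hU1 : (2 * m + 1) * U ≤ NN m (e + 2) := by rw [hU]; exact Nat.mul_div_le _ _
  have hU2 : NN m (e + 2) < (2 * m + 1) * (U + 1) := by
    rw [hU]; exact Nat.lt_mul_div_succ _ (by omega)
  have k2 := num_m hm he
  have k3 : m + 2 ≤ NN (m + 1) e := by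
    have h1 : NN (m + 1) 1 ≤ NN (m + 1) e := NN_mono_right (by omega)
    rw [NN_right_one] at h1
    exact h1
  rcases Nat.lt_or_ge U q with hUq | hUq
  · -- case B
    obtain ⟨r, rfl⟩ : ∃ r, q = U + r := ⟨q - U, by omega⟩
    have hr : 1 ≤ r := by omega
    have e2 : (2 * m + 1) * (U + 1) = (2 * m + 1) * U + (2 * m + 1) := by ring
    rw [e2] at hU2
    have e3 : (2 * m + 3) * (U + r) = (2 * m + 1) * U + 2 * U + (2 * m + 3) * r := by ring
    rw [e3] at hq1
    have h1 : (2 * m + 3) * r + 2 * U + 2 * D + 1 ≤ NN (m + 1) (e + 1) + 2 * m := by omega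
    obtain ⟨k, hk1, hk2, hk3⟩ := num_k (D := D) hm he (by omega) hr hU1 (by omega)
    have e4 : (2 * (m + 1) + 1) * (r + 1) = (2 * m + 3) * r + (2 * m + 3) := by ring
    have e5 : 2 * (m + 1) * r + r = (2 * m + 3) * r := by ring
    refine ⟨U, r, k, rfl, ?_, hU1, ?_, hk1, hk2, ?_, hk3⟩
    all_goals
      by_cases hex : e ≠ 2 ∨ 5 ≤ m
      · have hb := num_big hm he hex
        have hU3 : 2 * m ≤ U := by
          by_contra hc
          have : (2 * m + 1) * (U + 1) ≤ (2 * m + 1) * (2 * m) :=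
            Nat.mul_le_mul_left _ (by omega)
          omega
        omega
      · push Not at hex
        obtain ⟨hex1, hex2⟩ := hex
        subst hex1
        have f4 := NNb_four m
        have f3 := NNb_three (m + 1)
        norm_num at *
        interval_cases m <;> norm_num at * <;> omega
  · -- case A
    have hu : (2 * m + 1) * q ≤ NN m (e + 2) := (Nat.mul_le_mul_left _ hUq).trans hU1
    have k1 := num_u hm he hu
    refine ⟨q, 0, 0, rfl, hq, hu, ?_, le_rfl, Or.inl (by omega), ?_, ?_⟩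
    · omega
    · omega
    · omega

end Pool.Agent.WarM
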