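import Pool.Agent.WarM.MB
import Pool.Agent.WarM.PB

/-!
# Simultaneous Waring decompositions (MP_db021c_ag): the block lemma in all degrees   (helper27)
-/

set_option autoImplicit false

open Module MvPolynomial
open Pool.Agent.War

namespace Pool.Agent.WarM

/-- more simple points -/
theorem Block_anti {n d b μ μ' : ℕ} (h : Block n d b μ') (hμ : μ ≤ μ')
    (hm : (b * μ' + n - 1) / n = (b * μ + n - 1) / n) : Block n d b μ := by
  unfold Block at h
  rw [hm] at h
  obtain ⟨z, a, y, hK⟩ := h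
  refine ⟨z, a, fun i => if hi : i.val < NN n d - μ' - (b * μ + n - 1) / n then y ⟨i, hi⟩ else 0,
    ?_⟩
  intro f hf h1 h2 h3
  refine hK f hf h1 h2 fun i j => ?_
  have := h3 ⟨i.val, by omega⟩ j
  simpa using this

theorem NN_four_ge {m : ℕ} (hm : 2 ≤ m) : (2 * (m + 1) + 1) * m ≤ NN (m + 1) 4 := by
  have h := NNb_four (m + 1)
  obtain ⟨t, rfl⟩ : ∃ t, m = t + 2 := ⟨m - 2, by omega⟩
  have e1 : (t + 2 + 1 + 4) * (t + 2 + 1 + 3) * (t + 2 + 1 + 2) * (t + 2 + 1 + 1) =
      t ^ 4 + 22 * t ^ 3 + 179 * t ^ 2 + 638 * t + 840 := by ring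
  have e2 : (2 * (t + 2 + 1) + 1) * (t + 2) = 2 * t ^ 2 + 11 * t + 14 := by ring
  rw [e1] at h
  rw [e2]
  have : 0 ≤ t ^ 4 + 22 * t ^ 3 + 131 * t ^ 2 := Nat.zero_le _
  omega

theorem BLKA (hAH : S_AH) (hSB : S_SB) : S_BLKA := by
  intro n d b μ hn hd hb1 hbn hnμ hμ
  obtain ⟨ν, rfl⟩ : ∃ ν, n = ν + 1 := ⟨n - 1, by omega⟩
  have hμq : (ν + 1) * (μ / (ν + 1)) + μ % (ν + 1) = μ := Nat.div_add_mod μ (ν + 1)
  have hDlt : μ % (ν + 1) < ν + 1 := Nat.mod_lt _ (by omega)
  have hq1 : 1 ≤ μ / (ν + 1) := (Nat.one_le_div_iff (by omega)).2 hnμ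
  by_cases hD0 : μ % (ν + 1) = 0
  · -- `D = 0`
    rw [hD0, add_zero] at hμq
    clear hD0 hDlt
    generalize μ / (ν + 1) = q at hμq hq1
    have hG : GG (ν + 1) d q := by
      refine hAH _ _ _ (by omega) (by omega) ?_
      refine Nat.le_of_mul_le_mul_left (c := ν + 1) ?_ (by omega)
      calc (ν + 1) * ((2 * (ν + 1) + 1) * q) =
          (2 * (ν + 1) + 1) * ((ν + 1) * q) := by ring
        _ ≤ _ := by rw [hμq]; exact hμ
    refine PB (ν + 1) d b q μ (by omega) hb1 hG hμq.ge ?_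
    have := arith4C1 (b := b) (D := 0) (ν := ν) (q := q) (μ := μ) (by rw [add_zero]; exact hμq)
    rw [this, mul_zero, zero_add, Nat.div_eq_of_lt (show ν < ν + 1 by omega), add_zero]
  rcases Nat.lt_or_ge (μ / (ν + 1) + μ % (ν + 1)) (ν + 1) with hS | hS
  · -- small case
    obtain ⟨hc1, hc2, hc3⟩ := arith3C1 (b := b) hDlt hbn
    have hm := arith4C1 (b := b) hμq
    have hcl : (ν + 1) * ((b * (μ % (ν + 1)) + ν) / (ν + 1)) < b * (μ % (ν + 1)) + (ν + 1) := by
      have := Nat.mul_div_le (b * (μ % (ν + 1)) + ν) (ν + 1)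
      omega
    generalize μ / (ν + 1) = q at hS hm hμq hq1
    generalize μ % (ν + 1) = D at hS hm hμq hDlt hD0 hc1 hc2 hc3 hcl
    generalize (b * D + ν) / (ν + 1) = c at hc1 hc2 hc3 hm hcl
    have hD1 : 1 ≤ D := by omega
    have hN4 : (2 * (ν + 1) + 1) * ν ≤ NN (ν + 1) d :=
      (NN_four_ge (by omega)).trans (NN_mono_right hd)
    rcases Nat.lt_or_ge c b with hcb | hcb
    · -- `c < b`
      have hDD : D ≤ (ν + 1) * c / b := (Nat.le_div_iff_mul_le (by omega)).2 (by
        rw [mul_comm D b]; exact hc3)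
      have hD'1 : b * ((ν + 1) * c / b) ≤ (ν + 1) * c := Nat.mul_div_le _ _
      have hD'2 : (ν + 1) * c / b < ν + 1 := by
        rw [Nat.div_lt_iff_lt_mul (by omega)]
        exact Nat.mul_lt_mul_of_pos_left hcb (by omega)
      have hc0 : 1 ≤ c := by
        by_contra hc
        have : c = 0 := by omega
        subst this
        have : 1 ≤ b * D := Nat.mul_pos (by omega) (by omega)
        omega
      obtain ⟨D', hD'⟩ : ∃ D', D' = (ν + 1) * c / b := ⟨_, rfl⟩
      rw [← hD'] at hDD hD'1 hD'2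
      have hbD : b * D ≤ b * D' := Nat.mul_le_mul_left _ hDD
      have hm' : (b * ((ν + 1) * q + D') + (ν + 1) - 1) / (ν + 1) = b * q + c := by
        rw [arith4C1 rfl]
        congr 1
        refine Nat.div_eq_of_lt_le ?_ ?_
        · rw [mul_comm c]
          omega
        · rw [mul_comm (c + 1), mul_add, mul_one]
          omega
      have hB : Block (ν + 1) d b ((ν + 1) * q + D') := by
        rcases Nat.lt_or_ge (q + D') (ν + 1) with hS' | hS'
        · exact hSB (ν + 1) d b c q D' hn hd hbn hc0 hcb hq1 hD' hS'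
        · have e1 : ((ν + 1) * q + D') % (ν + 1) = D' := by
            rw [Nat.mul_add_mod, Nat.mod_eq_of_lt hD'2]
          have e2 : ((ν + 1) * q + D') / (ν + 1) = q := by
            rw [Nat.mul_add_div (by omega), Nat.div_eq_of_lt hD'2, add_zero]
          refine MB hAH (ν + 1) d b _ hn hd hb1 hbn ?_ (by rw [e1]; omega) (by rw [e1, e2]; exact hS')
          have e3 : (ν + 1) * q + D' ≤ (ν + 1) * ν := by
            have : (ν + 1) * (q + 1) ≤ (ν + 1) * ν := Nat.mul_le_mul_left _ (by omega)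
            rw [mul_add, mul_one] at this
            omega
          calc (2 * (ν + 1) + 1) * ((ν + 1) * q + D') ≤ (2 * (ν + 1) + 1) * ((ν + 1) * ν) :=
                Nat.mul_le_mul_left _ e3
            _ = (ν + 1) * ((2 * (ν + 1) + 1) * ν) := by ring
            _ ≤ _ := Nat.mul_le_mul_left _ hN4
      exact Block_anti hB (by omega) (by rw [hm', hm])
    · -- `c = b`
      have hcb' : c = b := by omega
      have hG : GG (ν + 1) d (q + 1) :=
        hAH _ _ _ (by omega) (by omega) ((Nat.mul_le_mul_left _ (by omega)).trans hN4)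
      refine PB (ν + 1) d b (q + 1) μ (by omega) hb1 hG (by rw [mul_add, mul_one]; omega) ?_
      rw [hm, hcb', mul_add, mul_one]
  · exact MB hAH (ν + 1) d b μ hn hd hb1 hbn hμ hD0 hS

end Pool.Agent.WarM
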