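import Pool.Agent.WarM.CubG

/-!
# Independent double points in degree three: the systems for one block and for no block   (helper27)
-/

set_option autoImplicit false

namespace Pool.Agent.WarM.CubAH

theorem chk20 : Chk2 0 3 0 := by
  refine ⟨fun i => Sum.elim (![![1, 0, 0], ![0, 1, 0], ![0, 0, 1]] i) Fin.elim0,
    Fin.elim0, ?_⟩
  intro F G h
  have e000 : 3 * F 0 (Sum.inl 0) = 0 := by
    refine Eq.trans ?_ (h 0 (Sum.inl 0) (Sum.inl 0))
    simp [Fin.sum_univ_three]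
    try ring
  have e001 : F 0 (Sum.inl 1) = 0 := by
    refine Eq.trans ?_ (h 0 (Sum.inl 0) (Sum.inl 1))
    simp [Fin.sum_univ_three]
    try ring
  have e002 : F 0 (Sum.inl 2) = 0 := by
    refine Eq.trans ?_ (h 0 (Sum.inl 0) (Sum.inl 2))
    simp [Fin.sum_univ_three]
    try ring
  have e011 : F 1 (Sum.inl 0) = 0 := by
    refine Eq.trans ?_ (h 0 (Sum.inl 1) (Sum.inl 1))
    simp [Fin.sum_univ_three]
    try ring
  have e022 : F 2 (Sum.inl 0) = 0 := by
    refine Eq.trans ?_ (h 0 (Sum.inl 2) (Sum.inl 2))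
    simp [Fin.sum_univ_three]
    try ring
  have e111 : 3 * F 1 (Sum.inl 1) = 0 := by
    refine Eq.trans ?_ (h 1 (Sum.inl 1) (Sum.inl 1))
    simp [Fin.sum_univ_three]
    try ring
  have e112 : F 1 (Sum.inl 2) = 0 := by
    refine Eq.trans ?_ (h 1 (Sum.inl 1) (Sum.inl 2))
    simp [Fin.sum_univ_three]
    try ring
  have e122 : F 2 (Sum.inl 1) = 0 := by
    refine Eq.trans ?_ (h 1 (Sum.inl 2) (Sum.inl 2))
    simp [Fin.sum_univ_three]
    try ring
  have e222 : 3 * F 2 (Sum.inl 2) = 0 := by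
    refine Eq.trans ?_ (h 2 (Sum.inl 2) (Sum.inl 2))
    simp [Fin.sum_univ_three]
    try ring
  have zF00 : F 0 (Sum.inl 0) = 0 := by
    linear_combination (1 / 3) * e000
  have zF01 : F 0 (Sum.inl 1) = 0 := by
    linear_combination e001
  have zF02 : F 0 (Sum.inl 2) = 0 := by
    linear_combination e002
  have zF10 : F 1 (Sum.inl 0) = 0 := by
    linear_combination e011
  have zF11 : F 1 (Sum.inl 1) = 0 := by
    linear_combination (1 / 3) * e111
  have zF12 : F 1 (Sum.inl 2) = 0 := by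
    linear_combination e112
  have zF20 : F 2 (Sum.inl 0) = 0 := by
    linear_combination e022
  have zF21 : F 2 (Sum.inl 1) = 0 := by
    linear_combination e122
  have zF22 : F 2 (Sum.inl 2) = 0 := by
    linear_combination (1 / 3) * e222
  clear e000 e001 e002 e011 e022 e111 e112 e122 e222
  refine ⟨fun j v => ?_, fun i u => ?_⟩
  · rcases v with v | v
    · fin_cases j <;> fin_cases v <;> assumption
    · exact v.elim0
  · exact i.elim0

theorem chk21 : Chk2 1 4 1 := by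
  refine ⟨fun i => Sum.elim (![![1, 0, 0], ![0, 1, 0], ![0, 0, 1], ![1, 1, 1]] i) (![![0], ![0], ![0], ![1]] i),
    ![![1]], ?_⟩
  intro F G h
  have e000 : 3 * F 0 (Sum.inl 0) + 3 * F 3 (Sum.inl 0) = 0 := by
    refine Eq.trans ?_ (h 0 (Sum.inl 0) (Sum.inl 0))
    simp [Fin.sum_univ_four]
    try ring
  have e111 : 3 * F 1 (Sum.inl 1) + 3 * F 3 (Sum.inl 1) = 0 := by
    refine Eq.trans ?_ (h 1 (Sum.inl 1) (Sum.inl 1))
    simp [Fin.sum_univ_four]
    try ring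
  have e222 : 3 * F 2 (Sum.inl 2) + 3 * F 3 (Sum.inl 2) = 0 := by
    refine Eq.trans ?_ (h 2 (Sum.inl 2) (Sum.inl 2))
    simp [Fin.sum_univ_four]
    try ring
  have e001 : F 0 (Sum.inl 1) + 2 * F 3 (Sum.inl 0) + F 3 (Sum.inl 1) = 0 := by
    refine Eq.trans ?_ (h 0 (Sum.inl 0) (Sum.inl 1))
    simp [Fin.sum_univ_four]
    try ring
  have e002 : F 0 (Sum.inl 2) + 2 * F 3 (Sum.inl 0) + F 3 (Sum.inl 2) = 0 := by
    refine Eq.trans ?_ (h 0 (Sum.inl 0) (Sum.inl 2))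
    simp [Fin.sum_univ_four]
    try ring
  have e003 : F 0 (Sum.inr 0) + 2 * F 3 (Sum.inl 0) + F 3 (Sum.inr 0) = 0 := by
    refine Eq.trans ?_ (h 0 (Sum.inl 0) (Sum.inr 0))
    simp [Fin.sum_univ_four]
    try ring
  have e011 : F 1 (Sum.inl 0) + F 3 (Sum.inl 0) + 2 * F 3 (Sum.inl 1) = 0 := by
    refine Eq.trans ?_ (h 0 (Sum.inl 1) (Sum.inl 1))
    simp [Fin.sum_univ_four]
    try ring
  have e012 : F 3 (Sum.inl 0) + F 3 (Sum.inl 1) + F 3 (Sum.inl 2) = 0 := by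
    refine Eq.trans ?_ (h 0 (Sum.inl 1) (Sum.inl 2))
    simp [Fin.sum_univ_four]
    try ring
  have e013 : F 3 (Sum.inl 0) + F 3 (Sum.inl 1) + F 3 (Sum.inr 0) = 0 := by
    refine Eq.trans ?_ (h 0 (Sum.inl 1) (Sum.inr 0))
    simp [Fin.sum_univ_four]
    try ring
  have e022 : F 2 (Sum.inl 0) + F 3 (Sum.inl 0) + 2 * F 3 (Sum.inl 2) = 0 := by
    refine Eq.trans ?_ (h 0 (Sum.inl 2) (Sum.inl 2))
    simp [Fin.sum_univ_four]
    try ring
  have e023 : F 3 (Sum.inl 0) + F 3 (Sum.inl 2) + F 3 (Sum.inr 0) = 0 := by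
    refine Eq.trans ?_ (h 0 (Sum.inl 2) (Sum.inr 0))
    simp [Fin.sum_univ_four]
    try ring
  have e033 : F 3 (Sum.inl 0) + 2 * F 3 (Sum.inr 0) + G 0 0 = 0 := by
    refine Eq.trans ?_ (h 0 (Sum.inr 0) (Sum.inr 0))
    simp [Fin.sum_univ_four]
    try ring
  have e112 : F 1 (Sum.inl 2) + 2 * F 3 (Sum.inl 1) + F 3 (Sum.inl 2) = 0 := by
    refine Eq.trans ?_ (h 1 (Sum.inl 1) (Sum.inl 2))
    simp [Fin.sum_univ_four]
    try ring
  have e113 : F 1 (Sum.inr 0) + 2 * F 3 (Sum.inl 1) + F 3 (Sum.inr 0) = 0 := by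
    refine Eq.trans ?_ (h 1 (Sum.inl 1) (Sum.inr 0))
    simp [Fin.sum_univ_four]
    try ring
  have e122 : F 2 (Sum.inl 1) + F 3 (Sum.inl 1) + 2 * F 3 (Sum.inl 2) = 0 := by
    refine Eq.trans ?_ (h 1 (Sum.inl 2) (Sum.inl 2))
    simp [Fin.sum_univ_four]
    try ring
  have e123 : F 3 (Sum.inl 1) + F 3 (Sum.inl 2) + F 3 (Sum.inr 0) = 0 := by
    refine Eq.trans ?_ (h 1 (Sum.inl 2) (Sum.inr 0))
    simp [Fin.sum_univ_four]
    try ring
  have e133 : F 3 (Sum.inl 1) + 2 * F 3 (Sum.inr 0) + G 0 1 = 0 := by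
    refine Eq.trans ?_ (h 1 (Sum.inr 0) (Sum.inr 0))
    simp [Fin.sum_univ_four]
    try ring
  have e223 : F 2 (Sum.inr 0) + 2 * F 3 (Sum.inl 2) + F 3 (Sum.inr 0) = 0 := by
    refine Eq.trans ?_ (h 2 (Sum.inl 2) (Sum.inr 0))
    simp [Fin.sum_univ_four]
    try ring
  have e233 : F 3 (Sum.inl 2) + 2 * F 3 (Sum.inr 0) + G 0 2 = 0 := by
    refine Eq.trans ?_ (h 2 (Sum.inr 0) (Sum.inr 0))
    simp [Fin.sum_univ_four]
    try ring
  have zF00 : F 0 (Sum.inl 0) = 0 := by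
    linear_combination (1 / 3) * e000 - (1 / 3) * e012 - (1 / 3) * e013 - (1 / 3) * e023 + (2 / 3) * e123
  have zF01 : F 0 (Sum.inl 1) = 0 := by
    linear_combination e001 - e012 - e013 + e123
  have zF02 : F 0 (Sum.inl 2) = 0 := by
    linear_combination e002 - e012 - e023 + e123
  have zF03 : F 0 (Sum.inr 0) = 0 := by
    linear_combination e003 - e013 - e023 + e123
  have zF10 : F 1 (Sum.inl 0) = 0 := by
    linear_combination e011 - e012 - e013 + e023
  have zF11 : F 1 (Sum.inl 1) = 0 := by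
    linear_combination (1 / 3) * e111 - (1 / 3) * e012 - (1 / 3) * e013 + (2 / 3) * e023 - (1 / 3) * e123
  have zF12 : F 1 (Sum.inl 2) = 0 := by
    linear_combination -e012 + e023 + e112 - e123
  have zF13 : F 1 (Sum.inr 0) = 0 := by
    linear_combination -e013 + e023 + e113 - e123
  have zF20 : F 2 (Sum.inl 0) = 0 := by
    linear_combination -e012 + e013 + e022 - e023
  have zF21 : F 2 (Sum.inl 1) = 0 := by
    linear_combination -e012 + e013 + e122 - e123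
  have zF22 : F 2 (Sum.inl 2) = 0 := by
    linear_combination (1 / 3) * e222 - (1 / 3) * e012 + (2 / 3) * e013 - (1 / 3) * e023 - (1 / 3) * e123
  have zF23 : F 2 (Sum.inr 0) = 0 := by
    linear_combination e013 - e023 - e123 + e223
  have zF30 : F 3 (Sum.inl 0) = 0 := by
    linear_combination (1 / 3) * e012 + (1 / 3) * e013 + (1 / 3) * e023 - (2 / 3) * e123
  have zF31 : F 3 (Sum.inl 1) = 0 := by
    linear_combination (1 / 3) * e012 + (1 / 3) * e013 - (2 / 3) * e023 + (1 / 3) * e123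
  have zF32 : F 3 (Sum.inl 2) = 0 := by
    linear_combination (1 / 3) * e012 - (2 / 3) * e013 + (1 / 3) * e023 + (1 / 3) * e123
  have zF33 : F 3 (Sum.inr 0) = 0 := by
    linear_combination -(2 / 3) * e012 + (1 / 3) * e013 + (1 / 3) * e023 + (1 / 3) * e123
  have zG00 : G 0 0 = 0 := by
    linear_combination e012 - e013 - e023 + e033
  have zG01 : G 0 1 = 0 := by
    linear_combination e012 - e013 - e123 + e133
  have zG02 : G 0 2 = 0 := by
    linear_combination e012 - e023 - e123 + e233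
  clear e000 e111 e222 e001 e002 e003 e011 e012 e013 e022 e023 e033 e112 e113 e122 e123 e133 e223 e233
  refine ⟨fun j v => ?_, fun i u => ?_⟩
  · rcases v with v | v
    · fin_cases j <;> fin_cases v <;> assumption
    · fin_cases j <;> fin_cases v <;> assumption
  · fin_cases i <;> fin_cases u <;> assumption

theorem chk22 : Chk2 2 5 1 := by
  refine ⟨fun i => Sum.elim (![![1, 0, 0], ![0, 1, 0], ![0, 0, 1], ![1, 1, 0], ![0, -1, 1]] i) (![![0, 0], ![0, 0], ![0, 0], ![0, -1], ![1, 1]] i),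
    ![![1, 0]], ?_⟩
  intro F G h
  have e023 : F 4 (Sum.inl 0) = 0 := by
    refine Eq.trans ?_ (h 0 (Sum.inl 2) (Sum.inr 0))
    simp [Fin.sum_univ_five]
    try ring
  have e000 : 3 * F 0 (Sum.inl 0) + 3 * F 3 (Sum.inl 0) = 0 := by
    refine Eq.trans ?_ (h 0 (Sum.inl 0) (Sum.inl 0))
    simp [Fin.sum_univ_five]
    try ring
  have e002 : F 0 (Sum.inl 2) + F 3 (Sum.inl 2) = 0 := by
    refine Eq.trans ?_ (h 0 (Sum.inl 0) (Sum.inl 2))
    simp [Fin.sum_univ_five]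
    try ring
  have e003 : F 0 (Sum.inr 0) + F 3 (Sum.inr 0) = 0 := by
    refine Eq.trans ?_ (h 0 (Sum.inl 0) (Sum.inr 0))
    simp [Fin.sum_univ_five]
    try ring
  have e012 : F 3 (Sum.inl 2) - F 4 (Sum.inl 0) = 0 := by
    refine Eq.trans ?_ (h 0 (Sum.inl 1) (Sum.inl 2))
    simp [Fin.sum_univ_five]
    try ring
  have e013 : F 3 (Sum.inr 0) - F 4 (Sum.inl 0) = 0 := by
    refine Eq.trans ?_ (h 0 (Sum.inl 1) (Sum.inr 0))
    simp [Fin.sum_univ_five]
    try ring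
  have e022 : F 2 (Sum.inl 0) + F 4 (Sum.inl 0) = 0 := by
    refine Eq.trans ?_ (h 0 (Sum.inl 2) (Sum.inl 2))
    simp [Fin.sum_univ_five]
    try ring
  have e033 : F 4 (Sum.inl 0) + G 0 0 = 0 := by
    refine Eq.trans ?_ (h 0 (Sum.inr 0) (Sum.inr 0))
    simp [Fin.sum_univ_five]
    try ring
  have e222 : 3 * F 2 (Sum.inl 2) + 3 * F 4 (Sum.inl 2) = 0 := by
    refine Eq.trans ?_ (h 2 (Sum.inl 2) (Sum.inl 2))
    simp [Fin.sum_univ_five]
    try ring
  have e001 : F 0 (Sum.inl 1) + 2 * F 3 (Sum.inl 0) + F 3 (Sum.inl 1) = 0 := by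
    refine Eq.trans ?_ (h 0 (Sum.inl 0) (Sum.inl 1))
    simp [Fin.sum_univ_five]
    try ring
  have e004 : F 0 (Sum.inr 1) - 2 * F 3 (Sum.inl 0) + F 3 (Sum.inr 1) = 0 := by
    refine Eq.trans ?_ (h 0 (Sum.inl 0) (Sum.inr 1))
    simp [Fin.sum_univ_five]
    try ring
  have e044 : F 3 (Sum.inl 0) - 2 * F 3 (Sum.inr 1) + F 4 (Sum.inl 0) = 0 := by
    refine Eq.trans ?_ (h 0 (Sum.inr 1) (Sum.inr 1))
    simp [Fin.sum_univ_five]
    try ring
  have e111 : 3 * F 1 (Sum.inl 1) + 3 * F 3 (Sum.inl 1) + 3 * F 4 (Sum.inl 1) = 0 := by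
    refine Eq.trans ?_ (h 1 (Sum.inl 1) (Sum.inl 1))
    simp [Fin.sum_univ_five]
    try ring
  have e122 : F 2 (Sum.inl 1) + F 4 (Sum.inl 1) - 2 * F 4 (Sum.inl 2) = 0 := by
    refine Eq.trans ?_ (h 1 (Sum.inl 2) (Sum.inl 2))
    simp [Fin.sum_univ_five]
    try ring
  have e123 : F 4 (Sum.inl 1) - F 4 (Sum.inl 2) - F 4 (Sum.inr 0) = 0 := by
    refine Eq.trans ?_ (h 1 (Sum.inl 2) (Sum.inr 0))
    simp [Fin.sum_univ_five]
    try ring
  have e133 : F 4 (Sum.inl 1) - 2 * F 4 (Sum.inr 0) + G 0 1 = 0 := by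
    refine Eq.trans ?_ (h 1 (Sum.inr 0) (Sum.inr 0))
    simp [Fin.sum_univ_five]
    try ring
  have e223 : F 2 (Sum.inr 0) + 2 * F 4 (Sum.inl 2) + F 4 (Sum.inr 0) = 0 := by
    refine Eq.trans ?_ (h 2 (Sum.inl 2) (Sum.inr 0))
    simp [Fin.sum_univ_five]
    try ring
  have e224 : F 2 (Sum.inr 1) + 2 * F 4 (Sum.inl 2) + F 4 (Sum.inr 1) = 0 := by
    refine Eq.trans ?_ (h 2 (Sum.inl 2) (Sum.inr 1))
    simp [Fin.sum_univ_five]
    try ring
  have e233 : F 4 (Sum.inl 2) + 2 * F 4 (Sum.inr 0) + G 0 2 = 0 := by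
    refine Eq.trans ?_ (h 2 (Sum.inr 0) (Sum.inr 0))
    simp [Fin.sum_univ_five]
    try ring
  have e234 : F 4 (Sum.inl 2) + F 4 (Sum.inr 0) + F 4 (Sum.inr 1) = 0 := by
    refine Eq.trans ?_ (h 2 (Sum.inr 0) (Sum.inr 1))
    simp [Fin.sum_univ_five]
    try ring
  have e244 : F 3 (Sum.inl 2) + F 4 (Sum.inl 2) + 2 * F 4 (Sum.inr 1) = 0 := by
    refine Eq.trans ?_ (h 2 (Sum.inr 1) (Sum.inr 1))
    simp [Fin.sum_univ_five]
    try ring
  have e011 : F 1 (Sum.inl 0) + F 3 (Sum.inl 0) + 2 * F 3 (Sum.inl 1) + F 4 (Sum.inl 0) = 0 := by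
    refine Eq.trans ?_ (h 0 (Sum.inl 1) (Sum.inl 1))
    simp [Fin.sum_univ_five]
    try ring
  have e014 : -F 3 (Sum.inl 0) - F 3 (Sum.inl 1) + F 3 (Sum.inr 1) - F 4 (Sum.inl 0) = 0 := by
    refine Eq.trans ?_ (h 0 (Sum.inl 1) (Sum.inr 1))
    simp [Fin.sum_univ_five]
    try ring
  have e112 : F 1 (Sum.inl 2) + F 3 (Sum.inl 2) - 2 * F 4 (Sum.inl 1) + F 4 (Sum.inl 2) = 0 := by
    refine Eq.trans ?_ (h 1 (Sum.inl 1) (Sum.inl 2))
    simp [Fin.sum_univ_five]
    try ring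
  have e113 : F 1 (Sum.inr 0) + F 3 (Sum.inr 0) - 2 * F 4 (Sum.inl 1) + F 4 (Sum.inr 0) = 0 := by
    refine Eq.trans ?_ (h 1 (Sum.inl 1) (Sum.inr 0))
    simp [Fin.sum_univ_five]
    try ring
  have e134 : -F 3 (Sum.inr 0) + F 4 (Sum.inl 1) - F 4 (Sum.inr 0) - F 4 (Sum.inr 1) = 0 := by
    refine Eq.trans ?_ (h 1 (Sum.inr 0) (Sum.inr 1))
    simp [Fin.sum_univ_five]
    try ring
  have e144 : F 3 (Sum.inl 1) - 2 * F 3 (Sum.inr 1) + F 4 (Sum.inl 1) - 2 * F 4 (Sum.inr 1) = 0 := by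
    refine Eq.trans ?_ (h 1 (Sum.inr 1) (Sum.inr 1))
    simp [Fin.sum_univ_five]
    try ring
  have e114 : F 1 (Sum.inr 1) - 2 * F 3 (Sum.inl 1) + F 3 (Sum.inr 1) - 2 * F 4 (Sum.inl 1) + F 4 (Sum.inr 1) = 0 := by
    refine Eq.trans ?_ (h 1 (Sum.inl 1) (Sum.inr 1))
    simp [Fin.sum_univ_five]
    try ring
  have zF00 : F 0 (Sum.inl 0) = 0 := by
    linear_combination -(1 / 3) * e023 + (1 / 3) * e000 - (2 / 3) * e012 - (2 / 3) * e013 - (1 / 3) * e044 - (2 / 3) * e234 + (2 / 3) * e244 + (2 / 3) * e014 - (2 / 3) * e134 + (2 / 3) * e144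
  have zF01 : F 0 (Sum.inl 1) = 0 := by
    linear_combination -e012 - e013 + e001 - e234 + e244 + 2 * e014 - e134 + e144
  have zF02 : F 0 (Sum.inl 2) = 0 := by
    linear_combination -e023 + e002 - e012
  have zF03 : F 0 (Sum.inr 0) = 0 := by
    linear_combination -e023 + e003 - e013
  have zF04 : F 0 (Sum.inr 1) = 0 := by
    linear_combination e012 + e013 + e004 + e044 + e234 - e244 - e014 + e134 - e144
  have zF10 : F 1 (Sum.inl 0) = 0 := by
    linear_combination e044 + e011 + 2 * e014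
  have zF11 : F 1 (Sum.inl 1) = 0 := by
    linear_combination (2 / 3) * e044 + (1 / 3) * e111 - (2 / 3) * e123 - (2 / 3) * e234 + (2 / 3) * e014 - (1 / 3) * e144
  have zF12 : F 1 (Sum.inl 2) = 0 := by
    linear_combination 2 * e123 + 2 * e234 - e244 + e112
  have zF13 : F 1 (Sum.inr 0) = 0 := by
    linear_combination e123 + e234 + e113 + e134
  have zF14 : F 1 (Sum.inr 1) = 0 := by
    linear_combination -e044 + e123 + e234 - e014 + e144 + e114
  have zF20 : F 2 (Sum.inl 0) = 0 := by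
    linear_combination -e023 + e022
  have zF21 : F 2 (Sum.inl 1) = 0 := by
    linear_combination -e012 + e013 + e122 - 2 * e123 - e234 + e244 + e134
  have zF22 : F 2 (Sum.inl 2) = 0 := by
    linear_combination -(1 / 3) * e023 + (1 / 3) * e012 - (2 / 3) * e013 + (1 / 3) * e222 + (2 / 3) * e123 - (1 / 3) * e244 - (2 / 3) * e134
  have zF23 : F 2 (Sum.inr 0) = 0 := by
    linear_combination -e023 - e013 + e123 + e223 - e234 - e134
  have zF24 : F 2 (Sum.inr 1) = 0 := by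
    linear_combination e012 - e013 + e123 + e224 - e244 - e134
  have zF30 : F 3 (Sum.inl 0) = 0 := by
    linear_combination (1 / 3) * e023 + (2 / 3) * e012 + (2 / 3) * e013 + (1 / 3) * e044 + (2 / 3) * e234 - (2 / 3) * e244 - (2 / 3) * e014 + (2 / 3) * e134 - (2 / 3) * e144
  have zF31 : F 3 (Sum.inl 1) = 0 := by
    linear_combination -(2 / 3) * e023 - (1 / 3) * e012 - (1 / 3) * e013 - (2 / 3) * e044 - (1 / 3) * e234 + (1 / 3) * e244 - (2 / 3) * e014 - (1 / 3) * e134 + (1 / 3) * e144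
  have zF32 : F 3 (Sum.inl 2) = 0 := by
    linear_combination e023 + e012
  have zF33 : F 3 (Sum.inr 0) = 0 := by
    linear_combination e023 + e013
  have zF34 : F 3 (Sum.inr 1) = 0 := by
    linear_combination (2 / 3) * e023 + (1 / 3) * e012 + (1 / 3) * e013 - (1 / 3) * e044 + (1 / 3) * e234 - (1 / 3) * e244 - (1 / 3) * e014 + (1 / 3) * e134 - (1 / 3) * e144
  have zF40 : F 4 (Sum.inl 0) = 0 := by
    linear_combination e023
  have zF41 : F 4 (Sum.inl 1) = 0 := by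
    linear_combination (2 / 3) * e023 + (1 / 3) * e012 + (1 / 3) * e013 + (2 / 3) * e123 + e234 - (1 / 3) * e244 + (1 / 3) * e134
  have zF42 : F 4 (Sum.inl 2) = 0 := by
    linear_combination (1 / 3) * e023 - (1 / 3) * e012 + (2 / 3) * e013 - (2 / 3) * e123 + (1 / 3) * e244 + (2 / 3) * e134
  have zF43 : F 4 (Sum.inr 0) = 0 := by
    linear_combination (1 / 3) * e023 + (2 / 3) * e012 - (1 / 3) * e013 + (1 / 3) * e123 + e234 - (2 / 3) * e244 - (1 / 3) * e134
  have zF44 : F 4 (Sum.inr 1) = 0 := by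
    linear_combination -(2 / 3) * e023 - (1 / 3) * e012 - (1 / 3) * e013 + (1 / 3) * e123 + (1 / 3) * e244 - (1 / 3) * e134
  have zG00 : G 0 0 = 0 := by
    linear_combination -e023 + e033
  have zG01 : G 0 1 = 0 := by
    linear_combination e012 - e013 + e133 + e234 - e244 - e134
  have zG02 : G 0 2 = 0 := by
    linear_combination -e023 - e012 + e233 - 2 * e234 + e244
  clear e023 e000 e002 e003 e012 e013 e022 e033 e222 e001 e004 e044 e111 e122 e123 e133 e223 e224 e233 e234 e244 e011 e014 e112 e113 e134 e144 e114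
  refine ⟨fun j v => ?_, fun i u => ?_⟩
  · rcases v with v | v
    · fin_cases j <;> fin_cases v <;> assumption
    · fin_cases j <;> fin_cases v <;> assumption
  · fin_cases i <;> fin_cases u <;> assumption

theorem chk10 : Chk1 0 0 := ⟨Fin.elim0, fun _ _ i => i.elim0⟩

theorem chk11 : Chk1 1 1 := by
  refine ⟨![![1]], fun H h i l => ?_⟩
  have h1 := h 0 0 0
  simp at h1
  fin_cases i
  fin_cases l
  change H 0 0 = 0
  linear_combination h1 / 3

theorem chk12 : Chk1 2 1 := by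
  refine ⟨![![1, 0]], fun H h i l => ?_⟩
  have h1 := h 0 0 0
  have h2 := h 1 0 0
  simp at h1 h2
  fin_cases i
  fin_cases l
  · change H 0 0 = 0
    linear_combination h1 / 3
  · exact h2

end Pool.Agent.WarM.CubAH
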