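import Pool.Agent.WarM.Dual

/-!
# Cubics: `k² + k + e` independent double points, `n + 1 = 3k + e`

Coordinates `a_i, b_i, c_i` (`i < k`), `x_l` (`l < e`). Points `z_ij = a_i + b_j + (i+1) c_j + (j+1) c_i`
(`i ≠ j`), `z_ii = a_i + b_i + 3k c_i`, and the coordinate points `b_j`, `x_l`.
-/

set_option autoImplicit false

open Module Pool.Agent.War

namespace Pool.Agent.WarM

/-- coordinates -/
abbrev TT (k e : ℕ) := Fin k ⊕ Fin k ⊕ Fin k ⊕ Fin e

/-- points -/
abbrev II (k e : ℕ) := (Fin k × Fin k) ⊕ Fin k ⊕ Fin e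

/-- the coordinate `a_i` -/
abbrev va {k e : ℕ} (i : Fin k) : TT k e := Sum.inl i
/-- the coordinate `b_i` -/
abbrev vb {k e : ℕ} (i : Fin k) : TT k e := Sum.inr (Sum.inl i)
/-- the coordinate `c_i` -/
abbrev vc {k e : ℕ} (i : Fin k) : TT k e := Sum.inr (Sum.inr (Sum.inl i))
/-- the coordinate `x_l` -/
abbrev vx {k e : ℕ} (l : Fin e) : TT k e := Sum.inr (Sum.inr (Sum.inr l))

/-- the `c`-coordinates of `z_ij` -/
def Cf {k : ℕ} (i j m : Fin k) : ℂ :=
  if i = j then (if m = i then 3 * (k : ℂ) else 0)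
  else (if m = j then ((i : ℕ) : ℂ) + 1 else 0) + (if m = i then ((j : ℕ) : ℂ) + 1 else 0)

theorem Cf_other {k : ℕ} {i j m : Fin k} (h1 : m ≠ i) (h2 : m ≠ j) : Cf i j m = 0 := by
  unfold Cf
  rw [if_neg h1, if_neg h1, if_neg h2, add_zero, ite_self]

theorem Cf_right {k : ℕ} {i j : Fin k} (h : i ≠ j) : Cf i j j = ((i : ℕ) : ℂ) + 1 := by
  unfold Cf
  rw [if_neg h, if_pos rfl, if_neg (Ne.symm h), add_zero]

theorem Cf_left {k : ℕ} {i j : Fin k} (h : i ≠ j) : Cf i j i = ((j : ℕ) : ℂ) + 1 := by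
  unfold Cf
  rw [if_neg h, if_neg h, if_pos rfl, zero_add]

theorem Cf_diag {k : ℕ} (i : Fin k) : Cf i i i = 3 * (k : ℂ) := by
  unfold Cf
  rw [if_pos rfl, if_pos rfl]

/-- the points -/
def PT (k e : ℕ) : II k e → TT k e → ℂ
  | Sum.inl (i, _), Sum.inl i' => if i' = i then 1 else 0
  | Sum.inl (_, j), Sum.inr (Sum.inl j') => if j' = j then 1 else 0
  | Sum.inl (i, j), Sum.inr (Sum.inr (Sum.inl m)) => Cf i j m
  | Sum.inl _, Sum.inr (Sum.inr (Sum.inr _)) => 0
  | Sum.inr (Sum.inl j), Sum.inr (Sum.inl j') => if j' = j then 1 else 0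
  | Sum.inr (Sum.inr l), Sum.inr (Sum.inr (Sum.inr l')) => if l' = l then 1 else 0
  | _, _ => 0

section
variable {k e : ℕ} (Λ : II k e → TT k e → ℂ)

/-- the part of the relation from the points `z_ij` -/
theorem rel_split (h : Rel (PT k e) Λ) (u v w : TT k e) :
    (∑ i : Fin k, ∑ j : Fin k, (Λ (Sum.inl (i, j)) u * PT k e (Sum.inl (i, j)) v *
      PT k e (Sum.inl (i, j)) w + Λ (Sum.inl (i, j)) v * PT k e (Sum.inl (i, j)) u *
      PT k e (Sum.inl (i, j)) w + Λ (Sum.inl (i, j)) w * PT k e (Sum.inl (i, j)) u *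
      PT k e (Sum.inl (i, j)) v)) +
    ((∑ j : Fin k, (Λ (Sum.inr (Sum.inl j)) u * PT k e (Sum.inr (Sum.inl j)) v *
      PT k e (Sum.inr (Sum.inl j)) w + Λ (Sum.inr (Sum.inl j)) v * PT k e (Sum.inr (Sum.inl j)) u *
      PT k e (Sum.inr (Sum.inl j)) w + Λ (Sum.inr (Sum.inl j)) w * PT k e (Sum.inr (Sum.inl j)) u *
      PT k e (Sum.inr (Sum.inl j)) v)) +
    ∑ l : Fin e, (Λ (Sum.inr (Sum.inr l)) u * PT k e (Sum.inr (Sum.inr l)) v *
      PT k e (Sum.inr (Sum.inr l)) w + Λ (Sum.inr (Sum.inr l)) v * PT k e (Sum.inr (Sum.inr l)) u *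
      PT k e (Sum.inr (Sum.inr l)) w + Λ (Sum.inr (Sum.inr l)) w * PT k e (Sum.inr (Sum.inr l)) u *
      PT k e (Sum.inr (Sum.inr l)) v)) = 0 := by
  have h1 := h u v w
  rw [Fintype.sum_sum_type, Fintype.sum_sum_type, Fintype.sum_prod_type] at h1
  exact h1

/-- `a_i b_j x_l` -/
theorem E_abx (h : Rel (PT k e) Λ) (i j : Fin k) (l : Fin e) :
    Λ (Sum.inl (i, j)) (vx l) = 0 := by
  have h1 := rel_split Λ h (va i) (vb j) (vx l)
  simp [PT] at h1
  exact h1

/-- `a_i a_l b_j` -/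
theorem E_aab (h : Rel (PT k e) Λ) (i l j : Fin k) (hil : i ≠ l) :
    Λ (Sum.inl (l, j)) (va i) + Λ (Sum.inl (i, j)) (va l) = 0 := by
  have h1 := rel_split Λ h (va i) (va l) (vb j)
  simpa [PT, Finset.sum_add_distrib, hil] using h1

/-- `a_i b_j b_l` -/
theorem E_abb (h : Rel (PT k e) Λ) (i j l : Fin k) (hjl : j ≠ l) :
    Λ (Sum.inl (i, l)) (vb j) + Λ (Sum.inl (i, j)) (vb l) = 0 := by
  have h1 := rel_split Λ h (va i) (vb j) (vb l)
  simpa [PT, Finset.sum_add_distrib, hjl] using h1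

/-- `a_i a_l c_m` -/
theorem E_aac (h : Rel (PT k e) Λ) (i l m : Fin k) (hil : i ≠ l) :
    ∑ x, Λ (Sum.inl (l, x)) (va i) * Cf l x m + ∑ x, Λ (Sum.inl (i, x)) (va l) * Cf i x m = 0 := by
  have h1 := rel_split Λ h (va i) (va l) (vc m)
  simpa [PT, Finset.sum_add_distrib, hil] using h1

/-- `b_j b_l c_m` -/
theorem E_bbc (h : Rel (PT k e) Λ) (j l m : Fin k) (hjl : j ≠ l) :
    ∑ x, Λ (Sum.inl (x, l)) (vb j) * Cf x l m + ∑ x, Λ (Sum.inl (x, j)) (vb l) * Cf x j m = 0 := by
  have h1 := rel_split Λ h (vb j) (vb l) (vc m)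
  simpa [PT, Finset.sum_add_distrib, hjl] using h1

/-- `a_i b_j c_m` -/
theorem E_abc (h : Rel (PT k e) Λ) (i j m : Fin k) :
    ∑ x, Λ (Sum.inl (x, j)) (va i) * Cf x j m + ∑ x, Λ (Sum.inl (i, x)) (vb j) * Cf i x m +
      Λ (Sum.inl (i, j)) (vc m) = 0 := by
  have h1 := rel_split Λ h (va i) (vb j) (vc m)
  simpa [PT, Finset.sum_add_distrib] using h1

/-- `a_i a_i c_m` -/
theorem E_a2c (h : Rel (PT k e) Λ) (i m : Fin k) :
    ∑ x, Λ (Sum.inl (i, x)) (va i) * Cf i x m + ∑ x, Λ (Sum.inl (i, x)) (va i) * Cf i x m +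
      ∑ x, Λ (Sum.inl (i, x)) (vc m) = 0 := by
  have h1 := rel_split Λ h (va i) (va i) (vc m)
  simpa [PT, Finset.sum_add_distrib] using h1

/-- `a_i c_m c_m` -/
theorem E_ac2 (h : Rel (PT k e) Λ) (i m : Fin k) :
    ∑ x, ∑ y, Λ (Sum.inl (x, y)) (va i) * Cf x y m * Cf x y m +
      ∑ x, Λ (Sum.inl (i, x)) (vc m) * Cf i x m + ∑ x, Λ (Sum.inl (i, x)) (vc m) * Cf i x m = 0 := by
  have h1 := rel_split Λ h (va i) (vc m) (vc m)
  simpa [PT, Finset.sum_add_distrib] using h1

end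

theorem Cf_symm {k : ℕ} (i j m : Fin k) : Cf i j m = Cf j i m := by
  by_cases h : i = j
  · rw [h]
  · unfold Cf
    rw [if_neg h, if_neg (Ne.symm h), add_comm]

theorem succ_ne {k : ℕ} (i : Fin k) : ((i : ℕ) : ℂ) + 1 ≠ 0 := Nat.cast_add_one_ne_zero _

/-- first elimination lemma -/
theorem elim1 {k : ℕ} (A : Fin k → ℂ) (i l : Fin k) (hil : i ≠ l)
    (h : ∀ m, ∑ j, A j * Cf l j m - ∑ j, A j * Cf i j m = 0) : ∀ j, A j = 0 := by
  have h' : ∀ m, ∑ j, A j * (Cf l j m - Cf i j m) = 0 := by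
    intro m
    rw [← h m, ← Finset.sum_sub_distrib]
    exact Finset.sum_congr rfl fun j _ => mul_sub _ _ _
  have h1 : ∀ m, m ≠ i → m ≠ l → A m = 0 := by
    intro m hmi hml
    have h2 := h' m
    rw [Finset.sum_eq_single m] at h2
    · rw [Cf_right (Ne.symm hml), Cf_right (Ne.symm hmi)] at h2
      rcases mul_eq_zero.1 h2 with h3 | h3
      · exact h3
      · exfalso
        have h4 : ((l : ℕ) : ℂ) = ((i : ℕ) : ℂ) := by linear_combination h3
        exact hil (Fin.ext (Nat.cast_injective h4.symm))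
    · intro j _ hj
      rw [Cf_other hml (Ne.symm hj), Cf_other hmi (Ne.symm hj), sub_zero, mul_zero]
    · intro h3
      exact absurd (Finset.mem_univ m) h3
  have hsum : ∀ m, A i * (Cf l i m - Cf i i m) + A l * (Cf l l m - Cf i l m) = 0 := by
    intro m
    have h2 : ∑ j ∈ ({i, l} : Finset (Fin k)), A j * (Cf l j m - Cf i j m) = 0 := by
      rw [← h' m]
      apply Finset.sum_subset (Finset.subset_univ _)
      intro j _ hj
      rw [Finset.mem_insert, Finset.mem_singleton, not_or] at hj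
      rw [h1 j hj.1 hj.2, zero_mul]
    rwa [Finset.sum_pair hil] at h2
  have e1 := hsum l
  have e2 := hsum i
  rw [Cf_left (Ne.symm hil), Cf_other (Ne.symm hil) (Ne.symm hil), Cf_diag, Cf_right hil] at e1
  rw [Cf_right (Ne.symm hil), Cf_diag, Cf_other hil hil, Cf_left hil] at e2
  have hk : (0 : ℝ) < k := by
    have := i.pos
    exact_mod_cast this
  have hA : A i = 0 := by
    have e3 : A i * (3 * (k : ℂ) * (3 * k - (((i : ℕ) : ℂ) + 1) - (((l : ℕ) : ℂ) + 1))) = 0 := by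
      linear_combination (-(((l : ℕ) : ℂ) + 1)) * e1 - (3 * (k : ℂ) - (((i : ℕ) : ℂ) + 1)) * e2
    rcases mul_eq_zero.1 e3 with e4 | e4
    · exact e4
    · exfalso
      have hi := i.2
      have hl := l.2
      rcases mul_eq_zero.1 e4 with e5 | e5
      · have : (k : ℂ) ≠ 0 := by
          have := i.pos
          exact_mod_cast this.ne'
        rcases mul_eq_zero.1 e5 with e6 | e6
        · norm_num at e6
        · exact this e6
      · have e6 : ((3 * k : ℕ) : ℂ) = (((i : ℕ) + 1 + (l + 1) : ℕ) : ℂ) := by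
          push_cast
          linear_combination e5
        have e7 : 3 * k = (i : ℕ) + 1 + (l + 1) := by exact_mod_cast e6
        omega
  have hB : A l = 0 := by
    rw [hA, zero_mul, zero_add, zero_sub] at e2
    rcases mul_eq_zero.1 e2 with e4 | e4
    · exact e4
    · exact absurd (neg_eq_zero.1 e4) (succ_ne l)
  intro j
  by_cases hj : j = i
  · rw [hj, hA]
  · by_cases hj' : j = l
    · rw [hj', hB]
    · exact h1 j hj hj'

/-- second elimination lemma -/
theorem elim2 {k : ℕ} (D : Fin k → ℂ) (i : Fin k) (r : ℕ) (hr : r ≠ 0)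
    (h : ∀ m, ∑ j, D j * Cf i j m ^ r = 0) : ∀ j, D j = 0 := by
  have h1 : ∀ m, m ≠ i → D m = 0 := by
    intro m hmi
    have h2 := h m
    rw [Finset.sum_eq_single m] at h2
    · rw [Cf_right (Ne.symm hmi)] at h2
      rcases mul_eq_zero.1 h2 with h3 | h3
      · exact h3
      · exact absurd (pow_eq_zero_iff hr |>.1 h3) (succ_ne i)
    · intro j _ hj
      rw [Cf_other hmi (Ne.symm hj), zero_pow hr, mul_zero]
    · intro h3
      exact absurd (Finset.mem_univ m) h3
  intro j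
  by_cases hj : j = i
  · have h2 := h i
    rw [Finset.sum_eq_single i] at h2
    · rw [Cf_diag] at h2
      rw [hj]
      rcases mul_eq_zero.1 h2 with h3 | h3
      · exact h3
      · exfalso
        have h4 := pow_eq_zero_iff hr |>.1 h3
        have : (k : ℂ) ≠ 0 := by
          have := i.pos
          exact_mod_cast this.ne'
        rcases mul_eq_zero.1 h4 with e6 | e6
        · norm_num at e6
        · exact this e6
    · intro j' _ hj'
      rw [h1 j' hj', zero_mul]
    · intro h3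
      exact absurd (Finset.mem_univ i) h3
  · exact h1 j hj

section
variable {k e : ℕ} (Λ : II k e → TT k e → ℂ)

theorem L_a_off (h : Rel (PT k e) Λ) (i l j : Fin k) (hil : i ≠ l) :
    Λ (Sum.inl (l, j)) (va i) = 0 := by
  refine elim1 (fun j => Λ (Sum.inl (l, j)) (va i)) i l hil (fun m => ?_) j
  rw [← E_aac Λ h i l m hil, sub_eq_add_neg, ← Finset.sum_neg_distrib]
  congr 1
  refine Finset.sum_congr rfl fun x _ => ?_
  have h1 := E_aab Λ h i l x hil
  rw [← neg_mul, eq_neg_of_add_eq_zero_left h1, neg_neg]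

theorem L_b_off (h : Rel (PT k e) Λ) (j l i : Fin k) (hjl : j ≠ l) :
    Λ (Sum.inl (i, l)) (vb j) = 0 := by
  refine elim1 (fun i => Λ (Sum.inl (i, l)) (vb j)) j l hjl (fun m => ?_) i
  rw [← E_bbc Λ h j l m hjl, sub_eq_add_neg, ← Finset.sum_neg_distrib]
  congr 1
  · exact Finset.sum_congr rfl fun x _ => by rw [Cf_symm]
  · refine Finset.sum_congr rfl fun x _ => ?_
    have h1 := E_abb Λ h x j l hjl
    rw [← neg_mul, eq_neg_of_add_eq_zero_left h1, neg_neg, Cf_symm]

theorem L_c (h : Rel (PT k e) Λ) (i j m : Fin k) : Λ (Sum.inl (i, j)) (vc m) =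
    -(Λ (Sum.inl (i, j)) (va i) + Λ (Sum.inl (i, j)) (vb j)) * Cf i j m := by
  have h1 := E_abc Λ h i j m
  rw [Finset.sum_eq_single i, Finset.sum_eq_single j] at h1
  · linear_combination h1
  · intro x _ hx
    rw [L_b_off Λ h j x i (Ne.symm hx), zero_mul]
  · intro h3
    exact absurd (Finset.mem_univ j) h3
  · intro x _ hx
    rw [L_a_off Λ h i x j (Ne.symm hx), zero_mul]
  · intro h3
    exact absurd (Finset.mem_univ i) h3

theorem L_ab (h : Rel (PT k e) Λ) (i j : Fin k) :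
    Λ (Sum.inl (i, j)) (va i) - Λ (Sum.inl (i, j)) (vb j) = 0 := by
  refine elim2 (fun j => Λ (Sum.inl (i, j)) (va i) - Λ (Sum.inl (i, j)) (vb j)) i 1 one_ne_zero
    (fun m => ?_) j
  rw [← E_a2c Λ h i m, ← Finset.sum_add_distrib, ← Finset.sum_add_distrib]
  refine Finset.sum_congr rfl fun x _ => ?_
  rw [L_c Λ h]
  ring

theorem L_a (h : Rel (PT k e) Λ) (i j : Fin k) : Λ (Sum.inl (i, j)) (va i) = 0 := by
  have h0 : -3 * Λ (Sum.inl (i, j)) (va i) = 0 := by
    refine elim2 (fun j => -3 * Λ (Sum.inl (i, j)) (va i)) i 2 two_ne_zero (fun m => ?_) j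
    have h1 := E_ac2 Λ h i m
    rw [Finset.sum_eq_single i] at h1
    · rw [← h1, ← Finset.sum_add_distrib, ← Finset.sum_add_distrib]
      refine Finset.sum_congr rfl fun x _ => ?_
      rw [L_c Λ h]
      linear_combination (2 * Cf i x m ^ 2) * (- L_ab Λ h i x)
    · intro x _ hx
      refine Finset.sum_eq_zero fun y _ => ?_
      rw [L_a_off Λ h i x y (Ne.symm hx), zero_mul, zero_mul]
    · intro h3
      exact absurd (Finset.mem_univ i) h3
  rcases mul_eq_zero.1 h0 with h1 | h1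
  · norm_num at h1
  · exact h1

theorem L_zero (h : Rel (PT k e) Λ) (i j : Fin k) (v : TT k e) : Λ (Sum.inl (i, j)) v = 0 := by
  have hb : Λ (Sum.inl (i, j)) (vb j) = 0 := by
    have h1 := L_ab Λ h i j
    rw [L_a Λ h, zero_sub] at h1
    exact neg_eq_zero.1 h1
  rcases v with a | b | c | x
  · by_cases ha : a = i
    · rw [ha]
      exact L_a Λ h i j
    · exact L_a_off Λ h a i j ha
  · by_cases hb' : b = j
    · rw [hb']
      exact hb
    · exact L_b_off Λ h b j i hb'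
  · have h1 := L_c Λ h i j c
    rw [L_a Λ h, hb, add_zero, neg_zero, zero_mul] at h1
    exact h1
  · exact E_abx Λ h i j x

theorem M_zero (h : Rel (PT k e) Λ) (j : Fin k) (v : TT k e) :
    Λ (Sum.inr (Sum.inl j)) v = 0 := by
  have h1 := rel_split Λ h (vb j) (vb j) v
  simp only [L_zero Λ h, zero_mul, add_zero, Finset.sum_const_zero, zero_add] at h1
  rcases v with a | b | c | x
  · simpa [PT] using h1
  · by_cases hb : b = j
    · rw [hb] at h1 ⊢
      simp [PT, Finset.sum_add_distrib] at h1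
      have h2 : (3 : ℂ) * Λ (Sum.inr (Sum.inl j)) (Sum.inr (Sum.inl j)) = 0 := by
        linear_combination h1
      rcases mul_eq_zero.1 h2 with h3 | h3
      · norm_num at h3
      · exact h3
    · simpa [PT, Finset.sum_add_distrib, hb, Ne.symm hb] using h1
  · simpa [PT] using h1
  · simpa [PT] using h1

theorem N_zero (h : Rel (PT k e) Λ) (l : Fin e) (v : TT k e) :
    Λ (Sum.inr (Sum.inr l)) v = 0 := by
  have h1 := rel_split Λ h (vx l) (vx l) v
  simp only [L_zero Λ h, M_zero Λ h, zero_mul, add_zero, Finset.sum_const_zero, zero_add] at h1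
  rcases v with a | b | c | x
  · simpa [PT] using h1
  · simpa [PT] using h1
  · simpa [PT] using h1
  · by_cases hb : x = l
    · rw [hb] at h1 ⊢
      simp [PT, Finset.sum_add_distrib] at h1
      have h2 : (3 : ℂ) * Λ (Sum.inr (Sum.inr l)) (Sum.inr (Sum.inr (Sum.inr l))) = 0 := by
        linear_combination h1
      rcases mul_eq_zero.1 h2 with h3 | h3
      · norm_num at h3
      · exact h3
    · simpa [PT, Finset.sum_add_distrib, hb, Ne.symm hb] using h1

end

/-- the coordinate sums are not zero -/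
theorem sum_PT (k e : ℕ) (i : II k e) : ∑ v, PT k e i v ≠ 0 := by
  rcases i with ⟨i, j⟩ | j | l
  · have h1 : ∑ m, Cf i j m = ((∑ m : Fin k, (if i = j then (if m = i then 3 * k else 0)
      else (if m = j then ((i : ℕ)) + 1 else 0) + (if m = i then (j : ℕ) + 1 else 0)) : ℕ) : ℂ) := by
      rw [Nat.cast_sum]
      refine Finset.sum_congr rfl fun m _ => ?_
      unfold Cf
      split_ifs <;> push_cast <;> ring
    simp only [Fintype.sum_sum_type, PT, Finset.sum_ite_eq', Finset.mem_univ, if_true,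
      Finset.sum_const_zero, add_zero]
    rw [h1]
    norm_cast
    omega
  · simp [Fintype.sum_sum_type, PT]
  · simp [Fintype.sum_sum_type, PT]

/-- **Cubics.** -/
theorem cubic (k e p n : ℕ) (hn : n + 1 = 3 * k + e) (hp : p ≤ k * k + k + e) : GG n 3 p := by
  refine gg_of_dual (TT k e) (II k e) ?_ (PT k e) (sum_PT k e) (fun Λ h i v => ?_) ?_
  · simp only [Fintype.card_sum, Fintype.card_fin]
    omega
  · rcases i with ⟨i, j⟩ | j | l
    · exact L_zero Λ h i j v
    · exact M_zero Λ h j v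
    · exact N_zero Λ h l v
  · simp only [Fintype.card_sum, Fintype.card_prod, Fintype.card_fin]
    omega

end Pool.Agent.WarM
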