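import Pool.Agent.WarM.CubR

/-!
# Independent double points in degree three: general parameters are good   (helper27)
-/

set_option autoImplicit false

open Module MvPolynomial Pool.Agent.War

namespace Pool.Agent.WarM.CubAH

def Chk4 : Prop := ∃ p q p' q' p'' q'' : Fin 3 → Fin 3 → ℂ, ∀ X Y Z : Fin 3 → Fin 3 → ℂ,
  Sys4 p q p' q' p'' q'' X Y Z → (∀ t u, X t u = 0) ∧ (∀ t u, Y t u = 0) ∧ (∀ t u, Z t u = 0)

def Chk3 (e m : ℕ) : Prop := ∃ (p q : Fin 3 → Fin 3 → ℂ) (Qa Qb : Fin m → Fin 3 ⊕ Fin e → ℂ),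
  ∀ (A B : Fin 3 → Fin 3 → ℂ) (C : Fin 3 → Fin e → ℂ) (D E : Fin m → Fin 3 → ℂ),
    Sys3 p q Qa Qb A B C D E →
    (∀ t u, A t u = 0) ∧ (∀ t u, B t u = 0) ∧ (∀ t l, C t l = 0) ∧ (∀ i u, D i u = 0) ∧
      (∀ i u, E i u = 0)

def Chk2 (e m m₀ : ℕ) : Prop := ∃ (Q : Fin m → Fin 3 ⊕ Fin e → ℂ) (z : Fin m₀ → Fin e → ℂ),
  ∀ (F : Fin m → Fin 3 ⊕ Fin e → ℂ) (G : Fin m₀ → Fin 3 → ℂ),
    Sys2 Q z F G → (∀ j v, F j v = 0) ∧ (∀ i u, G i u = 0)

def Chk1 (e m₀ : ℕ) : Prop := ∃ z : Fin m₀ → Fin e → ℂ, ∀ H : Fin m₀ → Fin e → ℂ, Sys1 z H →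
  ∀ i l, H i l = 0

/-- semicontinuity -/
theorem gen_sys {X V : Type} [AddCommGroup X] [Module ℂ X] [AddCommGroup V] [Module ℂ V]
    [FiniteDimensional ℂ V] {κ : Type} [Finite κ] (f : κ → X → V → ℂ)
    (hlin : ∀ a x, IsLinearMap ℂ (f a x)) (hLP : ∀ a v, LP (K := ℂ) fun x => f a x v)
    (x₀ : X) (h0 : ∀ v, (∀ a, f a x₀ v = 0) → v = 0) :
    Gen ℂ fun x => ∀ v, (∀ a, f a x v = 0) → v = 0 := by
  let Z : X → Submodule ℂ V := fun x => ⨅ a, LinearMap.ker (IsLinearMap.mk' (f a x) (hlin a x))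
  have hmem : ∀ x v, v ∈ Z x ↔ ∀ a, f a x v = 0 := by
    intro x v
    simp only [Z, Submodule.mem_iInf, LinearMap.mem_ker, IsLinearMap.mk'_apply]
  have hZ : PK Z := PK.iInf fun a => PK.one (φ := fun x => IsLinearMap.mk' (f a x) (hlin a x))
    fun v => hLP a v
  refine (hZ.gen_bot (x₀ := x₀) ?_).mono fun x hx v hv => ?_
  · rw [Submodule.eq_bot_iff]
    intro v hv
    exact h0 v ((hmem x₀ v).1 hv)
  · have : v ∈ Z x := (hmem x v).2 hv
    rw [hx, Submodule.mem_bot] at this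
    exact this

section
variable {k e m m₀ : ℕ}

theorem lp_of {X : Type} [AddCommGroup X] [Module ℂ X] {f : X → ℂ} (h : IsLinearMap ℂ f) :
    LP (K := ℂ) f := LP.linear (IsLinearMap.mk' f h)

theorem lp_p (y : PI k × Fin 3) (j : Fin 3) : LP (K := ℂ) fun x : XX k e m m₀ => x.1 y j :=
  lp_of ⟨fun _ _ => rfl, fun _ _ => rfl⟩

theorem lp_q (y : PI k × Fin 3) (j : Fin 3) : LP (K := ℂ) fun x : XX k e m m₀ => x.2.1 y j :=
  lp_of ⟨fun _ _ => rfl, fun _ _ => rfl⟩

theorem lp_Q (y : Fin k × Fin m) (j : Fin 3 ⊕ Fin e) :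
    LP (K := ℂ) fun x : XX k e m m₀ => x.2.2.1 y j :=
  lp_of ⟨fun _ _ => rfl, fun _ _ => rfl⟩

theorem lp_z (i : Fin m₀) (j : Fin e) :
    LP (K := ℂ) fun x : XX k e m m₀ => x.2.2.2 i j :=
  lp_of ⟨fun _ _ => rfl, fun _ _ => rfl⟩

theorem gen4 (h : Chk4) (a b c : Fin k) (hab : a < b) (hbc : b < c) :
    Gen ℂ fun x : XX k e m m₀ => ∀ X Y Z : Fin 3 → Fin 3 → ℂ,
    Sys4 (fun t => x.1 (mk a b hab, t)) (fun t => x.2.1 (mk a b hab, t))
      (fun t => x.1 (mk a c (hab.trans hbc), t)) (fun t => x.2.1 (mk a c (hab.trans hbc), t))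
      (fun t => x.1 (mk b c hbc, t)) (fun t => x.2.1 (mk b c hbc, t)) X Y Z →
    (∀ t u, X t u = 0) ∧ (∀ t u, Y t u = 0) ∧ (∀ t u, Z t u = 0) := by
  obtain ⟨p, q, p', q', p'', q'', hz⟩ := h
  have n1 : mk a c (hab.trans hbc) ≠ mk a b hab := fun h => by
    have := congrArg (fun y : PI k => y.1) h
    exact absurd hbc (by rw [show c = b from this]; exact lt_irrefl _)
  have n2 : mk b c hbc ≠ mk a b hab := fun h => by
    have := congrArg (fun y : PI k => y.1) h
    exact absurd hbc (by rw [show c = b from this]; exact lt_irrefl _)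
  have n3 : mk b c hbc ≠ mk a c (hab.trans hbc) := fun h => by
    have := congrArg lo h
    rw [lo_mk, lo_mk] at this
    exact absurd hab (by rw [this]; exact lt_irrefl _)
  let x₀ : XX k e m m₀ := (fun y => if y.1 = mk a b hab then p y.2 else
      if y.1 = mk a c (hab.trans hbc) then p' y.2 else p'' y.2,
    fun y => if y.1 = mk a b hab then q y.2 else
      if y.1 = mk a c (hab.trans hbc) then q' y.2 else q'' y.2, 0, 0)
  refine (gen_sys (X := XX k e m m₀)
    (V := (Fin 3 → Fin 3 → ℂ) × (Fin 3 → Fin 3 → ℂ) × (Fin 3 → Fin 3 → ℂ))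
    (κ := Fin 3 × Fin 3 × Fin 3)
    (fun s x v => ∑ t, v.2.2 t s.1 * x.1 (mk b c hbc, t) s.2.1 * x.2.1 (mk b c hbc, t) s.2.2 +
      ∑ t, v.2.1 t s.2.1 * x.1 (mk a c (hab.trans hbc), t) s.1 *
        x.2.1 (mk a c (hab.trans hbc), t) s.2.2 +
      ∑ t, v.1 t s.2.2 * x.1 (mk a b hab, t) s.1 * x.2.1 (mk a b hab, t) s.2.1) ?_ ?_ x₀ ?_).mono ?_
  · intro s x
    refine ⟨fun v w => ?_, fun c v => ?_⟩
    · simp only [Prod.snd_add, Prod.fst_add, Pi.add_apply, add_mul, Finset.sum_add_distrib]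
      ring
    · simp only [Prod.smul_snd, Prod.smul_fst, Pi.smul_apply, smul_eq_mul, mul_add,
        Finset.mul_sum, mul_assoc]
  · intro s v
    refine ((LP.sum _ fun t _ => ?_).add (LP.sum _ fun t _ => ?_)).add (LP.sum _ fun t _ => ?_)
    · exact ((LP.const _).mul (lp_p _ _)).mul (lp_q _ _)
    · exact ((LP.const _).mul (lp_p _ _)).mul (lp_q _ _)
    · exact ((LP.const _).mul (lp_p _ _)).mul (lp_q _ _)
  · intro v hv
    obtain ⟨h1, h2, h3⟩ := hz v.1 v.2.1 v.2.2 fun u w y => by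
      have := hv (u, w, y)
      simp only [x₀, if_true, if_neg n1, if_neg n2, if_neg n3] at this
      exact this
    exact Prod.ext (funext fun t => funext fun u => h1 t u)
      (Prod.ext (funext fun t => funext fun u => h2 t u) (funext fun t => funext fun u => h3 t u))
  · intro x hx X Y Z hs
    have h0 := hx (X, Y, Z) fun s => hs s.1 s.2.1 s.2.2
    have h1 : X = 0 := congrArg (fun v => v.1) h0
    have h2 : Y = 0 := congrArg (fun v => v.2.1) h0
    have h3 : Z = 0 := congrArg (fun v => v.2.2) h0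
    rw [h1, h2, h3]
    exact ⟨fun _ _ => rfl, fun _ _ => rfl, fun _ _ => rfl⟩

theorem gen3 (h : Chk3 e m) (a b : Fin k) (hab : a < b) :
    Gen ℂ fun x : XX k e m m₀ => ∀ (A B : Fin 3 → Fin 3 → ℂ) (C : Fin 3 → Fin e → ℂ)
    (D E : Fin m → Fin 3 → ℂ),
    Sys3 (fun t => x.1 (mk a b hab, t)) (fun t => x.2.1 (mk a b hab, t))
      (fun i => x.2.2.1 (a, i)) (fun i => x.2.2.1 (b, i)) A B C D E →
    (∀ t u, A t u = 0) ∧ (∀ t u, B t u = 0) ∧ (∀ t l, C t l = 0) ∧ (∀ i u, D i u = 0) ∧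
      (∀ i u, E i u = 0) := by
  obtain ⟨p, q, Qa, Qb, hz⟩ := h
  have hne : b ≠ a := ne_of_gt hab
  let x₀ : XX k e m m₀ := (fun y => p y.2, fun y => q y.2,
    fun y => if y.1 = a then Qa y.2 else Qb y.2, 0)
  refine (gen_sys (X := XX k e m m₀)
    (V := (Fin 3 → Fin 3 → ℂ) × (Fin 3 → Fin 3 → ℂ) × (Fin 3 → Fin e → ℂ) ×
      (Fin m → Fin 3 → ℂ) × (Fin m → Fin 3 → ℂ))
    (κ := (Fin 3 × Fin 3 × Fin 3) ⊕ (Fin 3 × Fin 3 × Fin 3) ⊕ (Fin 3 × Fin 3 × Fin e))
    (fun s x v => match s with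
      | Sum.inl s => ∑ t, v.1 t s.1 * x.1 (mk a b hab, t) s.2.1 * x.2.1 (mk a b hab, t) s.2.2 +
          ∑ t, v.1 t s.2.1 * x.1 (mk a b hab, t) s.1 * x.2.1 (mk a b hab, t) s.2.2 +
          (∑ t, v.2.1 t s.2.2 * x.1 (mk a b hab, t) s.1 * x.1 (mk a b hab, t) s.2.1 +
          ∑ i, v.2.2.2.1 i s.2.2 * x.2.2.1 (a, i) (Sum.inl s.1) * x.2.2.1 (a, i) (Sum.inl s.2.1))
      | Sum.inr (Sum.inl s) => (∑ t, v.1 t s.1 * x.2.1 (mk a b hab, t) s.2.1 *
            x.2.1 (mk a b hab, t) s.2.2 +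
          ∑ i, v.2.2.2.2 i s.1 * x.2.2.1 (b, i) (Sum.inl s.2.1) *
            x.2.2.1 (b, i) (Sum.inl s.2.2)) +
          ∑ t, v.2.1 t s.2.1 * x.1 (mk a b hab, t) s.1 * x.2.1 (mk a b hab, t) s.2.2 +
          ∑ t, v.2.1 t s.2.2 * x.1 (mk a b hab, t) s.1 * x.2.1 (mk a b hab, t) s.2.1
      | Sum.inr (Sum.inr s) => ∑ i, v.2.2.2.2 i s.1 * x.2.2.1 (b, i) (Sum.inl s.2.1) *
            x.2.2.1 (b, i) (Sum.inr s.2.2) +
          ∑ i, v.2.2.2.1 i s.2.1 * x.2.2.1 (a, i) (Sum.inl s.1) * x.2.2.1 (a, i) (Sum.inr s.2.2) +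
          ∑ t, v.2.2.1 t s.2.2 * x.1 (mk a b hab, t) s.1 * x.2.1 (mk a b hab, t) s.2.1)
    ?_ ?_ x₀ ?_).mono ?_
  · rintro (s | s | s) x
    · refine ⟨fun v w => ?_, fun c v => ?_⟩
      · simp only [Prod.snd_add, Prod.fst_add, Pi.add_apply, add_mul, Finset.sum_add_distrib]
        ring
      · simp only [Prod.smul_snd, Prod.smul_fst, Pi.smul_apply, smul_eq_mul, mul_add,
          Finset.mul_sum, mul_assoc]
    · refine ⟨fun v w => ?_, fun c v => ?_⟩
      · simp only [Prod.snd_add, Prod.fst_add, Pi.add_apply, add_mul, Finset.sum_add_distrib]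
        ring
      · simp only [Prod.smul_snd, Prod.smul_fst, Pi.smul_apply, smul_eq_mul, mul_add,
          Finset.mul_sum, mul_assoc]
    · refine ⟨fun v w => ?_, fun c v => ?_⟩
      · simp only [Prod.snd_add, Prod.fst_add, Pi.add_apply, add_mul, Finset.sum_add_distrib]
        ring
      · simp only [Prod.smul_snd, Prod.smul_fst, Pi.smul_apply, smul_eq_mul, mul_add,
          Finset.mul_sum, mul_assoc]
  · rintro (s | s | s) v
    · refine ((LP.sum _ fun t _ => ?_).add (LP.sum _ fun t _ => ?_)).add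
        ((LP.sum _ fun t _ => ?_).add (LP.sum _ fun t _ => ?_))
      · exact ((LP.const _).mul (lp_p _ _)).mul (lp_q _ _)
      · exact ((LP.const _).mul (lp_p _ _)).mul (lp_q _ _)
      · exact ((LP.const _).mul (lp_p _ _)).mul (lp_p _ _)
      · exact ((LP.const _).mul (lp_Q _ _)).mul (lp_Q _ _)
    · refine (((LP.sum _ fun t _ => ?_).add (LP.sum _ fun t _ => ?_)).add
        (LP.sum _ fun t _ => ?_)).add (LP.sum _ fun t _ => ?_)
      · exact ((LP.const _).mul (lp_q _ _)).mul (lp_q _ _)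
      · exact ((LP.const _).mul (lp_Q _ _)).mul (lp_Q _ _)
      · exact ((LP.const _).mul (lp_p _ _)).mul (lp_q _ _)
      · exact ((LP.const _).mul (lp_p _ _)).mul (lp_q _ _)
    · refine ((LP.sum _ fun t _ => ?_).add (LP.sum _ fun t _ => ?_)).add
        (LP.sum _ fun t _ => ?_)
      · exact ((LP.const _).mul (lp_Q _ _)).mul (lp_Q _ _)
      · exact ((LP.const _).mul (lp_Q _ _)).mul (lp_Q _ _)
      · exact ((LP.const _).mul (lp_p _ _)).mul (lp_q _ _)
  · intro v hv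
    obtain ⟨h1, h2, h3, h4, h5⟩ := hz v.1 v.2.1 v.2.2.1 v.2.2.2.1 v.2.2.2.2
      ⟨fun u w y => by
        have := hv (Sum.inl (u, w, y))
        simp only [x₀, if_true] at this
        exact this, fun u w y => by
        have := hv (Sum.inr (Sum.inl (u, w, y)))
        simp only [x₀, if_neg hne] at this
        exact this, fun u w y => by
        have := hv (Sum.inr (Sum.inr (u, w, y)))
        simp only [x₀, if_true, if_neg hne] at this
        exact this⟩
    exact Prod.ext (funext fun t => funext fun u => h1 t u)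
      (Prod.ext (funext fun t => funext fun u => h2 t u)
        (Prod.ext (funext fun t => funext fun u => h3 t u)
          (Prod.ext (funext fun t => funext fun u => h4 t u)
            (funext fun t => funext fun u => h5 t u))))
  · intro x hx A B C D E hs
    have h0 := hx (A, B, C, D, E) (by
      rintro (s | s | s)
      · exact hs.1 s.1 s.2.1 s.2.2
      · exact hs.2.1 s.1 s.2.1 s.2.2
      · exact hs.2.2 s.1 s.2.1 s.2.2)
    have h1 : A = 0 := congrArg (fun v => v.1) h0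
    have h2 : B = 0 := congrArg (fun v => v.2.1) h0
    have h3 : C = 0 := congrArg (fun v => v.2.2.1) h0
    have h4 : D = 0 := congrArg (fun v => v.2.2.2.1) h0
    have h5 : E = 0 := congrArg (fun v => v.2.2.2.2) h0
    rw [h1, h2, h3, h4, h5]
    exact ⟨fun _ _ => rfl, fun _ _ => rfl, fun _ _ => rfl, fun _ _ => rfl, fun _ _ => rfl⟩

theorem gen2 (h : Chk2 e m m₀) (a : Fin k) :
    Gen ℂ fun x : XX k e m m₀ => ∀ (F : Fin m → Fin 3 ⊕ Fin e → ℂ) (G : Fin m₀ → Fin 3 → ℂ),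
    Sys2 (fun i => x.2.2.1 (a, i)) x.2.2.2 F G → (∀ j v, F j v = 0) ∧ (∀ i u, G i u = 0) := by
  obtain ⟨Q, z, hz⟩ := h
  let x₀ : XX k e m m₀ := (0, 0, fun y => Q y.2, z)
  refine (gen_sys (X := XX k e m m₀)
    (V := (Fin m → Fin 3 ⊕ Fin e → ℂ) × (Fin m₀ → Fin 3 → ℂ))
    (κ := Fin 3 × (Fin 3 ⊕ Fin e) × (Fin 3 ⊕ Fin e))
    (fun s x v => (∑ j, v.1 j (Sum.inl s.1) * x.2.2.1 (a, j) s.2.1 * x.2.2.1 (a, j) s.2.2 +
      ∑ i, v.2 i s.1 * Sum.elim (fun _ => 0) (x.2.2.2 i) s.2.1 *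
        Sum.elim (fun _ => 0) (x.2.2.2 i) s.2.2) +
      ∑ j, v.1 j s.2.1 * x.2.2.1 (a, j) (Sum.inl s.1) * x.2.2.1 (a, j) s.2.2 +
      ∑ j, v.1 j s.2.2 * x.2.2.1 (a, j) (Sum.inl s.1) * x.2.2.1 (a, j) s.2.1)
    ?_ ?_ x₀ ?_).mono ?_
  · intro s x
    refine ⟨fun v w => ?_, fun c v => ?_⟩
    · simp only [Prod.snd_add, Prod.fst_add, Pi.add_apply, add_mul, Finset.sum_add_distrib]
      ring
    · simp only [Prod.smul_snd, Prod.smul_fst, Pi.smul_apply, smul_eq_mul, mul_add,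
        Finset.mul_sum, mul_assoc]
  · intro s v
    have hel : ∀ (i : Fin m₀) (w : Fin 3 ⊕ Fin e),
        LP (K := ℂ) fun x : XX k e m m₀ => Sum.elim (fun _ => (0 : ℂ)) (x.2.2.2 i) w := by
      intro i w
      rcases w with w | w
      · exact LP.const 0
      · exact lp_z i w
    refine (((LP.sum _ fun t _ => ?_).add (LP.sum _ fun t _ => ?_)).add
      (LP.sum _ fun t _ => ?_)).add (LP.sum _ fun t _ => ?_)
    · exact ((LP.const _).mul (lp_Q _ _)).mul (lp_Q _ _)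
    · exact ((LP.const _).mul (hel _ _)).mul (hel _ _)
    · exact ((LP.const _).mul (lp_Q _ _)).mul (lp_Q _ _)
    · exact ((LP.const _).mul (lp_Q _ _)).mul (lp_Q _ _)
  · intro v hv
    obtain ⟨h1, h2⟩ := hz v.1 v.2 fun u w y => hv (u, w, y)
    exact Prod.ext (funext fun t => funext fun u => h1 t u)
      (funext fun t => funext fun u => h2 t u)
  · intro x hx F G hs
    have h0 := hx (F, G) fun s => hs s.1 s.2.1 s.2.2
    have h1 : F = 0 := congrArg (fun v => v.1) h0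
    have h2 : G = 0 := congrArg (fun v => v.2) h0
    rw [h1, h2]
    exact ⟨fun _ _ => rfl, fun _ _ => rfl⟩

theorem gen1 (h : Chk1 e m₀) :
    Gen ℂ fun x : XX k e m m₀ => ∀ H : Fin m₀ → Fin e → ℂ, Sys1 x.2.2.2 H → ∀ i l, H i l = 0 := by
  obtain ⟨z, hz⟩ := h
  let x₀ : XX k e m m₀ := (0, 0, 0, z)
  refine (gen_sys (X := XX k e m m₀) (V := Fin m₀ → Fin e → ℂ) (κ := Fin e × Fin e × Fin e)
    (fun s x v => ∑ i, v i s.1 * x.2.2.2 i s.2.1 * x.2.2.2 i s.2.2 +
      ∑ i, v i s.2.1 * x.2.2.2 i s.1 * x.2.2.2 i s.2.2 +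
      ∑ i, v i s.2.2 * x.2.2.2 i s.1 * x.2.2.2 i s.2.1)
    ?_ ?_ x₀ ?_).mono ?_
  · intro s x
    refine ⟨fun v w => ?_, fun c v => ?_⟩
    · simp only [Pi.add_apply, add_mul, Finset.sum_add_distrib]
      ring
    · simp only [Pi.smul_apply, smul_eq_mul, mul_add, Finset.mul_sum, mul_assoc]
  · intro s v
    refine ((LP.sum _ fun t _ => ?_).add (LP.sum _ fun t _ => ?_)).add (LP.sum _ fun t _ => ?_)
    · exact ((LP.const _).mul (lp_z _ _)).mul (lp_z _ _)
    · exact ((LP.const _).mul (lp_z _ _)).mul (lp_z _ _)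
    · exact ((LP.const _).mul (lp_z _ _)).mul (lp_z _ _)
  · intro v hv
    have h1 := hz v fun u w y => hv (u, w, y)
    exact funext fun t => funext fun u => h1 t u
  · intro x hx H hs
    have h0 := hx H fun s => hs s.1 s.2.1 s.2.2
    rw [h0]
    exact fun _ _ => rfl

theorem gen_good (h4 : Chk4) (h3 : Chk3 e m) (h2 : Chk2 e m m₀) (h1 : Chk1 e m₀) :
    Gen ℂ fun x : XX k e m m₀ => Good x := by
  have G4 : Gen ℂ fun x : XX k e m m₀ => ∀ (a b c : Fin k) (hab : a < b) (hbc : b < c),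
      ∀ X Y Z : Fin 3 → Fin 3 → ℂ,
      Sys4 (fun t => x.1 (mk a b hab, t)) (fun t => x.2.1 (mk a b hab, t))
      (fun t => x.1 (mk a c (hab.trans hbc), t)) (fun t => x.2.1 (mk a c (hab.trans hbc), t))
      (fun t => x.1 (mk b c hbc, t)) (fun t => x.2.1 (mk b c hbc, t)) X Y Z →
      (∀ t u, X t u = 0) ∧ (∀ t u, Y t u = 0) ∧ (∀ t u, Z t u = 0) := by
    refine Gen.forall fun a => Gen.forall fun b => Gen.forall fun c => ?_
    by_cases hab : a < b
    · by_cases hbc : b < c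
      · exact (gen4 h4 a b c hab hbc).mono fun x hx _ _ => hx
      · exact Gen.of_forall fun x _ h => absurd h hbc
    · exact Gen.of_forall fun x h => absurd h hab
  have G3 : Gen ℂ fun x : XX k e m m₀ => ∀ (a b : Fin k) (hab : a < b)
      (A B : Fin 3 → Fin 3 → ℂ) (C : Fin 3 → Fin e → ℂ) (D E : Fin m → Fin 3 → ℂ),
      Sys3 (fun t => x.1 (mk a b hab, t)) (fun t => x.2.1 (mk a b hab, t))
      (fun i => x.2.2.1 (a, i)) (fun i => x.2.2.1 (b, i)) A B C D E →
      (∀ t u, A t u = 0) ∧ (∀ t u, B t u = 0) ∧ (∀ t l, C t l = 0) ∧ (∀ i u, D i u = 0) ∧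
      (∀ i u, E i u = 0) := by
    refine Gen.forall fun a => Gen.forall fun b => ?_
    by_cases hab : a < b
    · exact (gen3 h3 a b hab).mono fun x hx _ => hx
    · exact Gen.of_forall fun x h => absurd h hab
  exact (((G4.and G3).and (Gen.forall fun a => gen2 h2 a)).and (gen1 h1)).mono
    fun x hx => ⟨hx.1.1.1, hx.1.1.2, hx.1.2, hx.2⟩

/-- the coordinates of the points have nonzero sum -/
theorem gen_sum (he : m₀ = 0 ∨ 1 ≤ e) :
    Gen ℂ fun x : XX k e m m₀ => ∀ i, ∑ v, PP x i v ≠ 0 := by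
  refine Gen.forall fun i => ?_
  refine Gen.ne (LP.sum _ fun v _ => ?_) ((fun _ => Pi.single 0 1), (fun _ => 0),
    (fun _ => Pi.single (Sum.inl 0) 1), (fun _ l => if l.val = 0 then 1 else 0)) ?_
  · rcases i with ⟨π, t⟩ | ⟨a, i⟩ | i <;> rcases v with ⟨c, u⟩ | l
    · simp only [PP]
      split_ifs
      · exact lp_p _ _
      · exact lp_q _ _
      · exact LP.const _
    · exact LP.const _
    · simp only [PP]
      split_ifs
      · exact lp_Q _ _
      · exact LP.const _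
    · exact lp_Q _ _
    · exact LP.const _
    · exact lp_z _ _
  · rcases i with ⟨π, t⟩ | ⟨a, i⟩ | i
    · have h1 : ∑ v : T k e, PP (k := k) (e := e) (m := m) (m₀ := m₀)
          ((fun _ => Pi.single 0 1), (fun _ => 0), (fun _ => Pi.single (Sum.inl 0) 1),
            (fun _ l => if l.val = 0 then 1 else 0)) (Sum.inl (π, t)) v = 1 := by
        rw [Fintype.sum_sum_type, Fintype.sum_prod_type]
        simp only [PP, Finset.sum_const_zero, add_zero, Pi.zero_apply, ite_self]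
        rw [Finset.sum_eq_single (lo π)]
        · simp
        · intro c _ hc
          simp [hc]
        · simp
      rw [h1]
      exact one_ne_zero
    · have h1 : ∑ v : T k e, PP (k := k) (e := e) (m := m) (m₀ := m₀)
          ((fun _ => Pi.single 0 1), (fun _ => 0), (fun _ => Pi.single (Sum.inl 0) 1),
            (fun _ l => if l.val = 0 then 1 else 0)) (Sum.inr (Sum.inl (a, i))) v = 1 := by
        rw [Fintype.sum_sum_type, Fintype.sum_prod_type]
        simp only [PP]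
        rw [Finset.sum_eq_single a]
        · simp [Pi.single_apply]
        · intro c _ hc
          simp [hc]
        · simp
      rw [h1]
      exact one_ne_zero
    · have he' : 1 ≤ e := by
        rcases he with he | he
        · subst he
          exact i.elim0
        · exact he
      have h1 : ∑ v : T k e, PP (k := k) (e := e) (m := m) (m₀ := m₀)
          ((fun _ => Pi.single 0 1), (fun _ => 0), (fun _ => Pi.single (Sum.inl 0) 1),
            (fun _ l => if l.val = 0 then 1 else 0)) (Sum.inr (Sum.inr i)) v = 1 := by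
        rw [Fintype.sum_sum_type]
        simp only [PP, Finset.sum_const_zero, zero_add]
        rw [Finset.sum_eq_single (⟨0, he'⟩ : Fin e)]
        · simp
        · intro l _ hl
          rw [if_neg]
          intro h0
          exact hl (Fin.ext h0)
        · simp
      rw [h1]
      exact one_ne_zero

theorem card_PI (k : ℕ) : 2 * Fintype.card (PI k) + k = k * k := by
  rw [Fintype.card_sigma]
  simp only [Fintype.card_fin]
  rw [Fin.sum_univ_eq_sum_range (fun i => i) k]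
  have h := Finset.sum_range_id_mul_two k
  rcases k with _ | k
  · simp
  · rw [Nat.add_sub_cancel] at h
    nlinarith

/-- **block design** -/
theorem design (h4 : Chk4) (h3 : Chk3 e m) (h2 : Chk2 e m m₀) (h1 : Chk1 e m₀)
    (he : m₀ = 0 ∨ 1 ≤ e) {n p : ℕ} (hn : n + 1 = 3 * k + e)
    (hp : 2 * p ≤ 3 * (k * k - k) + 2 * (m * k + m₀)) : GG n 3 p := by
  obtain ⟨x, hx, hs⟩ := ((gen_good (k := k) h4 h3 h2 h1).and (gen_sum he)).exists
  refine gg_of_dual (T k e) (II k m m₀) ?_ (PP x) hs (fun Λ hΛ => all_zero hx hΛ) ?_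
  · simp only [Fintype.card_sum, Fintype.card_prod, Fintype.card_fin]
    omega
  · have hc := card_PI k
    have e1 : Fintype.card (II k m m₀) = Fintype.card (PI k) * 3 + (k * m + m₀) := by
      rw [Fintype.card_sum, Fintype.card_prod, Fintype.card_sum, Fintype.card_prod,
        Fintype.card_fin, Fintype.card_fin, Fintype.card_fin, Fintype.card_fin]
    rw [e1]
    have e2 : k * m = m * k := mul_comm _ _
    have e3 : k ≤ k * k := by nlinarith [Nat.zero_le k]
    omega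

end

end Pool.Agent.WarM.CubAH
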