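import Pool.Agent.WarM.CubS

/-!
# Independent double points in degree three: splitting of the relations   (helper27)
-/

set_option autoImplicit false

open Module MvPolynomial Pool.Agent.War

namespace Pool.Agent.WarM.CubAH

/-- the parameters are good: all the systems have only the zero solution -/
structure Good {k e m m₀ : ℕ} (x : XX k e m m₀) : Prop where
  g4 : ∀ (a b c : Fin k) (hab : a < b) (hbc : b < c), ∀ X Y Z : Fin 3 → Fin 3 → ℂ,
    Sys4 (fun t => x.1 (mk a b hab, t)) (fun t => x.2.1 (mk a b hab, t))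
      (fun t => x.1 (mk a c (hab.trans hbc), t)) (fun t => x.2.1 (mk a c (hab.trans hbc), t))
      (fun t => x.1 (mk b c hbc, t)) (fun t => x.2.1 (mk b c hbc, t)) X Y Z →
    (∀ t u, X t u = 0) ∧ (∀ t u, Y t u = 0) ∧ (∀ t u, Z t u = 0)
  g3 : ∀ (a b : Fin k) (hab : a < b) (A B : Fin 3 → Fin 3 → ℂ) (C : Fin 3 → Fin e → ℂ)
    (D E : Fin m → Fin 3 → ℂ),
    Sys3 (fun t => x.1 (mk a b hab, t)) (fun t => x.2.1 (mk a b hab, t))
      (fun i => x.2.2.1 (a, i)) (fun i => x.2.2.1 (b, i)) A B C D E →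
    (∀ t u, A t u = 0) ∧ (∀ t u, B t u = 0) ∧ (∀ t l, C t l = 0) ∧ (∀ i u, D i u = 0) ∧
      (∀ i u, E i u = 0)
  g2 : ∀ (a : Fin k) (F : Fin m → Fin 3 ⊕ Fin e → ℂ) (G : Fin m₀ → Fin 3 → ℂ),
    Sys2 (fun i => x.2.2.1 (a, i)) x.2.2.2 F G → (∀ j v, F j v = 0) ∧ (∀ i u, G i u = 0)
  g1 : ∀ H : Fin m₀ → Fin e → ℂ, Sys1 x.2.2.2 H → ∀ i l, H i l = 0

section
variable {k e m m₀ : ℕ} {x : XX k e m m₀} {Λ : II k m m₀ → T k e → ℂ}

theorem rel_S (h : Rel (PP x) Λ) (u v w : T k e) :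
    S x (fun i => Λ i u) v w + S x (fun i => Λ i v) u w + S x (fun i => Λ i w) u v = 0 := by
  rw [← h u v w]
  unfold S
  rw [← Finset.sum_add_distrib, ← Finset.sum_add_distrib]

theorem step4 (hx : Good x) (h : Rel (PP x) Λ) (a b c : Fin k) (hab : a < b) (hbc : b < c) :
    (∀ t u, Λ (Sum.inl (mk a b hab, t)) (Sum.inl (c, u)) = 0) ∧
    (∀ t u, Λ (Sum.inl (mk a c (hab.trans hbc), t)) (Sum.inl (b, u)) = 0) ∧
    (∀ t u, Λ (Sum.inl (mk b c hbc, t)) (Sum.inl (a, u)) = 0) := by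
  refine hx.g4 a b c hab hbc _ _ _ fun u v w => ?_
  have h1 := rel_S h (Sum.inl (a, u)) (Sum.inl (b, v)) (Sum.inl (c, w))
  rw [S_diff x _ hbc, S_diff x _ (hab.trans hbc), S_diff x _ hab] at h1
  exact h1

/-- the vectors at the points of a pair of blocks have no component in a third block -/
theorem third (hx : Good x) (h : Rel (PP x) Λ) (π : PI k) (t : Fin 3) (c : Fin k) (u : Fin 3)
    (h1 : c ≠ lo π) (h2 : c ≠ π.1) : Λ (Sum.inl (π, t)) (Sum.inl (c, u)) = 0 := by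
  have hlt := lo_lt π
  rcases lt_trichotomy c (lo π) with h3 | h3 | h3
  · exact (step4 hx h c (lo π) π.1 h3 hlt).2.2 t u
  · exact absurd h3 h1
  · rcases lt_trichotomy c π.1 with h4 | h4 | h4
    · exact (step4 hx h (lo π) c π.1 h3 h4).2.1 t u
    · exact absurd h4 h2
    · exact (step4 hx h (lo π) π.1 c hlt h4).1 t u

theorem step3 (hx : Good x) (h : Rel (PP x) Λ) (a b : Fin k) (hab : a < b) :
    (∀ t u, Λ (Sum.inl (mk a b hab, t)) (Sum.inl (a, u)) = 0) ∧
    (∀ t u, Λ (Sum.inl (mk a b hab, t)) (Sum.inl (b, u)) = 0) ∧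
    (∀ t l, Λ (Sum.inl (mk a b hab, t)) (Sum.inr l) = 0) ∧
    (∀ i u, Λ (Sum.inr (Sum.inl (a, i))) (Sum.inl (b, u)) = 0) ∧
    (∀ i u, Λ (Sum.inr (Sum.inl (b, i))) (Sum.inl (a, u)) = 0) := by
  refine hx.g3 a b hab _ _ _ _ _ ⟨fun u v w => ?_, fun u v w => ?_, fun u v l => ?_⟩
  · have h1 := rel_S h (Sum.inl (a, u)) (Sum.inl (a, v)) (Sum.inl (b, w))
    rw [S_diff x _ hab, S_diff x _ hab, S_same_lo x _ hab] at h1
    · exact h1
    · intro π t hπ h4
      have hlt := lo_lt π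
      refine third hx h π t b w (fun h2 => ?_) (fun h2 => ?_)
      · rcases h4 with h4 | h4
        · exact absurd hab (by rw [h4, h2]; exact lt_irrefl _)
        · rw [← h2, ← h4] at hlt
          exact lt_asymm hab hlt
      · rcases h4 with h4 | h4
        · exact hπ (eq_mk hab h4 h2)
        · exact absurd hab (by rw [h4, h2]; exact lt_irrefl _)
  · have h1 := rel_S h (Sum.inl (a, u)) (Sum.inl (b, v)) (Sum.inl (b, w))
    rw [S_diff x _ hab, S_diff x _ hab, S_same_hi x _ hab] at h1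
    · exact h1
    · intro π t hπ h4
      have hlt := lo_lt π
      refine third hx h π t a u (fun h2 => ?_) (fun h2 => ?_)
      · rcases h4 with h4 | h4
        · exact absurd hab (by rw [h4, h2]; exact lt_irrefl _)
        · exact hπ (eq_mk hab h2 h4)
      · rcases h4 with h4 | h4
        · rw [← h2, ← h4] at hlt
          exact lt_asymm hab hlt
        · exact absurd hab (by rw [h4, h2]; exact lt_irrefl _)
  · have h1 := rel_S h (Sum.inl (a, u)) (Sum.inl (b, v)) (Sum.inr l)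
    rw [S_mix x, S_mix x, S_diff x _ hab] at h1
    exact h1

theorem pair_zero (hx : Good x) (h : Rel (PP x) Λ) (π : PI k) (t : Fin 3) (v : T k e) :
    Λ (Sum.inl (π, t)) v = 0 := by
  have hπ : mk (lo π) π.1 (lo_lt π) = π := (eq_mk (lo_lt π) rfl rfl).symm
  obtain ⟨h1, h2, h3, -, -⟩ := step3 hx h (lo π) π.1 (lo_lt π)
  rw [hπ] at h1 h2 h3
  rcases v with ⟨c, u⟩ | l
  · by_cases hc : c = lo π
    · rw [hc]
      exact h1 t u
    · by_cases hc' : c = π.1
      · rw [hc']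
        exact h2 t u
      · exact third hx h π t c u hc hc'
  · exact h3 t l

theorem other (hx : Good x) (h : Rel (PP x) Λ) (a c : Fin k) (hac : c ≠ a) (i : Fin m)
    (u : Fin 3) : Λ (Sum.inr (Sum.inl (a, i))) (Sum.inl (c, u)) = 0 := by
  rcases lt_or_gt_of_ne hac with h1 | h1
  · exact (step3 hx h c a h1).2.2.2.2 i u
  · exact (step3 hx h a c h1).2.2.2.1 i u

theorem step2 (hx : Good x) (h : Rel (PP x) Λ) (a : Fin k) :
    (∀ (i : Fin m) (v : Fin 3 ⊕ Fin e), Λ (Sum.inr (Sum.inl (a, i)))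
      (Sum.elim (fun j => Sum.inl (a, j)) Sum.inr v) = 0) ∧
    (∀ i u, Λ (Sum.inr (Sum.inr i)) (Sum.inl (a, u)) = 0) := by
  have hz := pair_zero hx h
  have hlast : ∀ (u : Fin 3) (l l' : Fin e),
      S x (fun i => Λ i (Sum.inl (a, u))) (Sum.inr l) (Sum.inr l') =
      ∑ i, Λ (Sum.inr (Sum.inl (a, i))) (Sum.inl (a, u)) * x.2.2.1 (a, i) (Sum.inr l) *
        x.2.2.1 (a, i) (Sum.inr l') +
      ∑ i, Λ (Sum.inr (Sum.inr i)) (Sum.inl (a, u)) * x.2.2.2 i l * x.2.2.2 i l' := by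
    intro u l l'
    rw [S_last]
    congr 1
    rw [Fintype.sum_prod_type, Finset.sum_eq_single a]
    · intro b _ hb
      refine Finset.sum_eq_zero fun i _ => ?_
      rw [other hx h b a (Ne.symm hb), zero_mul, zero_mul]
    · intro h'
      exact absurd (Finset.mem_univ _) h'
  refine hx.g2 a (fun i v => Λ (Sum.inr (Sum.inl (a, i)))
      (Sum.elim (fun j => Sum.inl (a, j)) Sum.inr v))
    (fun i u => Λ (Sum.inr (Sum.inr i)) (Sum.inl (a, u))) fun u v w => ?_
  rcases v with v | v <;> rcases w with w | w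
  · have h1 := rel_S h (Sum.inl (a, u)) (Sum.inl (a, v)) (Sum.inl (a, w))
    rw [S_same x _ _ _ fun π t => hz π t _, S_same x _ _ _ fun π t => hz π t _,
      S_same x _ _ _ fun π t => hz π t _] at h1
    simpa using h1
  · have h1 := rel_S h (Sum.inl (a, u)) (Sum.inl (a, v)) (Sum.inr w)
    rw [S_mix, S_mix, S_same x _ _ _ fun π t => hz π t _] at h1
    simpa using h1
  · have h1 := rel_S h (Sum.inl (a, u)) (Sum.inr v) (Sum.inl (a, w))
    rw [S_symm x _ (Sum.inr v), S_mix, S_same x _ _ _ fun π t => hz π t _, S_mix] at h1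
    simp only [Sum.elim_inl, Sum.elim_inr, mul_zero, Finset.sum_const_zero, add_zero]
    rw [← h1]
    congr 2
    exact Finset.sum_congr rfl fun i _ => by ring
  · have h1 := rel_S h (Sum.inl (a, u)) (Sum.inr v) (Sum.inr w)
    rw [hlast, S_mix, S_mix] at h1
    exact h1

theorem all_zero (hx : Good x) (h : Rel (PP x) Λ) : ∀ i v, Λ i v = 0 := by
  have hz := pair_zero hx h
  have hQ : ∀ (a : Fin k) (i : Fin m) (v : T k e), Λ (Sum.inr (Sum.inl (a, i))) v = 0 := by
    intro a i v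
    rcases v with ⟨c, u⟩ | l
    · by_cases hc : c = a
      · rw [hc]
        exact (step2 hx h a).1 i (Sum.inl u)
      · exact other hx h a c hc i u
    · exact (step2 hx h a).1 i (Sum.inr l)
  rintro (⟨π, t⟩ | ⟨a, i⟩ | i) v
  · exact hz π t v
  · exact hQ a i v
  · rcases v with ⟨c, u⟩ | l
    · exact (step2 hx h c).2 i u
    · refine hx.g1 (fun i l => Λ (Sum.inr (Sum.inr i)) (Sum.inr l)) (fun u v w => ?_) i l
      have h1 := rel_S h (Sum.inr u) (Sum.inr v) (Sum.inr w)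
      rw [S_last, S_last, S_last] at h1
      have h2 : ∀ l v w : Fin e, ∑ y : Fin k × Fin m, Λ (Sum.inr (Sum.inl y)) (Sum.inr l) *
          x.2.2.1 y (Sum.inr v) * x.2.2.1 y (Sum.inr w) = 0 := fun l v w =>
        Finset.sum_eq_zero fun y _ => by rw [hQ y.1 y.2, zero_mul, zero_mul]
      rw [h2, h2, h2, zero_add, zero_add, zero_add] at h1
      exact h1

end

end Pool.Agent.WarM.CubAH
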