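import Pool.Agent.WarM.Dual

/-!
# Independent double points in degree three: the block design   (helper27)

Homogeneous coordinates: `k` blocks of three coordinates and `e` more. Points: three in the sum of two
blocks, for every pair of blocks; `m` in the sum of a block and of the last `e` coordinates, for every
block; `m₀` in the last `e` coordinates. The relations between the derivatives at these points split
into systems for three blocks, for two blocks, for one block and for no block.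
-/

set_option autoImplicit false

open Module MvPolynomial Pool.Agent.War

namespace Pool.Agent.WarM.CubAH

/-- pairs `lo < hi` of blocks -/
abbrev PI (k : ℕ) := (b : Fin k) × Fin b.val

/-- the smaller one -/
def lo {k : ℕ} (π : PI k) : Fin k := ⟨π.2.val, π.2.2.trans π.1.2⟩

theorem lo_lt {k : ℕ} (π : PI k) : lo π < π.1 := π.2.2

/-- the pair -/
def mk {k : ℕ} (a b : Fin k) (h : a < b) : PI k := ⟨b, ⟨a.val, h⟩⟩

theorem eq_mk {k : ℕ} {a b : Fin k} (h : a < b) {π : PI k} (h1 : a = lo π) (h2 : b = π.1) :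
    π = mk a b h := by
  subst h1 h2
  rfl

theorem lo_mk {k : ℕ} {a b : Fin k} (h : a < b) : lo (mk a b h) = a := rfl

/-- coordinates -/
abbrev T (k e : ℕ) := (Fin k × Fin 3) ⊕ Fin e

/-- points -/
abbrev II (k m m₀ : ℕ) := (PI k × Fin 3) ⊕ ((Fin k × Fin m) ⊕ Fin m₀)

/-- parameters -/
abbrev XX (k e m m₀ : ℕ) := (PI k × Fin 3 → Fin 3 → ℂ) × (PI k × Fin 3 → Fin 3 → ℂ) ×
  (Fin k × Fin m → Fin 3 ⊕ Fin e → ℂ) × (Fin m₀ → Fin e → ℂ)

/-- the points -/
def PP {k e m m₀ : ℕ} (x : XX k e m m₀) : II k m m₀ → T k e → ℂ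
  | Sum.inl (π, t), Sum.inl (c, j) =>
      if c = lo π then x.1 (π, t) j else if c = π.1 then x.2.1 (π, t) j else 0
  | Sum.inl _, Sum.inr _ => 0
  | Sum.inr (Sum.inl (a, i)), Sum.inl (c, j) => if c = a then x.2.2.1 (a, i) (Sum.inl j) else 0
  | Sum.inr (Sum.inl (a, i)), Sum.inr l => x.2.2.1 (a, i) (Sum.inr l)
  | Sum.inr (Sum.inr _), Sum.inl _ => 0
  | Sum.inr (Sum.inr i), Sum.inr l => x.2.2.2 i l

/-- three blocks -/
def Sys4 (p q p' q' p'' q'' X Y Z : Fin 3 → Fin 3 → ℂ) : Prop :=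
  ∀ u v w : Fin 3, ∑ t, Z t u * p'' t v * q'' t w + ∑ t, Y t v * p' t u * q' t w +
    ∑ t, X t w * p t u * q t v = 0

/-- two blocks -/
def Sys3 {e m : ℕ} (p q : Fin 3 → Fin 3 → ℂ) (Qa Qb : Fin m → Fin 3 ⊕ Fin e → ℂ)
    (A B : Fin 3 → Fin 3 → ℂ) (C : Fin 3 → Fin e → ℂ) (D E : Fin m → Fin 3 → ℂ) : Prop :=
  (∀ u v w : Fin 3, ∑ t, A t u * p t v * q t w + ∑ t, A t v * p t u * q t w +
    (∑ t, B t w * p t u * p t v + ∑ i, D i w * Qa i (Sum.inl u) * Qa i (Sum.inl v)) = 0) ∧
  (∀ u v w : Fin 3, (∑ t, A t u * q t v * q t w +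
    ∑ i, E i u * Qb i (Sum.inl v) * Qb i (Sum.inl w)) +
    ∑ t, B t v * p t u * q t w + ∑ t, B t w * p t u * q t v = 0) ∧
  (∀ (u v : Fin 3) (l : Fin e), ∑ i, E i u * Qb i (Sum.inl v) * Qb i (Sum.inr l) +
    ∑ i, D i v * Qa i (Sum.inl u) * Qa i (Sum.inr l) + ∑ t, C t l * p t u * q t v = 0)

/-- one block -/
def Sys2 {e m m₀ : ℕ} (Q : Fin m → Fin 3 ⊕ Fin e → ℂ) (z : Fin m₀ → Fin e → ℂ)
    (F : Fin m → Fin 3 ⊕ Fin e → ℂ) (G : Fin m₀ → Fin 3 → ℂ) : Prop :=
  ∀ (u : Fin 3) (v w : Fin 3 ⊕ Fin e),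
    (∑ j, F j (Sum.inl u) * Q j v * Q j w + ∑ i, G i u * Sum.elim (fun _ => 0) (z i) v *
      Sum.elim (fun _ => 0) (z i) w) +
    ∑ j, F j v * Q j (Sum.inl u) * Q j w + ∑ j, F j w * Q j (Sum.inl u) * Q j v = 0

/-- no block -/
def Sys1 {e m₀ : ℕ} (z H : Fin m₀ → Fin e → ℂ) : Prop :=
  ∀ u v w : Fin e, ∑ i, H i u * z i v * z i w + ∑ i, H i v * z i u * z i w +
    ∑ i, H i w * z i u * z i v = 0

section
variable {k e m m₀ : ℕ} (x : XX k e m m₀) (F : II k m m₀ → ℂ)

/-- quadratic expression -/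
noncomputable def S (v w : T k e) : ℂ := ∑ i, F i * PP x i v * PP x i w

theorem S_symm (v w : T k e) : S x F v w = S x F w v := by
  unfold S
  exact Finset.sum_congr rfl fun i _ => by ring

theorem S_split (v w : T k e) : S x F v w =
    ∑ y : PI k × Fin 3, F (Sum.inl y) * PP x (Sum.inl y) v * PP x (Sum.inl y) w +
    (∑ y : Fin k × Fin m, F (Sum.inr (Sum.inl y)) * PP x (Sum.inr (Sum.inl y)) v *
      PP x (Sum.inr (Sum.inl y)) w +
    ∑ y : Fin m₀, F (Sum.inr (Sum.inr y)) * PP x (Sum.inr (Sum.inr y)) v *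
      PP x (Sum.inr (Sum.inr y)) w) := by
  unfold S
  rw [Fintype.sum_sum_type, Fintype.sum_sum_type]

theorem S_diff {b c : Fin k} (h : b < c) (j l : Fin 3) :
    S x F (Sum.inl (b, j)) (Sum.inl (c, l)) =
      ∑ t, F (Sum.inl (mk b c h, t)) * x.1 (mk b c h, t) j * x.2.1 (mk b c h, t) l := by
  rw [S_split]
  have h2 : ∑ y : Fin k × Fin m, F (Sum.inr (Sum.inl y)) *
      PP x (Sum.inr (Sum.inl y)) (Sum.inl (b, j)) *
      PP x (Sum.inr (Sum.inl y)) (Sum.inl (c, l)) = 0 := by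
    refine Finset.sum_eq_zero fun y _ => ?_
    obtain ⟨a, i⟩ := y
    simp only [PP]
    by_cases hb : b = a
    · have hc : c ≠ a := fun hc => by
        rw [hb, hc] at h
        exact lt_irrefl _ h
      rw [if_neg hc, mul_zero]
    · rw [if_neg hb, mul_zero, zero_mul]
  have h3 : ∑ y : Fin m₀, F (Sum.inr (Sum.inr y)) *
      PP x (Sum.inr (Sum.inr y)) (Sum.inl (b, j)) *
      PP x (Sum.inr (Sum.inr y)) (Sum.inl (c, l)) = 0 := by
    refine Finset.sum_eq_zero fun y _ => ?_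
    simp only [PP, mul_zero]
  rw [h2, h3, add_zero, add_zero, Fintype.sum_prod_type, Finset.sum_eq_single (mk b c h)]
  · refine Finset.sum_congr rfl fun t _ => ?_
    simp only [PP]
    rw [lo_mk, if_pos rfl, if_neg (ne_of_gt h), if_pos (show c = (mk b c h).1 from rfl)]
  · intro π _ hπ
    refine Finset.sum_eq_zero fun t _ => ?_
    simp only [PP]
    have hlt := lo_lt π
    by_cases h1 : b = lo π
    · have h4 : c ≠ π.1 := fun h4 => hπ (eq_mk h h1 h4)
      have h5 : c ≠ lo π := fun h5 => by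
        rw [h1, h5] at h
        exact lt_irrefl _ h
      rw [if_neg h5, if_neg h4, mul_zero]
    · rw [if_neg h1]
      by_cases h6 : b = π.1
      · have h4 : c ≠ π.1 := fun h4 => by
          rw [h6, h4] at h
          exact lt_irrefl _ h
        have h5 : c ≠ lo π := fun h5 => by
          rw [h6, h5] at h
          exact lt_asymm h hlt
        rw [if_neg h5, if_neg h4, mul_zero]
      · rw [if_neg h6, mul_zero, zero_mul]
  · intro h'
    exact absurd (Finset.mem_univ _) h'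

/-- same block; `F` vanishes at the other pairs -/
theorem S_same_lo {b c : Fin k} (h : b < c) (j l : Fin 3)
    (hF : ∀ (π : PI k) (t : Fin 3), π ≠ mk b c h → (b = lo π ∨ b = π.1) →
      F (Sum.inl (π, t)) = 0) :
    S x F (Sum.inl (b, j)) (Sum.inl (b, l)) =
      ∑ t, F (Sum.inl (mk b c h, t)) * x.1 (mk b c h, t) j * x.1 (mk b c h, t) l +
      ∑ i, F (Sum.inr (Sum.inl (b, i))) * x.2.2.1 (b, i) (Sum.inl j) *
        x.2.2.1 (b, i) (Sum.inl l) := by
  rw [S_split]
  have h3 : ∑ y : Fin m₀, F (Sum.inr (Sum.inr y)) *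
      PP x (Sum.inr (Sum.inr y)) (Sum.inl (b, j)) *
      PP x (Sum.inr (Sum.inr y)) (Sum.inl (b, l)) = 0 := by
    refine Finset.sum_eq_zero fun y _ => ?_
    simp only [PP, mul_zero]
  rw [h3, add_zero]
  congr 1
  · rw [Fintype.sum_prod_type, Finset.sum_eq_single (mk b c h)]
    · refine Finset.sum_congr rfl fun t _ => ?_
      simp only [PP]
      rw [lo_mk, if_pos rfl, if_pos rfl]
    · intro π _ hπ
      refine Finset.sum_eq_zero fun t _ => ?_
      by_cases hb : b = lo π ∨ b = π.1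
      · rw [hF π t hπ hb, zero_mul, zero_mul]
      · push Not at hb
        simp only [PP]
        rw [if_neg hb.1, if_neg hb.2, mul_zero, zero_mul]
    · intro h'
      exact absurd (Finset.mem_univ _) h'
  · rw [Fintype.sum_prod_type, Finset.sum_eq_single b]
    · refine Finset.sum_congr rfl fun i _ => ?_
      simp only [PP, if_true]
    · intro a _ ha
      refine Finset.sum_eq_zero fun i _ => ?_
      simp only [PP]
      rw [if_neg (Ne.symm ha), mul_zero, zero_mul]
    · intro h'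
      exact absurd (Finset.mem_univ _) h'

theorem S_same_hi {b c : Fin k} (h : b < c) (j l : Fin 3)
    (hF : ∀ (π : PI k) (t : Fin 3), π ≠ mk b c h → (c = lo π ∨ c = π.1) →
      F (Sum.inl (π, t)) = 0) :
    S x F (Sum.inl (c, j)) (Sum.inl (c, l)) =
      ∑ t, F (Sum.inl (mk b c h, t)) * x.2.1 (mk b c h, t) j * x.2.1 (mk b c h, t) l +
      ∑ i, F (Sum.inr (Sum.inl (c, i))) * x.2.2.1 (c, i) (Sum.inl j) *
        x.2.2.1 (c, i) (Sum.inl l) := by
  rw [S_split]
  have h3 : ∑ y : Fin m₀, F (Sum.inr (Sum.inr y)) *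
      PP x (Sum.inr (Sum.inr y)) (Sum.inl (c, j)) *
      PP x (Sum.inr (Sum.inr y)) (Sum.inl (c, l)) = 0 := by
    refine Finset.sum_eq_zero fun y _ => ?_
    simp only [PP, mul_zero]
  rw [h3, add_zero]
  congr 1
  · rw [Fintype.sum_prod_type, Finset.sum_eq_single (mk b c h)]
    · refine Finset.sum_congr rfl fun t _ => ?_
      simp only [PP]
      rw [lo_mk, if_neg (ne_of_gt h), if_neg (ne_of_gt h), if_pos (show c = (mk b c h).1 from rfl),
        if_pos (show c = (mk b c h).1 from rfl)]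
    · intro π _ hπ
      refine Finset.sum_eq_zero fun t _ => ?_
      by_cases hb : c = lo π ∨ c = π.1
      · rw [hF π t hπ hb, zero_mul, zero_mul]
      · push Not at hb
        simp only [PP]
        rw [if_neg hb.1, if_neg hb.2, mul_zero, zero_mul]
    · intro h'
      exact absurd (Finset.mem_univ _) h'
  · rw [Fintype.sum_prod_type, Finset.sum_eq_single c]
    · refine Finset.sum_congr rfl fun i _ => ?_
      simp only [PP, if_true]
    · intro a _ ha
      refine Finset.sum_eq_zero fun i _ => ?_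
      simp only [PP]
      rw [if_neg (Ne.symm ha), mul_zero, zero_mul]
    · intro h'
      exact absurd (Finset.mem_univ _) h'

/-- same block; `F` vanishes at all the pairs -/
theorem S_same {b : Fin k} (j l : Fin 3) (hF : ∀ (π : PI k) (t : Fin 3), F (Sum.inl (π, t)) = 0) :
    S x F (Sum.inl (b, j)) (Sum.inl (b, l)) =
      ∑ i, F (Sum.inr (Sum.inl (b, i))) * x.2.2.1 (b, i) (Sum.inl j) *
        x.2.2.1 (b, i) (Sum.inl l) := by
  rw [S_split]
  have h1 : ∑ y : PI k × Fin 3, F (Sum.inl y) * PP x (Sum.inl y) (Sum.inl (b, j)) *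
      PP x (Sum.inl y) (Sum.inl (b, l)) = 0 := by
    refine Finset.sum_eq_zero fun y _ => ?_
    rw [hF y.1 y.2, zero_mul, zero_mul]
  have h3 : ∑ y : Fin m₀, F (Sum.inr (Sum.inr y)) *
      PP x (Sum.inr (Sum.inr y)) (Sum.inl (b, j)) *
      PP x (Sum.inr (Sum.inr y)) (Sum.inl (b, l)) = 0 := by
    refine Finset.sum_eq_zero fun y _ => ?_
    simp only [PP, mul_zero]
  rw [h1, h3, add_zero, zero_add, Fintype.sum_prod_type, Finset.sum_eq_single b]
  · refine Finset.sum_congr rfl fun i _ => ?_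
    simp only [PP, if_true]
  · intro a _ ha
    refine Finset.sum_eq_zero fun i _ => ?_
    simp only [PP]
    rw [if_neg (Ne.symm ha), mul_zero, zero_mul]
  · intro h'
    exact absurd (Finset.mem_univ _) h'

/-- a block and the last coordinates -/
theorem S_mix {b : Fin k} (j : Fin 3) (l : Fin e) :
    S x F (Sum.inl (b, j)) (Sum.inr l) =
      ∑ i, F (Sum.inr (Sum.inl (b, i))) * x.2.2.1 (b, i) (Sum.inl j) *
        x.2.2.1 (b, i) (Sum.inr l) := by
  rw [S_split]
  have h1 : ∑ y : PI k × Fin 3, F (Sum.inl y) * PP x (Sum.inl y) (Sum.inl (b, j)) *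
      PP x (Sum.inl y) (Sum.inr l) = 0 := by
    refine Finset.sum_eq_zero fun y _ => ?_
    simp only [PP, mul_zero]
  have h3 : ∑ y : Fin m₀, F (Sum.inr (Sum.inr y)) *
      PP x (Sum.inr (Sum.inr y)) (Sum.inl (b, j)) *
      PP x (Sum.inr (Sum.inr y)) (Sum.inr l) = 0 := by
    refine Finset.sum_eq_zero fun y _ => ?_
    simp only [PP, mul_zero, zero_mul]
  rw [h1, h3, add_zero, zero_add, Fintype.sum_prod_type, Finset.sum_eq_single b]
  · refine Finset.sum_congr rfl fun i _ => ?_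
    simp only [PP, if_true]
  · intro a _ ha
    refine Finset.sum_eq_zero fun i _ => ?_
    simp only [PP]
    rw [if_neg (Ne.symm ha), mul_zero, zero_mul]
  · intro h'
    exact absurd (Finset.mem_univ _) h'

/-- the last coordinates -/
theorem S_last (l l' : Fin e) :
    S x F (Sum.inr l) (Sum.inr l') =
      ∑ y : Fin k × Fin m, F (Sum.inr (Sum.inl y)) * x.2.2.1 y (Sum.inr l) *
        x.2.2.1 y (Sum.inr l') +
      ∑ i : Fin m₀, F (Sum.inr (Sum.inr i)) * x.2.2.2 i l * x.2.2.2 i l' := by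
  rw [S_split]
  have h1 : ∑ y : PI k × Fin 3, F (Sum.inl y) * PP x (Sum.inl y) (Sum.inr l) *
      PP x (Sum.inl y) (Sum.inr l') = 0 := by
    refine Finset.sum_eq_zero fun y _ => ?_
    simp only [PP, mul_zero]
  rw [h1, zero_add]
  rfl

end

end Pool.Agent.WarM.CubAH
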