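import Pool.Agent.War.WAH

/-!
# Independent double points in degree three: dual criterion

`T` is the set of homogeneous coordinates (`n + 1` of them), `P i` the points.
-/

set_option autoImplicit false

open Module MvPolynomial Pool.Agent.War

namespace Pool.Agent.WarM

/-- the relations between the functionals `∂_v` at the points `P i` on cubic forms -/
def Rel {I T : Type} [Fintype I] (P Λ : I → T → ℂ) : Prop :=
  ∀ u v w, ∑ i, (Λ i u * P i v * P i w + Λ i v * P i u * P i w + Λ i w * P i u * P i v) = 0

section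
variable {n : ℕ} {T : Type} [Fintype T] (e : T ≃ Fin (n + 1))

/-- homogeneous coordinates as affine functions with sum `1` -/
noncomputable def ell (v : T) : MvPolynomial (Fin n) ℂ :=
  Fin.cases (1 - ∑ k, X k) (fun k => X k) (e v)

/-- their derivatives -/
noncomputable def cc (k : Fin n) (v : T) : ℂ :=
  Fin.cases (-1) (fun k' => if k' = k then 1 else 0) (e v)

/-- the affine point -/
noncomputable def zz (Q : T → ℂ) : Fin n → ℂ := fun k => Q (e.symm k.succ) / ∑ v, Q v

theorem totalDegree_ell (v : T) : (ell e v).totalDegree ≤ 1 := by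
  unfold ell
  refine Fin.cases ?_ (fun k => ?_) (e v)
  · rw [Fin.cases_zero]
    refine (totalDegree_sub _ _).trans ?_
    rw [totalDegree_one]
    refine max_le (Nat.zero_le _) ?_
    refine totalDegree_finsetSum_le fun k _ => ?_
    rw [totalDegree_X]
  · rw [Fin.cases_succ, totalDegree_X]

theorem pderiv_ell (k : Fin n) (v : T) : pderiv k (ell e v) = C (cc e k v) := by
  unfold ell cc
  refine Fin.cases ?_ (fun k' => ?_) (e v)
  · rw [Fin.cases_zero, Fin.cases_zero, map_sub, map_sum]
    have h1 : pderiv k (1 : MvPolynomial (Fin n) ℂ) = 0 := pderiv_one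
    rw [h1, Finset.sum_eq_single k]
    · rw [pderiv_X_self, zero_sub, C_neg, C_1]
    · intro j _ hj
      exact pderiv_X_of_ne hj
    · intro h
      exact absurd (Finset.mem_univ k) h
  · rw [Fin.cases_succ, Fin.cases_succ]
    split_ifs with h
    · rw [h, pderiv_X_self, C_1]
    · rw [pderiv_X_of_ne h, C_0]

theorem sum_cc (k : Fin n) : ∑ v, cc e k v = 0 := by
  unfold cc
  rw [← e.symm.sum_comp, Fin.sum_univ_succ]
  simp

theorem eval_ell (Q : T → ℂ) (hQ : ∑ v, Q v ≠ 0) (v : T) :
    eval (zz e Q) (ell e v) = Q v / ∑ v, Q v := by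
  obtain ⟨j, rfl⟩ : ∃ j, v = e.symm j := ⟨e v, by simp⟩
  unfold ell
  rw [Equiv.apply_symm_apply]
  refine Fin.cases ?_ (fun k => ?_) j
  · have h : ∑ v, Q v = Q (e.symm 0) + ∑ k : Fin n, Q (e.symm k.succ) := by
      rw [← e.symm.sum_comp, Fin.sum_univ_succ]
    rw [Fin.cases_zero, map_sub, map_one, map_sum]
    simp only [eval_X, zz]
    rw [← Finset.sum_div]
    field_simp
    rw [h]
    ring
  · rw [Fin.cases_succ, eval_X]
    rfl

end

/-- **Dual criterion.** -/
theorem gg_of_dual {n p : ℕ} (T I : Type) [Fintype T] [Fintype I] (hT : Fintype.card T = n + 1)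
    (P : I → T → ℂ) (hσ : ∀ i, ∑ v, P i v ≠ 0)
    (hind : ∀ Λ : I → T → ℂ, Rel P Λ → ∀ i v, Λ i v = 0) (hp : p ≤ Fintype.card I) :
    GG n 3 p := by
  classical
  have e : T ≃ Fin (n + 1) := Fintype.equivFinOfCardEq hT
  obtain ⟨φ⟩ : Nonempty (Fin p ↪ I) := by
    apply Function.Embedding.nonempty_of_card_le
    rwa [Fintype.card_fin]
  set z : Fin p → Fin n → ℂ := fun j => zz e (P (φ j)) with hz
  refine ⟨z, ?_⟩
  -- the map given by the functionals
  let L : Pol n 3 →ₗ[ℂ] (Fin p × Fin (n + 1) → ℂ) :=
    LinearMap.pi fun x => Fin.cases (ev n 3 (z x.1)) (fun k => dv n 3 k (z x.1)) x.2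
  have hker : Dbl n 3 Finset.univ z = LinearMap.ker L := by
    ext f
    rw [mem_Dbl, LinearMap.mem_ker]
    constructor
    · rintro ⟨h1, h2⟩
      funext x
      obtain ⟨i, j⟩ := x
      refine Fin.cases ?_ (fun k => ?_) j
      · change ev n 3 (z i) f = 0
        rw [ev_apply]
        exact h1 i
      · change dv n 3 k (z i) f = 0
        rw [dv_apply]
        exact h2 i (Finset.mem_univ _) k
    · intro h
      refine ⟨fun i => ?_, fun i _ k => ?_⟩
      · have h1 : ev n 3 (z i) f = 0 := congrFun h (i, 0)
        rwa [ev_apply] at h1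
      · have h1 : dv n 3 k (z i) f = 0 := congrFun h (i, k.succ)
        rwa [dv_apply] at h1
  have hsurj : LinearMap.range L = ⊤ := by
    by_contra hne
    obtain ⟨ψ, hψ0, hψ⟩ := Submodule.exists_dual_map_eq_bot_of_lt_top (lt_top_iff_ne_top.2 hne)
      inferInstance
    apply hψ0
    -- coefficients
    set co : Fin p → Fin (n + 1) → ℂ := fun i j => ψ (Pi.single (i, j) 1) with hco
    have hψs : ∀ w : Fin p × Fin (n + 1) → ℂ, ψ w = ∑ i, ∑ j, w (i, j) * co i j := by
      intro w
      conv_lhs => rw [pi_eq_sum_univ' w]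
      rw [map_sum, Fintype.sum_prod_type]
      refine Finset.sum_congr rfl fun i _ => Finset.sum_congr rfl fun j _ => ?_
      rw [map_smul, smul_eq_mul, hco]
    have hL : ∀ f : Pol n 3, ∑ i, (ev n 3 (z i) f * co i 0 +
        ∑ k : Fin n, dv n 3 k (z i) f * co i k.succ) = 0 := by
      intro f
      have h1 : ψ (L f) = 0 := by
        have h2 : ψ (L f) ∈ Submodule.map ψ (LinearMap.range L) :=
          Submodule.mem_map_of_mem (LinearMap.mem_range_self L f)
        rw [hψ] at h2
        exact (Submodule.mem_bot ℂ).1 h2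
      rw [hψs] at h1
      rw [← h1]
      refine Finset.sum_congr rfl fun i _ => ?_
      rw [Fin.sum_univ_succ]
      rfl
    set σ : Fin p → ℂ := fun i => ∑ v, P (φ i) v with hσdef
    -- the vectors
    set Λ0 : Fin p → T → ℂ := fun i v => (co i 0 / 3 * (P (φ i) v / σ i) +
      ∑ k, cc e k v * co i k.succ) / σ i ^ 2 with hΛ0
    have hσ0 : ∀ i, σ i ≠ 0 := fun i => hσ (φ i)
    have hrel0 : ∀ u v w, ∑ i : Fin p, (Λ0 i u * P (φ i) v * P (φ i) w +
        Λ0 i v * P (φ i) u * P (φ i) w + Λ0 i w * P (φ i) u * P (φ i) v) = 0 := by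
      intro u v w
      have hf : (ell e u * ell e v * ell e w).totalDegree ≤ 3 := by
        have h1 := totalDegree_mul (ell e u * ell e v) (ell e w)
        have h2 := totalDegree_mul (ell e u) (ell e v)
        have h3 := totalDegree_ell e u
        have h4 := totalDegree_ell e v
        have h5 := totalDegree_ell e w
        omega
      have h := hL ⟨_, mem_Pol.2 hf⟩
      rw [← h]
      refine Finset.sum_congr rfl fun i _ => ?_
      rw [ev_apply]
      simp only [dv_apply, Derivation.leibniz, pderiv_ell, map_mul, map_add, smul_eq_mul, eval_C]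
      rw [hz]
      simp only [eval_ell e (P (φ i)) (hσ (φ i))]
      have hs := hσ0 i
      rw [hΛ0]
      simp only
      change _ = P (φ i) u / σ i * (P (φ i) v / σ i) * (P (φ i) w / σ i) * co i 0 +
        ∑ k : Fin n, (P (φ i) u / σ i * (P (φ i) v / σ i) * cc e k w +
          P (φ i) w / σ i * (P (φ i) u / σ i * cc e k v + P (φ i) v / σ i * cc e k u)) *
          co i k.succ
      have e1 : ∑ k : Fin n, (P (φ i) u / σ i * (P (φ i) v / σ i) * cc e k w +
          P (φ i) w / σ i * (P (φ i) u / σ i * cc e k v + P (φ i) v / σ i * cc e k u)) *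
          co i k.succ = P (φ i) u / σ i * (P (φ i) v / σ i) * ∑ k, cc e k w * co i k.succ +
          P (φ i) w / σ i * (P (φ i) u / σ i) * ∑ k, cc e k v * co i k.succ +
          P (φ i) w / σ i * (P (φ i) v / σ i) * ∑ k, cc e k u * co i k.succ := by
        rw [Finset.mul_sum, Finset.mul_sum, Finset.mul_sum, ← Finset.sum_add_distrib,
          ← Finset.sum_add_distrib]
        refine Finset.sum_congr rfl fun k _ => ?_
        ring
      rw [e1]
      field_simp
      ring
    -- extend by zero
    have hΛ : ∀ i v, Λ0 i v = 0 := by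
      have h := hind (fun x v => ∑ j : Fin p, if φ j = x then Λ0 j v else 0) ?_
      · intro i v
        have h1 := h (φ i) v
        rw [← h1, Finset.sum_eq_single i]
        · rw [if_pos rfl]
        · intro j _ hj
          rw [if_neg fun h => hj (φ.injective h)]
        · intro h
          exact absurd (Finset.mem_univ i) h
      · intro u v w
        refine Eq.trans ?_ (hrel0 u v w)
        have h2 : ∀ x : I, (∑ j : Fin p, if φ j = x then Λ0 j u else 0) * P x v * P x w +
            (∑ j : Fin p, if φ j = x then Λ0 j v else 0) * P x u * P x w +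
            (∑ j : Fin p, if φ j = x then Λ0 j w else 0) * P x u * P x v =
            ∑ j : Fin p, if φ j = x then (Λ0 j u * P (φ j) v * P (φ j) w +
              Λ0 j v * P (φ j) u * P (φ j) w + Λ0 j w * P (φ j) u * P (φ j) v) else 0 := by
          intro x
          rw [Finset.sum_mul, Finset.sum_mul, Finset.sum_mul, Finset.sum_mul, Finset.sum_mul,
            Finset.sum_mul, ← Finset.sum_add_distrib, ← Finset.sum_add_distrib]
          refine Finset.sum_congr rfl fun j _ => ?_
          split_ifs with hj
          · rw [hj]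
          · ring
        simp only [h2]
        rw [Finset.sum_comm]
        refine Finset.sum_congr rfl fun j _ => ?_
        rw [Finset.sum_ite_eq, if_pos (Finset.mem_univ _)]
    -- conclusion
    have h1 : ∀ i v, co i 0 / 3 * (P (φ i) v / σ i) + ∑ k, cc e k v * co i k.succ = 0 := by
      intro i v
      have h2 := hΛ i v
      rw [hΛ0] at h2
      simp only [div_eq_zero_iff] at h2
      rcases h2 with h2 | h2
      · exact h2
      · exact absurd h2 (pow_ne_zero 2 (hσ0 i))
    have h2 : ∀ i, co i 0 = 0 := by
      intro i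
      have h3 : ∑ v, (co i 0 / 3 * (P (φ i) v / σ i) + ∑ k, cc e k v * co i k.succ) = 0 :=
        Finset.sum_eq_zero fun v _ => h1 i v
      rw [Finset.sum_add_distrib, ← Finset.mul_sum, ← Finset.sum_div, Finset.sum_comm] at h3
      have h4 : ∑ k : Fin n, ∑ v, cc e k v * co i k.succ = 0 := by
        refine Finset.sum_eq_zero fun k _ => ?_
        rw [← Finset.sum_mul, sum_cc, zero_mul]
      rw [h4, add_zero] at h3
      have h5 : (∑ v, P (φ i) v) / σ i = 1 := div_self (hσ0 i)
      rw [h5, mul_one] at h3
      simpa using h3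
    have h3 : ∀ i (k : Fin n), co i k.succ = 0 := by
      intro i k
      have h4 := h1 i (e.symm k.succ)
      rw [h2 i, zero_div, zero_mul, zero_add, Finset.sum_eq_single k] at h4
      · unfold cc at h4
        rw [Equiv.apply_symm_apply, Fin.cases_succ, if_pos rfl, one_mul] at h4
        exact h4
      · intro j _ hj
        unfold cc
        rw [Equiv.apply_symm_apply, Fin.cases_succ, if_neg (Ne.symm hj), zero_mul]
      · intro h
        exact absurd (Finset.mem_univ k) h
    apply LinearMap.ext
    intro w
    rw [hψs, LinearMap.zero_apply]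
    refine Finset.sum_eq_zero fun i _ => Finset.sum_eq_zero fun j _ => ?_
    refine Fin.cases ?_ (fun k => ?_) j
    · rw [h2, mul_zero]
    · rw [h3, mul_zero]
  rw [hker]
  have h1 := LinearMap.finrank_range_add_finrank_ker L
  rw [hsurj, finrank_top] at h1
  have h2 : finrank ℂ (Fin p × Fin (n + 1) → ℂ) = p * (n + 1) := by
    rw [Module.finrank_fintype_fun_eq_card, Fintype.card_prod, Fintype.card_fin, Fintype.card_fin]
  rw [h2] at h1
  have h3 := finrank_Pol_le n 3
  have h4 : (n + 1) * p = p * (n + 1) := mul_comm _ _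
  omega

end Pool.Agent.WarM
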