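import Pool.Agent.WarM.CORE
import Pool.Agent.WarM.ONE
import Pool.Agent.WarM.NUM

/-!
# Simultaneous Waring decompositions (MP_db021c_ag): main case of the block lemma   (helper27)
-/

set_option autoImplicit false

open Module MvPolynomial
open Pool.Agent.War

namespace Pool.Agent.WarM

theorem MB (hAH : S_AH) : S_MB := by
  intro n d b μ hn hd hb1 hbn hμ hD hq
  obtain ⟨ν, rfl⟩ : ∃ ν, n = ν + 1 := ⟨n - 1, by omega⟩
  obtain ⟨δ, rfl⟩ : ∃ δ, d = δ + 2 := ⟨d - 2, by omega⟩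
  have hμq : (ν + 1) * (μ / (ν + 1)) + μ % (ν + 1) = μ := Nat.div_add_mod μ (ν + 1)
  have hDlt : μ % (ν + 1) < ν + 1 := Nat.mod_lt _ (by omega)
  generalize μ / (ν + 1) = q at hq hμq
  generalize μ % (ν + 1) = D at hq hD hμq hDlt
  obtain ⟨u, r, k, hur, huD, hu, hr, hkr, hk, g1, g2⟩ := NUM (ν + 1) (δ + 2) q D hn hd
    (by omega) hDlt hq (by rw [hμq]; exact hμ)
  rw [show ν + 1 - 1 = ν by omega] at hu g2
  rw [show δ + 2 - 1 = δ + 1 by omega] at hr g1 g2
  rw [show δ + 2 - 2 = δ by omega] at hk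
  rw [show 2 * (ν + 1) - 1 = 2 * ν + 1 by omega] at hu
  have hN : NN (ν + 1) (δ + 2) = NN ν (δ + 2) + NN (ν + 1) (δ + 1) := NN_succ ν (δ + 1)
  have hN1 : NN (ν + 1) (δ + 1) = NN ν (δ + 1) + NN (ν + 1) δ := NN_succ ν δ
  obtain ⟨hc1, hc2, hc3⟩ := arith3C1 (b := b) hDlt hbn
  have hm := arith4C1 (b := b) hμq
  generalize (b * D + ν) / (ν + 1) = c at hc1 hc2 hc3 hm
  have hbu : (ν + b) * u ≤ NN ν (δ + 2) :=
    (Nat.mul_le_mul_right _ (by omega)).trans hu
  have hbr : b * r ≤ (ν + 1) * r := Nat.mul_le_mul_right _ hbn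
  have e1 : 2 * (ν + 1) * r = (ν + 1) * r + (ν + 1) * r := by ring
  have e2 : (ν + b) * u = ν * u + b * u := by ring
  have e3 : b * (u + D) = b * u + b * D := by ring
  have hr' : (2 * (ν + 1) + 1) * r ≤ NN (ν + 1) (δ + 1) :=
    (Nat.mul_le_mul_left _ (by omega)).trans hr
  have hGk : GG (ν + 1) δ k := by
    rcases hk with hk | ⟨h5, hk⟩
    · have : k = 0 ∨ k = 1 := by omega
      rcases this with rfl | rfl
      · exact GG.zero _ _
      · exact ONE _ _ (by omega)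
    · exact hAH _ _ _ (by omega) (by omega) hk
  obtain ⟨z, a, y, hK⟩ := CORE ν δ b u r c (NN ν (δ + 2) - (ν + b) * u)
    (NN (ν + 1) (δ + 1) - (u + b * r + c + (ν + 1) * r + D)) (u + D) k (by omega) hc1
    (hAH _ _ _ (by omega) (by omega) hu) (by omega)
    (hAH _ _ _ (by omega) (by omega) hr) (hAH _ _ _ (by omega) (by omega) hr') hGk hkr
    (by omega) huD (by omega) (by omega)
  have hbq : b * q = b * r + b * u := by rw [← hur]; ring
  have hnq : (ν + 1) * q = (ν + 1) * r + (ν * u + u) := by rw [← hur]; ring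
  have hcα : Fintype.card ((Fin b × Fin u) ⊕ ((Fin b × Fin r) ⊕ Fin c)) =
      (b * μ + (ν + 1) - 1) / (ν + 1) := by
    simp only [Fintype.card_sum, Fintype.card_prod, Fintype.card_fin]
    rw [hm]
    omega
  have hcβ : Fintype.card (Fin (NN ν (δ + 2) - (ν + b) * u) ⊕
      Fin (NN (ν + 1) (δ + 1) - (u + b * r + c + (ν + 1) * r + D))) =
      NN (ν + 1) (δ + 2) - μ - (b * μ + (ν + 1) - 1) / (ν + 1) := by
    simp only [Fintype.card_sum, Fintype.card_fin]
    rw [hm]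
    omega
  exact ⟨_, _, _, hK.reindexC1 (Fintype.equivFinOfCardEq hcα).symm
    (Fintype.equivFinOfCardEq hcβ).symm⟩

end Pool.Agent.WarM
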